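import Mathlib
set_option autoImplicit false

/-!
# Project PD (helper197), page MP_6cbfb8_an (very famous): statements of the lemmas, with proofs

GOAL. Every measurable density on the unit sphere of `ℝ^n`, `n ≥ 2`, agrees outside a set of small
surface measure with a continuous density `h` with `|(h dσ)^(ξ)| ≤ C √log(2+|ξ|) (1+|ξ|)^(-(n-1)/2)`.

IDEA. Replace a trigonometric polynomial `F` by `F ∑_j ζ_j χ(N x - v_j)`, where `χ(x - v)`, `v ∈ ℤ^n`, is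
a partition of unity and the `ζ_j` are independent, `ζ_j = 1` with probability `1 - 1/m`, mean zero.
The square function `∑_j |(F χ(N · - v_j) dσ)^(ξ)|²` is at most an average of `|(F dσ)^|²` over the ball
`B(ξ, N)` (almost orthogonality in the lattice), so `≤ C ‖F‖_∞² (N + |ξ|)^(-(n-1))`.

Every `S_...` below is a `Prop` to be proved in a file of its own.
-/

namespace Pool.Agent.H197.PD

open MeasureTheory Set Metric Complex Filter Topology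
open scoped ENNReal NNReal RealInnerProductSpace BigOperators ContDiff

/-- Euclidean space -/
abbrev E (n : ℕ) := EuclideanSpace ℝ (Fin n)

/-- profile of the cells: support `[0,2]`, the integer translates sum to one -/
noncomputable def kap (t : ℝ) : ℝ := Real.smoothTransition t - Real.smoothTransition (t - 1)

/-- the cell function -/
noncomputable def chi (n : ℕ) (x : E n) : ℝ := ∏ i, kap (x i)

/-- the lattice points used at scale `N`: coordinates `-(N+2), …, N+1` -/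
noncomputable def vec (n N : ℕ) (j : Fin n → Fin (2 * N + 4)) : E n :=
  WithLp.toLp 2 (fun i => ((j i : ℕ) : ℝ) - ((N : ℝ) + 2))

/-- the two values of the random multiplier: `1 - m` for `w = 0`, and `1` -/
noncomputable def zet (m : ℕ) (w : Fin m) : ℝ := if (w : ℕ) = 0 then 1 - (m : ℝ) else 1

/-- the kernel `e^{-2πi⟨x,ξ⟩}` -/
noncomputable def ee {n : ℕ} (x ξ : E n) : ℂ := Complex.exp (-(2 * Real.pi * ⟪x, ξ⟫ : ℝ) * I)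

/-- PD-KAP. Proof. `kap` is smooth (`Real.smoothTransition.contDiff`), `0 ≤ kap ≤ 1` since
`smoothTransition` is monotone (`Real.smoothTransition.monotone`) with values in `[0,1]`; for `t ≤ 0` both terms vanish
(`zero_of_nonpos`), for `t ≥ 2` both are `1` (`one_of_one_le`). PARTITION: by
`Finset.prod_univ_sum` the sum over `j` is the product over `i` of `∑_{s=-(N+2)}^{N+1} kap (t - s)`,
`t = N x_i ∈ [-N, N]` (`|x i| ≤ ‖x‖ ≤ 1`), which telescopes to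
`st (t + N + 2) - st (t - N - 2) = 1 - 0` (`Finset.sum_range_sub'`, `Fin.sum_univ_eq_sum_range`).
OVERLAP: `chi ≠ 0` forces for every coordinate `t - 2 < s < t` for the integer `s = j_i - N - 2`, and there are at most
two such integers; so the set of the `j` is contained in a product (`Fintype.piFinset`) of sets with at most two elements. -/
def S_KAP : Prop :=
  (ContDiff ℝ ∞ kap ∧ (∀ t, 0 ≤ kap t) ∧ (∀ t, kap t ≤ 1) ∧ (∀ t, kap t ≠ 0 → 0 < t ∧ t < 2)) ∧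
  (∀ (n N : ℕ) (x : E n), ‖x‖ ≤ 1 → ∑ j, chi n ((N : ℝ) • x - vec n N j) = 1) ∧
  (∀ (n N : ℕ) (x : E n),
    {j : Fin n → Fin (2 * N + 4) | chi n ((N : ℝ) • x - vec n N j) ≠ 0}.ncard ≤ 2 ^ n)

/-- PD-HAT: Fourier representation of the cell function, with rapid decay. Proof. `chi n` is smooth
(`contDiff_prod`, the coordinates are continuous linear) with compact support (`kap` is supported in `[0,2]`), so it is a
Schwartz function (`HasCompactSupport.toSchwartzMap` or similar; compose with `Complex.ofRealCLM`); `h = 𝓕 chi` is a Schwartz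
function (decay: `SchwartzMap.decay` with `(1 + ‖u‖)^K ≤ 2^K (1 + ‖u‖^K)`, or
`SchwartzMap.one_add_le_sup_seminorm_apply`), and the Fourier inversion theorem
(`Continuous.fourierInv_fourier_eq` or `SchwartzMap` inversion, `Real.fourierInv_eq'`) is the formula. -/
def S_HAT : Prop :=
  ∀ n : ℕ, ∃ h : E n → ℂ, Continuous h ∧
    (∀ K : ℕ, ∃ C : ℝ, 0 < C ∧ ∀ u, ‖h u‖ ≤ C * (1 + ‖u‖) ^ (-(K : ℝ))) ∧
    ∀ y : E n, ((chi n y : ℝ) : ℂ) = ∫ u, h u * Complex.exp ((2 * Real.pi * ⟪u, y⟫ : ℝ) * I)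

/-- PD-ORTH: almost orthogonality of the integer frequencies in weighted `L²`.
Proof. Let `P(s) = (1 + ‖s‖²)^(-n)`, integrable on `ℝ^n` (`n ≥ 1`; `integrable_rpow_neg_one_add_norm_sq` or compare with `integrable_one_add_norm`),
`Q = [0,1]^n` and `w(u) = ∫_{t ∈ Q} P(u - t) dt`. Since `‖u - t‖ ≤ ‖u‖ + √n`, `w(u) ≥ c (1 + ‖u‖)^(-2n)`, `c > 0` depending on `n`.
Let `c_j = ∫ e^{-2πi⟨u,v_j⟩} Φ(u) du` and `T(u) = ∑_j c_j e^{2πi⟨u,v_j⟩}`. For every `s`,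
`∫_{t ∈ Q} |T(s+t)|² dt = ∑_j |c_j|²`, since the `v_j` are different integer vectors (`∫_Q e^{2πi⟨t,v⟩} dt = 0` for
`v ∈ ℤ^n ∖ 0`: the integral is a product of one-dimensional ones, `MeasureTheory.integral_fintype_prod_eq_prod` and the
measure preserving `WithLp.ofLp`/`toLp`). Hence by Tonelli `∫ |T|² w = (∫ P) ∑ |c_j|²`. Now
`∑_j |c_j|² = ∑_j conj c_j · c_j = ∫ Φ(u) conj (T(u)) du ≤ (∫ |T|² w)^(1/2) (∫ |Φ|²/w)^(1/2)`, so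
`∑_j |c_j|² ≤ (∫ P) ∫ |Φ|²/w ≤ C ∫ |Φ|² (1+‖u‖)^(2n)`.
(The exact orthogonality can also be organised without `w` by summing over the cubes `l + Q`: `∫_{l+Q} |T|² = ∑ |c_j|²` and the
weight `(1+‖u‖)^(-2n)` is comparable to a constant on each cube; choose the variant you prefer.) -/
def S_ORTH : Prop :=
  ∀ n : ℕ, 1 ≤ n → ∃ C : ℝ, 0 < C ∧ ∀ (J : Type) [Fintype J] (v : J → Fin n → ℤ),
    Function.Injective v → ∀ Φ : E n → ℂ, Continuous Φ →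
    (∀ K : ℕ, ∃ A : ℝ, ∀ u, ‖Φ u‖ ≤ A * (1 + ‖u‖) ^ (-(K : ℝ))) →
    ∑ j, ‖∫ u, Complex.exp (-(2 * Real.pi * ⟪u, (WithLp.toLp 2 (fun i => ((v j i : ℤ) : ℝ)) : E n)⟫ : ℝ)
      * I) * Φ u‖ ^ 2 ≤ C * ∫ u, ‖Φ u‖ ^ 2 * (1 + ‖u‖) ^ (2 * (n : ℝ))

/-- PD-REP: Proof. Insert the representation `c (N p(x) - v) = ∫ h(u) e^{2πi⟨u, N p(x) - v⟩} du` and use Fubini
(`integral_integral_swap`; the integrand is bounded by `B ‖h u‖`, `h` is integrable and `μ` is finite; joint measurability is clear):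
`e^{2πi⟨u,N p - v⟩} e^{-2πi⟨p,ξ⟩} = e^{-2πi⟨u,v⟩} e^{-2πi⟨p, ξ - N u⟩}`. -/
def S_REP : Prop :=
  ∀ (n : ℕ) (Ω : Type) [MeasurableSpace Ω] (μ : Measure Ω) [IsFiniteMeasure μ] (p : Ω → E n)
    (F : Ω → ℂ) (B : ℝ) (h c : E n → ℂ) (N : ℝ) (v ξ : E n),
    Measurable p → Measurable F → (∀ x, ‖F x‖ ≤ B) → Continuous h → Integrable h →
    (∀ y, c y = ∫ u, h u * Complex.exp ((2 * Real.pi * ⟪u, y⟫ : ℝ) * I)) →
    ∫ x, ee (p x) ξ * (F x * c (N • p x - v)) ∂μ =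
      ∫ u, Complex.exp (-(2 * Real.pi * ⟪u, v⟫ : ℝ) * I) *
        (h u * ∫ x, ee (p x) (ξ - N • u) * F x ∂μ)

/-- PD-INT: the average over `B(ξ, N)`. Proof. `a = (n-1)/2`. FIRST, for every `N ≥ R^n`, `R ≥ 1`, and every `ξ`
(*) `∫ ‖G(ξ - N u)‖² (1+‖u‖)^(-(n+1)) du ≤ C B² N^(-(n-1))`: bound `‖G z‖² ≤ B² 1_{‖z‖ < R} + B² ‖z‖^(-(n-1)) 1_{z ≠ 0}`; the first part
contributes at most `B² |{u : ‖ξ - N u‖ < R}| = B² (R/N)^n |B(0,1)| ≤ B² |B(0,1)| N^(-(n-1))` as `R^n ≤ N` (note `(R/N)^n = R^n N^(-n)`); the second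
`B² N^(-(n-1)) ∫ ‖ξ/N - u‖^(-(n-1)) (1+‖u‖)^(-(n+1)) du ≤ B² N^(-(n-1)) (∫_{‖y‖<1} ‖y‖^(-(n-1)) dy + ∫ (1+‖u‖)^(-(n+1)) du)`
(both finite: `integrable_one_add_norm`, and the first one in polar coordinates, or `MeasureTheory` lemmas on `‖x‖^(-r)`, `r < n`, locally integrable).
SECOND. For `‖ξ‖ ≤ 2N` the claim follows from (*), since `(1+‖u‖)^(-2n) ≤ (1+‖u‖)^(-(n+1))` (`n ≥ 1`) and `N^(-(n-1)) ≤ 3^(n-1) (N+‖ξ‖)^(-(n-1))`.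
For `‖ξ‖ > 2N` split at `‖u‖ = ‖ξ‖/(2N)`: for smaller `u`, `‖ξ - N u‖ ≥ ‖ξ‖/2 ≥ N ≥ R`, so `‖G‖² ≤ B² (‖ξ‖/2)^(-(n-1))` and the weight is integrable;
for larger `u`, `(1+‖u‖)^(-2n) ≤ (‖ξ‖/(2N))^(-(n-1)) (1+‖u‖)^(-(n+1))` and (*) gives
`≤ (2N/‖ξ‖)^(n-1) C B² N^(-(n-1)) = C 2^(n-1) B² ‖ξ‖^(-(n-1))`. Finally `‖ξ‖ ≥ (2/3)(N+‖ξ‖)`. -/
def S_INT : Prop :=
  ∀ n : ℕ, 2 ≤ n → ∃ C : ℝ, 0 < C ∧ ∀ (G : E n → ℂ) (B R : ℝ), Continuous G → 0 < B → 1 ≤ R →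
    (∀ z, ‖G z‖ ≤ B) → (∀ z, R ≤ ‖z‖ → ‖G z‖ ≤ B * ‖z‖ ^ (-(((n : ℝ) - 1) / 2))) →
    ∀ N : ℝ, R ^ n ≤ N → ∀ ξ : E n,
      ∫ u, ‖G (ξ - N • u)‖ ^ 2 * (1 + ‖u‖) ^ (-(2 * (n : ℝ))) ≤
        C * B ^ 2 * (N + ‖ξ‖) ^ (-((n : ℝ) - 1))

/-- PD-MGF: the random sum is subgaussian. Proof. The left side is `∏_j ∑_w exp (zet m w * a j)` (`Finset.prod_univ_sum`,
`Fintype.piFinset_univ`, `Real.exp_sum`), so it is enough that for real `s`: `(1/m) ∑_w e^{s ζ_w} ≤ e^{s² m²/2}`. As `∑_w ζ_w = 0`, `(1/m) ∑_w e^{-s ζ_w} ≥ 1` (`1 + x ≤ e^x`), so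
`(1/m) ∑_w e^{s ζ_w} ≤ (1/m²) ∑_{w,w'} e^{s(ζ_w - ζ_w')} = (1/m²) ∑_{w,w'} cosh (s(ζ_w - ζ_w'))` (symmetry in `w, w'`)
`≤ e^{s² m²/2}` by `Real.cosh_le_exp_half_sq` and `|ζ_w - ζ_w'| ≤ m`. -/
def S_MGF : Prop :=
  ∀ (J : Type) [Fintype J] [DecidableEq J] (m : ℕ), 1 ≤ m → ∀ a : J → ℝ,
    ∑ z : J → Fin m, Real.exp (∑ j, zet m (z j) * a j) ≤
      (Fintype.card (J → Fin m) : ℝ) * Real.exp ((m : ℝ) ^ 2 / 2 * ∑ j, a j ^ 2)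

/-- the parameter of the exponential moment at the point `ξ` -/
noncomputable def lam {n : ℕ} (al D N : ℝ) (ξ : E n) : ℝ :=
  √(Real.log (2 + N + ‖ξ‖)) * (N + ‖ξ‖) ^ al / D

/-- PD-PT: from the integral of the exponential moment to a pointwise bound. (`W z` is the real or imaginary part of a Fourier transform.)
Proof. Fix `ξ₀`, `t = |W ξ₀|`; let `M = 2 + N + ‖ξ₀‖ ≥ 3`. If `t ≤ D (N+‖ξ₀‖)^(-al)` we are done, since `log M ≥ 1`. Otherwise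
on the ball `B` of radius `r = t/(2D) ≤ 1/2` around `ξ₀` one has `|W| ≥ t/2` (Lipschitz), and `(N+‖ξ‖) ≥ (N+‖ξ₀‖)/2` (as `N ≥ 1`, `r ≤ 1/2`), `2+N+‖ξ‖ ≥ M/2`, `≤ 2M`,
`log (2+N+‖ξ‖) ≥ log (M - 1/2) ≥ (1/4) log M`, so `lam(ξ) |W ξ| ≥ c₁ λ₀ t` with `λ₀ = lam(ξ₀)`, `c₁ = 2^(-al-2)`. By hypothesis
`exp (c₁ λ₀ t)/2 · (2M)^(-(n+2)) · vol(B) ≤ K`, `vol(B) = v_n r^n`, `r = t/(2D) ≥ (N+‖ξ₀‖)^(-al)/2 ≥ M^(-al)/2`. Taking logarithms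
`c₁ λ₀ t ≤ log (2 K 2^(n+2) 2^n / v_n) + (n + 2 + n al) log M ≤ C log M` (`log M ≥ 1`), and `λ₀ = √(log M) (N+‖ξ₀‖)^al / D`, so
`t ≤ (C/c₁) D √(log M) (N+‖ξ₀‖)^(-al)`. -/
def S_PT : Prop :=
  ∀ (n : ℕ) (al K : ℝ), 1 ≤ n → 0 ≤ al → 0 < K → ∃ C : ℝ, 0 < C ∧ ∀ (W : E n → ℝ) (D N : ℝ),
    0 < D → 1 ≤ N → (∀ ξ, |W ξ| ≤ D) → (∀ ξ ξ', |W ξ - W ξ'| ≤ D * ‖ξ - ξ'‖) →
    Integrable (fun ξ => Real.cosh (lam al D N ξ * W ξ) * (2 + N + ‖ξ‖) ^ (-((n : ℝ) + 2))) →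
    ∫ ξ, Real.cosh (lam al D N ξ * W ξ) * (2 + N + ‖ξ‖) ^ (-((n : ℝ) + 2)) ≤ K →
    ∀ ξ, |W ξ| ≤ C * D * √(Real.log (2 + N + ‖ξ‖)) * (N + ‖ξ‖) ^ (-al)

/-- PD-RAND: choice of the signs. Proof (uses `S_MGF`, `S_PT`). `D = m V`, `S_z(ξ) = ∑_j zet m (z j) a_j(ξ)`, `Ω = (J → Fin m)`. For real numbers `b_j` with
`∑ b_j² ≤ V² (N+‖ξ‖)^(-2al)`: by `S_MGF` for `±lam b_j`, the mean over `z` of `cosh (lam(ξ) ∑_j zet(z j) b_j)` is at most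
`exp (m²/2 · lam(ξ)² ∑ b_j²) ≤ exp (log(2+N+‖ξ‖)/2) = (2+N+‖ξ‖)^(1/2)`; apply it to `b_j = Re a_j(ξ)` and `Im a_j(ξ)`. So with
`Y(z) = ∫ (cosh (lam Re S_z) + cosh (lam Im S_z)) (2+N+‖ξ‖)^(-(n+2)) dξ` the mean of `Y` is at most
`K₀ := 2 ∫ (2+‖ξ‖)^(-(n+1)) dξ < ∞` (for each `z` the integrand is integrable: it is continuous, nonnegative, and the sum over `z` is dominated by the integrable
`card Ω · 2 (2+N+‖ξ‖)^(-(n+1))`). The mean of `X(z) = ∑_{j, z j = 0} s_j` is `S/m`, `S = ∑ s_j`. So some `z` has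
`X(z) m/(2 S') + Y(z)/(2 K₀) ≤ 1` with `S' = max S tiny` (if `S = 0` then `X = 0` for all `z`), i.e. `X(z) ≤ 2S/m`, `Y(z) ≤ 2K₀`. Apply `S_PT`
with `K = 2 K₀` to the real and to the imaginary part of `S_z`. -/
def S_RAND : Prop :=
  ∀ (n : ℕ) (al : ℝ), 1 ≤ n → 0 ≤ al → ∃ C : ℝ, 0 < C ∧
    ∀ (J : Type) [Fintype J] [DecidableEq J] (m : ℕ), 1 ≤ m → ∀ (N V : ℝ), 1 ≤ N → 0 < V →
    ∀ (a : J → E n → ℂ) (s : J → ℝ), (∀ j, 0 ≤ s j) → (∀ j, Continuous (a j)) →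
    (∀ ξ, ∑ j, ‖a j ξ‖ ^ 2 ≤ V ^ 2 * (N + ‖ξ‖) ^ (-(2 * al))) →
    (∀ (z : J → Fin m) ξ, ‖∑ j, ((zet m (z j) : ℝ) : ℂ) * a j ξ‖ ≤ m * V) →
    (∀ (z : J → Fin m) ξ ξ', ‖∑ j, ((zet m (z j) : ℝ) : ℂ) * a j ξ -
      ∑ j, ((zet m (z j) : ℝ) : ℂ) * a j ξ'‖ ≤ m * V * ‖ξ - ξ'‖) →
    ∃ z : J → Fin m, (∑ j, if ((z j : Fin m) : ℕ) = 0 then s j else 0) ≤ 2 * (∑ j, s j) / m ∧
      ∀ ξ, ‖∑ j, ((zet m (z j) : ℝ) : ℂ) * a j ξ‖ ≤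
        C * (m * V) * √(Real.log (2 + N + ‖ξ‖)) * (N + ‖ξ‖) ^ (-al)

end Pool.Agent.H197.PD
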