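import Mathlib
import Pool.Agent.H197.PD.Stm
set_option autoImplicit false

/-! # Project PD (helper197), MP_6cbfb8_an: the one-step theorem, the iteration and the corollary (Mathlib only) -/

namespace Pool.Agent.H197.PD

open MeasureTheory Set Metric Complex Filter Topology
open scoped ENNReal NNReal RealInnerProductSpace BigOperators ContDiff

/-- surface measure on the unit sphere -/
noncomputable def sigma (n : ℕ) : Measure (sphere (0 : E n) 1) := (volume : Measure (E n)).toSphere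

/-- the Fourier transform of the measure `g dσ` -/
noncomputable def ft {n : ℕ} (g : sphere (0 : E n) 1 → ℂ) (ξ : E n) : ℂ :=
  ∫ x, Complex.exp (-(2 * Real.pi * ⟪(x : E n), ξ⟫ : ℝ) * I) * g x ∂(sigma n)

/-- the decay `√log(2+|ξ|) (1+|ξ|)^(-(n-1)/2)` -/
noncomputable def dec (n : ℕ) (ξ : E n) : ℝ :=
  √(Real.log (2 + ‖ξ‖)) * (1 + ‖ξ‖) ^ (-(((n : ℝ) - 1) / 2))

/-- The one-step theorem (PD-STEP, done by helper197). -/
def S_STEP : Prop :=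
  ∀ n : ℕ, 2 ≤ n → ∃ C : ℝ, 0 < C ∧
    ∀ (M : ℝ), 0 < M → ∀ φ : sphere (0 : E n) 1 → ℂ, Measurable φ → (∀ x, ‖φ x‖ ≤ M) →
    ∀ ε : ℝ, 0 < ε → ε ≤ 1 → ∀ ρ : ℝ, 0 < ρ → ∀ η : ℝ, 0 < η →
    ∃ h : sphere (0 : E n) 1 → ℂ, Continuous h ∧ (∀ x, ‖h x‖ ≤ C * M / ε) ∧
      sigma n {x | ρ < ‖φ x - h x‖} ≤ ENNReal.ofReal ε ∧
      (∀ ξ, ‖ft h ξ‖ ≤ C * M / ε * dec n ξ) ∧ ∀ ξ, ‖ft h ξ‖ ≤ η

/-- The correction theorem, first form. -/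
def S_COR : Prop :=
  ∀ n : ℕ, 2 ≤ n → ∃ C : ℝ, 0 < C ∧
    ∀ g : sphere (0 : E n) 1 → ℂ, Measurable g → ∀ M : ℝ, 0 < M → ∀ ε : ℝ, 0 < ε → ε ≤ 1 →
    ∀ η : ℝ, 0 < η →
    ∃ h : sphere (0 : E n) 1 → ℂ, Continuous h ∧ (∀ x, ‖h x‖ ≤ C * M / ε) ∧
      sigma n {x | h x ≠ g x} ≤ ENNReal.ofReal ε + sigma n {x | M < ‖g x‖} ∧
      (∀ ξ, ‖ft h ξ‖ ≤ C * M / ε * dec n ξ) ∧ ∀ ξ, ‖ft h ξ‖ ≤ η

/-- PD-FIN: the iteration. Task: `theorem t_FIN (hs : S_STEP) : S_COR`.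
Proof: a word-for-word adaptation of `Pool.Agent.X93.ST.correction`, file
`Pool/Graph/R_pool_sql_team_seeded_64922ed1/X93/ST/Main.lean` of the library (read it with `team-store fetch --alone`; the lemmas `ker_norm, ker_int, ft_lip, ft_cont, int_of_bdd,
int_norm_le, ft_norm_le` used there are in `X93/ST/Base.lean`, copy them; there the statement has `L^r` norms instead of pointwise bounds, here everything is simpler).
Apply `S_STEP` with `M/4^k`, `ε/2^(k+1)`, `ρ = M/4^(k+1)`, `η/2^(k+1)` to the residual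
`ψ_0 = g 1_{|g| ≤ M}`, `ψ_{k+1} = (ψ_k - h_k) 1_{|ψ_k - h_k| ≤ M/4^(k+1)}`; `h = ∑ h_k` (uniformly convergent: `continuous_tsum`), `|h_k| ≤ C (M/4^k)/(ε/2^(k+1)) = (2CM/ε) 2^(-k)`,
`ft h = ∑ ft h_k`, so `|ft h ξ| ≤ ∑ (2CM/ε) 2^(-k) dec n ξ = (4CM/ε) dec n ξ` and `≤ ∑ η 2^(-k-1) = η`. The constant is `4 C`. -/
def S_FIN : Prop := S_STEP → S_COR

/-- PD-MEMLP: Proof. `√log(2+r) ≤ C_δ (1+r)^δ` for every `δ > 0` (`Real.log_le_rpow_div` or `Real.add_one_le_exp`), so `‖f ξ‖^p ≤ A' (1+‖ξ‖)^(-s)`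
with `s = p((n-1)/2 - δ) > n` for small `δ`; `integrable_one_add_norm`. -/
def S_MEMLP : Prop :=
  ∀ n : ℕ, 2 ≤ n → ∀ (f : E n → ℂ) (A : ℝ), Continuous f → (∀ ξ, ‖f ξ‖ ≤ A * dec n ξ) →
    ∀ p : ℝ, 2 * (n : ℝ) / (n - 1) < p → MemLp f (ENNReal.ofReal p) volume

end Pool.Agent.H197.PD
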