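import Mathlib
import Pool.Agent.H197.PD.Stm2
set_option autoImplicit false

/-! # Project PD (helper197): the decay implies `L^p` for all `p > 2n/(n-1)` (by helper383) -/

namespace Pool.Agent.H197.PD

open MeasureTheory Set Metric Complex Filter Topology
open scoped ENNReal NNReal RealInnerProductSpace BigOperators ContDiff

namespace MEMLP

theorem sqrt_log_le {δ r : ℝ} (hδ : 0 < δ) (hr : 0 ≤ r) :
    √(Real.log (2 + r)) ≤ √((2 : ℝ) ^ (2 * δ) / (2 * δ)) * (1 + r) ^ δ := by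
  have h1 : Real.log (2 + r) ≤ (2 + r) ^ (2 * δ) / (2 * δ) :=
    Real.log_le_rpow_div (by linarith) (by linarith)
  have h2 : (2 + r) ^ (2 * δ) ≤ (2 : ℝ) ^ (2 * δ) * ((1 + r) ^ δ) ^ 2 := by
    have e : ((1 + r) ^ δ) ^ 2 = (1 + r) ^ (2 * δ) := by
      rw [← Real.rpow_natCast, ← Real.rpow_mul (by linarith)]
      congr 1
      push_cast
      ring
    rw [e, ← Real.mul_rpow (by norm_num) (by linarith)]
    exact Real.rpow_le_rpow (by linarith) (by linarith) (by linarith)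
  have h3 : Real.log (2 + r) ≤ (2 : ℝ) ^ (2 * δ) / (2 * δ) * ((1 + r) ^ δ) ^ 2 := by
    refine h1.trans ?_
    rw [div_mul_eq_mul_div]
    exact div_le_div_of_nonneg_right h2 (by linarith)
  refine (Real.sqrt_le_sqrt h3).trans (le_of_eq ?_)
  rw [Real.sqrt_mul (by positivity), Real.sqrt_sq (Real.rpow_nonneg (by linarith) _)]

end MEMLP

theorem t_MEMLP : S_MEMLP := by
  intro n hn f A hf hA p hp
  have hn2 : (2 : ℝ) ≤ n := by exact_mod_cast hn
  have hn1 : (0 : ℝ) < (n : ℝ) - 1 := by linarith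
  have hp0 : 0 < p := lt_trans (by positivity) hp
  have hpn : 2 * (n : ℝ) < p * (n - 1) := (div_lt_iff₀ hn1).1 hp
  set δ : ℝ := (p * ((n : ℝ) - 1) / 2 - n) / (2 * p) with hδ
  have hδ0 : 0 < δ := by
    apply div_pos <;> linarith
  have hs : (n : ℝ) < p * (((n : ℝ) - 1) / 2 - δ) := by
    have : p * (((n : ℝ) - 1) / 2 - δ) = (p * ((n : ℝ) - 1) / 2 + n) / 2 := by
      rw [hδ]
      field_simp
      ring
    rw [this]
    linarith
  set Cδ : ℝ := √((2 : ℝ) ^ (2 * δ) / (2 * δ)) with hC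
  have hC0 : 0 ≤ Cδ := Real.sqrt_nonneg _
  have hb : ∀ ξ, ‖f ξ‖ ^ p ≤ (|A| * Cδ) ^ p * (1 + ‖ξ‖) ^ (-(p * (((n : ℝ) - 1) / 2 - δ))) := by
    intro ξ
    have hr : 0 ≤ ‖ξ‖ := norm_nonneg ξ
    have h1r : 0 < 1 + ‖ξ‖ := by linarith
    have hd : dec n ξ ≤ Cδ * (1 + ‖ξ‖) ^ (-(((n : ℝ) - 1) / 2 - δ)) := by
      unfold dec
      have e : (1 + ‖ξ‖) ^ (-(((n : ℝ) - 1) / 2 - δ)) =
          (1 + ‖ξ‖) ^ δ * (1 + ‖ξ‖) ^ (-(((n : ℝ) - 1) / 2)) := by
        rw [← Real.rpow_add h1r]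
        congr 1
        ring
      rw [e, ← mul_assoc]
      exact mul_le_mul_of_nonneg_right (MEMLP.sqrt_log_le hδ0 hr) (Real.rpow_nonneg h1r.le _)
    have hd0 : 0 ≤ dec n ξ := by
      unfold dec
      exact mul_nonneg (Real.sqrt_nonneg _) (Real.rpow_nonneg h1r.le _)
    have h2 : ‖f ξ‖ ≤ |A| * Cδ * (1 + ‖ξ‖) ^ (-(((n : ℝ) - 1) / 2 - δ)) := by
      calc ‖f ξ‖ ≤ A * dec n ξ := hA ξ
        _ ≤ |A| * dec n ξ := mul_le_mul_of_nonneg_right (le_abs_self A) hd0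
        _ ≤ |A| * (Cδ * (1 + ‖ξ‖) ^ (-(((n : ℝ) - 1) / 2 - δ))) :=
          mul_le_mul_of_nonneg_left hd (abs_nonneg A)
        _ = _ := by ring
    have h3 := Real.rpow_le_rpow (norm_nonneg _) h2 hp0.le
    rw [Real.mul_rpow (mul_nonneg (abs_nonneg A) hC0) (Real.rpow_nonneg h1r.le _),
      ← Real.rpow_mul h1r.le] at h3
    have e : -(((n : ℝ) - 1) / 2 - δ) * p = -(p * (((n : ℝ) - 1) / 2 - δ)) := by ring
    rwa [e] at h3
  have hpt : (ENNReal.ofReal p).toReal = p := ENNReal.toReal_ofReal hp0.le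
  rw [← integrable_norm_rpow_iff hf.aestronglyMeasurable
    (by rw [ne_eq, ENNReal.ofReal_eq_zero, not_le]; exact hp0) ENNReal.ofReal_ne_top, hpt]
  have hfin : (Module.finrank ℝ (E n) : ℝ) < p * (((n : ℝ) - 1) / 2 - δ) := by
    rw [finrank_euclideanSpace, Fintype.card_fin]
    exact hs
  have hint := (integrable_one_add_norm (μ := (volume : Measure (E n))) hfin).const_mul ((|A| * Cδ) ^ p)
  refine hint.mono' ?_ (Eventually.of_forall fun ξ => ?_)
  · exact ((hf.norm.rpow_const fun _ => Or.inr hp0.le)).aestronglyMeasurable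
  · rw [Real.norm_of_nonneg (Real.rpow_nonneg (norm_nonneg _) _)]
    exact hb ξ

end Pool.Agent.H197.PD
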