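import Mathlib
import Pool.Agent.H197.PD.MEMLP
set_option autoImplicit false

/-! # Project PD (helper197): small norms from the pointwise bounds -/

namespace Pool.Agent.H197.PD

open MeasureTheory Set Metric Complex Filter Topology
open scoped ENNReal NNReal RealInnerProductSpace BigOperators ContDiff

namespace NORMS

theorem dec_nonneg {n : ℕ} (ξ : E n) : 0 ≤ dec n ξ := by
  unfold dec
  positivity

theorem dec_cont (n : ℕ) : Continuous (fun ξ : E n => dec n ξ) := by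
  unfold dec
  refine Continuous.mul ?_ ?_
  · exact Real.continuous_sqrt.comp
      (Continuous.log (by fun_prop) (fun ξ => by have := norm_nonneg ξ; linarith))
  · exact Continuous.rpow_const (by fun_prop)
      (fun ξ => Or.inl (by have := norm_nonneg ξ; linarith))

theorem small_norms (hM : S_MEMLP) {n : ℕ} (hn : 2 ≤ n) (A : ℝ) (hA : 0 < A) (p₀ : ℝ)
    (hp : 2 * (n : ℝ) / (n - 1) < p₀) (η : ℝ) (hη : 0 < η) :
    ∃ δ : ℝ, 0 < δ ∧ δ ≤ η ∧ ∀ f : E n → ℂ, (∀ ξ, ‖f ξ‖ ≤ A * dec n ξ) → (∀ ξ, ‖f ξ‖ ≤ δ) →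
      ∀ r : ℝ≥0∞, ENNReal.ofReal p₀ ≤ r → eLpNorm f r volume ≤ ENNReal.ofReal η := by
  obtain ⟨p₁, hp₁⟩ : ∃ p₁ : ℝ, p₁ = (2 * (n : ℝ) / (n - 1) + p₀) / 2 := ⟨_, rfl⟩
  have hn2 : (2 : ℝ) ≤ n := by exact_mod_cast hn
  have h0 : 0 < 2 * (n : ℝ) / (n - 1) := by apply div_pos <;> linarith
  have h1 : 2 * (n : ℝ) / (n - 1) < p₁ := by linarith
  have h2 : p₁ < p₀ := by linarith
  have h3 : 0 < p₁ := by linarith
  have hcont : Continuous (fun ξ : E n => ((A * dec n ξ : ℝ) : ℂ)) :=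
    Complex.continuous_ofReal.comp (continuous_const.mul (dec_cont n))
  have hnn : ∀ ξ : E n, 0 ≤ A * dec n ξ := fun ξ => mul_nonneg hA.le (dec_nonneg ξ)
  have hm := hM n hn (fun ξ => ((A * dec n ξ : ℝ) : ℂ)) A hcont
    (fun ξ => by rw [Complex.norm_real, Real.norm_of_nonneg (hnn ξ)]) p₁ h1
  obtain ⟨D, hD⟩ : ∃ D : ℝ≥0∞, D = ∫⁻ ξ : E n, ENNReal.ofReal (A * dec n ξ) ^ p₁ := ⟨_, rfl⟩
  have hDt : D ≠ ⊤ := by
    have e1 := lintegral_rpow_enorm_lt_top_of_eLpNorm_lt_top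
      (by simpa using h3) ENNReal.ofReal_ne_top hm.2
    rw [ENNReal.toReal_ofReal h3.le] at e1
    rw [hD]
    refine ne_of_lt (lt_of_eq_of_lt (lintegral_congr fun ξ => ?_) e1)
    congr 1
    rw [← ofReal_norm, Complex.norm_real, Real.norm_of_nonneg (hnn ξ)]
  have hd : 0 < p₀ - p₁ := by linarith
  obtain ⟨t, ht0, ht1, ht⟩ : ∃ t : ℝ, 0 < t ∧ t ≤ 1 ∧
      ENNReal.ofReal (t ^ (p₀ - p₁)) * D ≤ ENNReal.ofReal (η ^ p₁) := by
    have hb : 0 < η ^ p₁ / (D.toReal + 1) := by positivity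
    refine ⟨min 1 ((η ^ p₁ / (D.toReal + 1)) ^ (1 / (p₀ - p₁))), lt_min one_pos (by positivity),
      min_le_left _ _, ?_⟩
    have e1 : (min 1 ((η ^ p₁ / (D.toReal + 1)) ^ (1 / (p₀ - p₁)))) ^ (p₀ - p₁) ≤
        η ^ p₁ / (D.toReal + 1) := by
      calc _ ≤ ((η ^ p₁ / (D.toReal + 1)) ^ (1 / (p₀ - p₁))) ^ (p₀ - p₁) :=
            Real.rpow_le_rpow (by positivity) (min_le_right _ _) hd.le
        _ = η ^ p₁ / (D.toReal + 1) := by
            rw [← Real.rpow_mul hb.le, one_div_mul_cancel hd.ne', Real.rpow_one]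
    obtain ⟨d, hd1⟩ : ∃ d : ℝ, d = D.toReal := ⟨_, rfl⟩
    have hDd : D = ENNReal.ofReal d := by rw [hd1, ENNReal.ofReal_toReal hDt]
    have hd0 : 0 ≤ d := hd1 ▸ ENNReal.toReal_nonneg
    rw [← hd1] at e1 ⊢
    rw [hDd, ← ENNReal.ofReal_mul (by positivity)]
    apply ENNReal.ofReal_le_ofReal
    calc _ ≤ η ^ p₁ / (d + 1) * d := mul_le_mul_of_nonneg_right e1 hd0
      _ ≤ η ^ p₁ / (d + 1) * (d + 1) := by gcongr; linarith
      _ = η ^ p₁ := by field_simp

  refine ⟨η * t, by positivity, mul_le_of_le_one_right hη.le ht1, fun f hf hf' r hr => ?_⟩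
  by_cases hrt : r = ⊤
  · subst hrt
    refine eLpNorm_le_of_ae_bound (C := η) (p := ⊤) ?_ |>.trans ?_
    · exact Filter.Eventually.of_forall fun ξ =>
        (hf' ξ).trans (mul_le_of_le_one_right hη.le ht1)
    · simp
  · obtain ⟨p, hp'⟩ : ∃ p : ℝ, p = r.toReal := ⟨_, rfl⟩
    have hpp : p₀ ≤ p := by
      rw [hp']
      have := ENNReal.toReal_mono hrt hr
      rwa [ENNReal.toReal_ofReal (by linarith)] at this
    have hp0 : 0 < p := by linarith
    have hr' : r = ENNReal.ofReal p := by rw [hp', ENNReal.ofReal_toReal hrt]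
    have hr0 : r ≠ 0 := by
      rw [hr']
      simpa using hp0
    rw [eLpNorm_eq_lintegral_rpow_enorm_toReal hr0 hrt, ← hp']
    have key : ∫⁻ ξ, ‖f ξ‖ₑ ^ p ≤ ENNReal.ofReal (η ^ p) := by
      calc ∫⁻ ξ, ‖f ξ‖ₑ ^ p
          ≤ ∫⁻ ξ : E n, ENNReal.ofReal ((η * t) ^ (p - p₁)) *
              ENNReal.ofReal (A * dec n ξ) ^ p₁ := by
            apply lintegral_mono
            intro ξ
            have e1 : ‖f ξ‖ ^ p ≤ (η * t) ^ (p - p₁) * (A * dec n ξ) ^ p₁ := by
              rcases eq_or_lt_of_le (norm_nonneg (f ξ)) with h | h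
              · rw [← h, Real.zero_rpow hp0.ne']
                have := hnn ξ
                positivity
              · calc ‖f ξ‖ ^ p = ‖f ξ‖ ^ (p - p₁) * ‖f ξ‖ ^ p₁ := by
                      rw [← Real.rpow_add h]
                      congr 1
                      ring
                  _ ≤ _ := mul_le_mul (Real.rpow_le_rpow h.le (hf' ξ) (by linarith))
                      (Real.rpow_le_rpow h.le (hf ξ) h3.le) (by positivity) (by positivity)
            show ‖f ξ‖ₑ ^ p ≤ ENNReal.ofReal ((η * t) ^ (p - p₁)) *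
              ENNReal.ofReal (A * dec n ξ) ^ p₁
            rw [← ofReal_norm, ENNReal.ofReal_rpow_of_nonneg (norm_nonneg _) hp0.le,
              ENNReal.ofReal_rpow_of_nonneg (hnn ξ) h3.le, ← ENNReal.ofReal_mul (by positivity)]
            exact ENNReal.ofReal_le_ofReal e1
        _ = ENNReal.ofReal ((η * t) ^ (p - p₁)) * D := by
            rw [lintegral_const_mul' _ _ ENNReal.ofReal_ne_top, hD]
        _ ≤ ENNReal.ofReal (η ^ (p - p₁)) * (ENNReal.ofReal (t ^ (p₀ - p₁)) * D) := by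
            rw [← mul_assoc, ← ENNReal.ofReal_mul (by positivity), Real.mul_rpow hη.le ht0.le]
            gcongr 1
            apply ENNReal.ofReal_le_ofReal
            refine mul_le_mul_of_nonneg_left ?_ (by positivity)
            exact Real.rpow_le_rpow_of_exponent_ge ht0 ht1 (by linarith)
        _ ≤ ENNReal.ofReal (η ^ (p - p₁)) * ENNReal.ofReal (η ^ p₁) := by gcongr
        _ = ENNReal.ofReal (η ^ p) := by
            rw [← ENNReal.ofReal_mul (by positivity), ← Real.rpow_add hη]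
            congr 2
            ring
    calc (∫⁻ ξ, ‖f ξ‖ₑ ^ p) ^ (1 / p) ≤ (ENNReal.ofReal (η ^ p)) ^ (1 / p) :=
          ENNReal.rpow_le_rpow key (by positivity)
      _ = ENNReal.ofReal η := by
          rw [ENNReal.ofReal_rpow_of_nonneg (by positivity) (by positivity),
            ← Real.rpow_mul hη.le, mul_one_div_cancel hp0.ne', Real.rpow_one]

end NORMS

end Pool.Agent.H197.PD
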