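import Mathlib
import Pool.Agent.H197.PD.Stm
set_option autoImplicit false

/-!
PD-KAP: partition of unity by translates of a product bump.
-/

namespace Pool.Agent.H197.PD

open MeasureTheory Set Metric Complex Filter Topology
open scoped ENNReal NNReal RealInnerProductSpace BigOperators ContDiff

namespace KAP

theorem kap_nonneg (t : ℝ) : 0 ≤ kap t := by
  unfold kap
  exact sub_nonneg.2 (Real.smoothTransition.monotone (by linarith))

theorem kap_le_one (t : ℝ) : kap t ≤ 1 := by
  unfold kap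
  have h1 := Real.smoothTransition.le_one t
  have h2 := Real.smoothTransition.nonneg (t - 1)
  linarith

theorem kap_ne {t : ℝ} (h : kap t ≠ 0) : 0 < t ∧ t < 2 := by
  unfold kap at h
  constructor
  · by_contra ht
    push Not at ht
    rw [Real.smoothTransition.zero_of_nonpos ht,
      Real.smoothTransition.zero_of_nonpos (by linarith)] at h
    exact h (sub_zero _)
  · by_contra ht
    push Not at ht
    rw [Real.smoothTransition.one_of_one_le (by linarith),
      Real.smoothTransition.one_of_one_le (by linarith)] at h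
    exact h (sub_self _)

theorem coord (n N : ℕ) (x : E n) (j : Fin n → Fin (2 * N + 4)) (i : Fin n) :
    ((N : ℝ) • x - vec n N j) i = ((N : ℝ) * x i + ((N : ℝ) + 2)) - ((j i : ℕ) : ℝ) := by
  simp only [vec, PiLp.sub_apply, PiLp.smul_apply, smul_eq_mul]
  ring

theorem tele (N : ℕ) {u : ℝ} (h1 : 1 ≤ u) (h2 : u ≤ 2 * N + 4) :
    ∑ s : Fin (2 * N + 4), kap (u - ((s : ℕ) : ℝ)) = 1 := by
  rw [Fin.sum_univ_eq_sum_range (fun s : ℕ => kap (u - (s : ℝ))) (2 * N + 4)]
  have e : ∀ s ∈ Finset.range (2 * N + 4), kap (u - (s : ℝ)) =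
      (fun k : ℕ => Real.smoothTransition (u - (k : ℝ))) s -
        (fun k : ℕ => Real.smoothTransition (u - (k : ℝ))) (s + 1) := by
    intro s _
    simp only [kap]
    congr 2
    push_cast
    ring
  rw [Finset.sum_congr rfl e, Finset.sum_range_sub']
  rw [Real.smoothTransition.one_of_one_le (by simpa using h1),
    Real.smoothTransition.zero_of_nonpos (by push_cast; linarith), sub_zero]

theorem card_le (K : ℕ) (u : ℝ) :
    (Finset.univ.filter fun s : Fin K => u - 2 < ((s : ℕ) : ℝ) ∧ ((s : ℕ) : ℝ) < u).card ≤ 2 := by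
  have h1 : (Finset.univ.filter fun s : Fin K => u - 2 < ((s : ℕ) : ℝ) ∧ ((s : ℕ) : ℝ) < u).card ≤
      (Finset.Icc (⌊u⌋ - 1) (⌈u⌉ - 1)).card := by
    refine Finset.card_le_card_of_injOn (fun s => ((s : ℕ) : ℤ)) ?_ ?_
    · intro s hs
      have hs' := (Finset.mem_filter.1 hs).2
      rw [Finset.coe_Icc, mem_Icc]
      constructor
      · have h : ⌊u⌋ - 2 < ((s : ℕ) : ℤ) := by
          have h2 : ((⌊u⌋ : ℤ) : ℝ) ≤ u := Int.floor_le u
          have h3 : (((⌊u⌋ - 2 : ℤ)) : ℝ) < (((s : ℕ) : ℤ) : ℝ) := by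
            push_cast
            linarith [hs'.1]
          exact_mod_cast h3
        show ⌊u⌋ - 1 ≤ ((s : ℕ) : ℤ)
        omega
      · have h : ((s : ℕ) : ℤ) < ⌈u⌉ := by
          have h2 : u ≤ ((⌈u⌉ : ℤ) : ℝ) := Int.le_ceil u
          have h3 : (((s : ℕ) : ℤ) : ℝ) < ((⌈u⌉ : ℤ) : ℝ) := by
            push_cast
            linarith [hs'.2]
          exact_mod_cast h3
        show ((s : ℕ) : ℤ) ≤ ⌈u⌉ - 1
        omega
    · intro a _ b _ hab
      have hab' : ((a : ℕ) : ℤ) = ((b : ℕ) : ℤ) := hab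
      have : (a : ℕ) = (b : ℕ) := by exact_mod_cast hab'
      exact Fin.ext this
  refine h1.trans ?_
  rw [Int.card_Icc]
  have h2 : ⌈u⌉ ≤ ⌊u⌋ + 1 := Int.ceil_le_floor_add_one u
  omega

end KAP

open KAP

theorem t_KAP : S_KAP := by
  refine ⟨⟨?_, kap_nonneg, kap_le_one, fun t h => kap_ne h⟩, ?_, ?_⟩
  · unfold kap
    exact Real.smoothTransition.contDiff.sub
      (Real.smoothTransition.contDiff.comp (contDiff_id.sub contDiff_const))
  · intro n N x hx
    have e : ∀ j : Fin n → Fin (2 * N + 4), chi n ((N : ℝ) • x - vec n N j) =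
        ∏ i, kap (((N : ℝ) * x i + ((N : ℝ) + 2)) - ((j i : ℕ) : ℝ)) := by
      intro j
      unfold chi
      exact Finset.prod_congr rfl fun i _ => by rw [coord]
    simp_rw [e]
    have h := Finset.prod_univ_sum (fun _ : Fin n => (Finset.univ : Finset (Fin (2 * N + 4))))
      (fun i s => kap (((N : ℝ) * x i + ((N : ℝ) + 2)) - ((s : ℕ) : ℝ)))
    rw [Fintype.piFinset_univ] at h
    rw [← h]
    refine Finset.prod_eq_one fun i _ => ?_
    have hxi : |x i| ≤ 1 := by
      have := PiLp.norm_apply_le x i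
      rw [Real.norm_eq_abs] at this
      exact this.trans hx
    obtain ⟨h1, h2⟩ := abs_le.1 hxi
    have hN : (0 : ℝ) ≤ N := Nat.cast_nonneg N
    exact tele N (by nlinarith) (by nlinarith)
  · intro n N x
    classical
    set A : Fin n → Finset (Fin (2 * N + 4)) := fun i => Finset.univ.filter fun s =>
      ((N : ℝ) * x i + ((N : ℝ) + 2)) - 2 < ((s : ℕ) : ℝ) ∧
        ((s : ℕ) : ℝ) < (N : ℝ) * x i + ((N : ℝ) + 2) with hA
    have hsub : {j : Fin n → Fin (2 * N + 4) | chi n ((N : ℝ) • x - vec n N j) ≠ 0} ⊆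
        (Fintype.piFinset A : Finset (Fin n → Fin (2 * N + 4))) := by
      intro j hj
      rw [Finset.mem_coe, Fintype.mem_piFinset]
      intro i
      have h1 : kap (((N : ℝ) • x - vec n N j) i) ≠ 0 := by
        intro h0
        apply hj
        unfold chi
        exact Finset.prod_eq_zero (Finset.mem_univ i) h0
      rw [coord] at h1
      have h2 := kap_ne h1
      rw [hA, Finset.mem_filter]
      exact ⟨Finset.mem_univ _, by linarith [h2.2], by linarith [h2.1]⟩
    calc {j : Fin n → Fin (2 * N + 4) | chi n ((N : ℝ) • x - vec n N j) ≠ 0}.ncard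
        ≤ ((Fintype.piFinset A : Finset (Fin n → Fin (2 * N + 4))) :
            Set (Fin n → Fin (2 * N + 4))).ncard := Set.ncard_le_ncard hsub (Finset.finite_toSet _)
      _ = ∏ i, (A i).card := by rw [Set.ncard_coe_finset, Fintype.card_piFinset]
      _ ≤ ∏ _i : Fin n, 2 := Finset.prod_le_prod' fun i _ => card_le _ _
      _ = 2 ^ n := by simp

end Pool.Agent.H197.PD
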