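import Mathlib
import Pool.Agent.H197.PD.Stm
set_option autoImplicit false

/-!
# PD-MGF (helper400, for helper197): the random sum is subgaussian
-/

namespace Pool.Agent.H197.PD

open MeasureTheory Set Metric Complex Filter Topology
open scoped ENNReal NNReal RealInnerProductSpace BigOperators ContDiff

namespace MGF

theorem sum_zet (m : ℕ) (hm : 1 ≤ m) : ∑ w : Fin m, zet m w = 0 := by
  obtain ⟨k, rfl⟩ := Nat.exists_eq_add_of_le hm
  rw [Nat.add_comm 1 k] at *
  rw [Fin.sum_univ_succ]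
  unfold zet
  simp

theorem zet_sub_le (m : ℕ) (w w' : Fin m) : |zet m w - zet m w'| ≤ (m : ℝ) := by
  have h0 : (0 : ℝ) ≤ m := Nat.cast_nonneg m
  unfold zet
  split_ifs
  · rw [sub_self, abs_zero]
    exact h0
  · have : (1 : ℝ) - m - 1 = -m := by ring
    rw [this, abs_neg, abs_of_nonneg h0]
  · have : (1 : ℝ) - (1 - m) = m := by ring
    rw [this, abs_of_nonneg h0]
  · rw [sub_self, abs_zero]
    exact h0

theorem one_dim (m : ℕ) (hm : 1 ≤ m) (s : ℝ) :
    ∑ w : Fin m, Real.exp (zet m w * s) ≤ (m : ℝ) * Real.exp ((m : ℝ) ^ 2 / 2 * s ^ 2) := by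
  have hm0 : (0 : ℝ) < m := by exact_mod_cast hm
  obtain ⟨A, hA⟩ : ∃ A, A = ∑ w : Fin m, Real.exp (zet m w * s) := ⟨_, rfl⟩
  obtain ⟨B, hB⟩ : ∃ B, B = ∑ w : Fin m, Real.exp (-(zet m w * s)) := ⟨_, rfl⟩
  have hA0 : 0 ≤ A := by
    rw [hA]
    exact Finset.sum_nonneg fun w _ => (Real.exp_pos _).le
  have hBm : (m : ℝ) ≤ B := by
    rw [hB]
    calc (m : ℝ) = ∑ w : Fin m, (1 - zet m w * s) := by
          rw [Finset.sum_sub_distrib, ← Finset.sum_mul, sum_zet m hm, zero_mul, sub_zero,
            Finset.sum_const, Finset.card_univ, Fintype.card_fin, nsmul_eq_mul, mul_one]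
      _ ≤ _ := by
          refine Finset.sum_le_sum fun w _ => ?_
          have := Real.add_one_le_exp (-(zet m w * s))
          linarith
  have hAB : A * B = ∑ w : Fin m, ∑ w' : Fin m, Real.exp ((zet m w - zet m w') * s) := by
    rw [hA, hB, Finset.sum_mul_sum]
    refine Finset.sum_congr rfl fun w _ => Finset.sum_congr rfl fun w' _ => ?_
    rw [← Real.exp_add]
    congr 1
    ring
  have hAB' : A * B = ∑ w : Fin m, ∑ w' : Fin m, Real.exp (-((zet m w - zet m w') * s)) := by
    rw [hAB, Finset.sum_comm]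
    refine Finset.sum_congr rfl fun w _ => Finset.sum_congr rfl fun w' _ => ?_
    congr 1
    ring
  have hcosh : A * B = ∑ w : Fin m, ∑ w' : Fin m, Real.cosh ((zet m w - zet m w') * s) := by
    have h2 : A * B + A * B = 2 * ∑ w : Fin m, ∑ w' : Fin m,
        Real.cosh ((zet m w - zet m w') * s) := by
      nth_rewrite 1 [hAB]
      nth_rewrite 1 [hAB']
      rw [← Finset.sum_add_distrib, Finset.mul_sum]
      refine Finset.sum_congr rfl fun w _ => ?_
      rw [← Finset.sum_add_distrib, Finset.mul_sum]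
      refine Finset.sum_congr rfl fun w' _ => ?_
      rw [Real.cosh_eq]
      ring
    linarith
  have hle : A * B ≤ (m : ℝ) * (m * Real.exp ((m : ℝ) ^ 2 / 2 * s ^ 2)) := by
    rw [hcosh]
    calc ∑ w : Fin m, ∑ w' : Fin m, Real.cosh ((zet m w - zet m w') * s) ≤
        ∑ _w : Fin m, ∑ _w' : Fin m, Real.exp ((m : ℝ) ^ 2 / 2 * s ^ 2) := by
          refine Finset.sum_le_sum fun w _ => Finset.sum_le_sum fun w' _ => ?_
          refine (Real.cosh_le_exp_half_sq _).trans (Real.exp_le_exp.2 ?_)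
          have h1 : (zet m w - zet m w') ^ 2 ≤ (m : ℝ) ^ 2 := by
            rw [← sq_abs]
            exact pow_le_pow_left₀ (abs_nonneg _) (zet_sub_le m w w') 2
          have h2 := mul_le_mul_of_nonneg_right h1 (sq_nonneg s)
          rw [mul_pow]
          linarith
      _ = _ := by
          rw [Finset.sum_const, Finset.sum_const, Finset.card_univ, Fintype.card_fin,
            nsmul_eq_mul, nsmul_eq_mul]
  have hfin : (m : ℝ) * A ≤ (m : ℝ) * (m * Real.exp ((m : ℝ) ^ 2 / 2 * s ^ 2)) := by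
    refine le_trans ?_ hle
    rw [mul_comm]
    exact mul_le_mul_of_nonneg_left hBm hA0
  rw [← hA]
  exact le_of_mul_le_mul_left hfin hm0

end MGF

theorem t_MGF : S_MGF := by
  intro J _ _ m hm a
  have e1 : ∑ z : J → Fin m, Real.exp (∑ j, zet m (z j) * a j) =
      ∏ j, ∑ w : Fin m, Real.exp (zet m w * a j) := by
    rw [Finset.prod_univ_sum, Fintype.piFinset_univ]
    exact Finset.sum_congr rfl fun z _ => Real.exp_sum _ _
  rw [e1]
  calc ∏ j, ∑ w : Fin m, Real.exp (zet m w * a j) ≤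
      ∏ j : J, ((m : ℝ) * Real.exp ((m : ℝ) ^ 2 / 2 * a j ^ 2)) :=
        Finset.prod_le_prod (fun j _ => Finset.sum_nonneg fun w _ => (Real.exp_pos _).le)
          fun j _ => MGF.one_dim m hm (a j)
    _ = _ := by
        rw [Finset.prod_mul_distrib, ← Real.exp_sum, ← Finset.mul_sum, Finset.prod_const,
          Finset.card_univ, Fintype.card_fun, Fintype.card_fin]
        push_cast
        rfl

end Pool.Agent.H197.PD
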