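import Mathlib
import Pool.Agent.H197.PD.Stm

/-! PD-PT: pointwise bound from the integral of the exponential moment. -/

set_option autoImplicit false

namespace Pool.Agent.H197.PD

open MeasureTheory Set Metric Complex Filter Topology
open scoped ENNReal NNReal RealInnerProductSpace BigOperators ContDiff

namespace PT

/-- the logarithm -/
theorem log_ge_one {M : ℝ} (hM : 3 ≤ M) : 1 ≤ Real.log M := by
  rw [Real.le_log_iff_exp_le (by linarith)]
  have := Real.exp_one_lt_d9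
  linarith

theorem log_quarter {M M' : ℝ} (hM : 3 ≤ M) (h : M - 1 / 2 ≤ M') : 1 / 4 * Real.log M ≤ Real.log M' := by
  have h1 := log_ge_one hM
  have h2 : Real.log M ≤ Real.log (M' ^ 2) := by
    refine Real.log_le_log (by linarith) ?_
    nlinarith
  rw [Real.log_pow] at h2
  push_cast at h2
  linarith

theorem sqrt_half {M M' : ℝ} (hM : 3 ≤ M) (h : M - 1 / 2 ≤ M') :
    1 / 2 * √(Real.log M) ≤ √(Real.log M') := by
  have h1 := Real.sqrt_le_sqrt (log_quarter hM h)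
  have h2 : √(1 / 4 * Real.log M) = 1 / 2 * √(Real.log M) := by
    rw [Real.sqrt_mul (by norm_num)]
    congr 1
    rw [show (1 / 4 : ℝ) = (1 / 2) ^ 2 by norm_num]
    exact Real.sqrt_sq (by norm_num)
  rw [h2] at h1
  exact h1

/-- the lower bound on the ball -/
theorem low {n : ℕ} {al D N : ℝ} (hal : 0 ≤ al) (hD : 0 < D) (hN : 1 ≤ N) (W : E n → ℝ)
    (hL : ∀ ξ ξ', |W ξ - W ξ'| ≤ D * ‖ξ - ξ'‖) (ξ ξ' : E n) (hr : |W ξ| / (2 * D) ≤ 1 / 2)
    (hξ : ξ' ∈ ball ξ (|W ξ| / (2 * D))) :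
    Real.exp (1 / 4 * 2 ^ (-al) * (lam al D N ξ * |W ξ|)) / 2 * (2 * (2 + N + ‖ξ‖)) ^ (-((n : ℝ) + 2)) ≤
      Real.cosh (lam al D N ξ' * W ξ') * (2 + N + ‖ξ'‖) ^ (-((n : ℝ) + 2)) := by
  have hd : ‖ξ' - ξ‖ < |W ξ| / (2 * D) := by rwa [mem_ball, dist_eq_norm] at hξ
  have hn0 := norm_nonneg ξ
  have hn0' := norm_nonneg ξ'
  have h1 : ‖ξ‖ - 1 / 2 ≤ ‖ξ'‖ := by
    have := norm_sub_norm_le ξ ξ'
    rw [norm_sub_rev] at this
    linarith
  have h2 : ‖ξ'‖ ≤ ‖ξ‖ + 1 / 2 := by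
    have := norm_sub_norm_le ξ' ξ
    linarith
  have h3 : |W ξ| / 2 ≤ |W ξ'| := by
    have h4 := hL ξ ξ'
    have h5 : D * ‖ξ - ξ'‖ ≤ |W ξ| / 2 := by
      rw [norm_sub_rev]
      have h6 := mul_le_mul_of_nonneg_left hd.le hD.le
      have h7 : D * (|W ξ| / (2 * D)) = |W ξ| / 2 := by field_simp
      linarith
    have h8 := abs_sub_abs_le_abs_sub (W ξ) (W ξ')
    linarith
  have h4 : 1 / 2 * 2 ^ (-al) * lam al D N ξ ≤ lam al D N ξ' := by
    have h5 := sqrt_half (M := 2 + N + ‖ξ‖) (M' := 2 + N + ‖ξ'‖) (by linarith) (by linarith)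
    have h6 : (2 : ℝ) ^ (-al) * (N + ‖ξ‖) ^ al ≤ (N + ‖ξ'‖) ^ al := by
      have h7 : (2 : ℝ) ^ (-al) * (N + ‖ξ‖) ^ al = ((N + ‖ξ‖) / 2) ^ al := by
        rw [Real.div_rpow (by linarith) (by norm_num), Real.rpow_neg (by norm_num), mul_comm,
          div_eq_mul_inv]
      rw [h7]
      exact Real.rpow_le_rpow (by linarith) (by linarith) hal
    have h8 : (1 / 2 * √(Real.log (2 + N + ‖ξ‖))) * ((2 : ℝ) ^ (-al) * (N + ‖ξ‖) ^ al) ≤
        √(Real.log (2 + N + ‖ξ'‖)) * (N + ‖ξ'‖) ^ al :=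
      mul_le_mul h5 h6 (by positivity) (Real.sqrt_nonneg _)
    unfold lam
    have h9 := div_le_div_of_nonneg_right h8 hD.le
    refine le_trans (le_of_eq ?_) h9
    ring
  have hlam : 0 ≤ lam al D N ξ := by
    unfold lam
    positivity
  have hlam' : 0 ≤ lam al D N ξ' := by
    unfold lam
    positivity
  have h5 : 1 / 4 * 2 ^ (-al) * (lam al D N ξ * |W ξ|) ≤ |lam al D N ξ' * W ξ'| := by
    rw [abs_mul, abs_of_nonneg hlam']
    have h6 := mul_le_mul h4 h3 (by positivity) hlam'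
    refine le_trans (le_of_eq ?_) h6
    ring
  have h6 : Real.exp (1 / 4 * 2 ^ (-al) * (lam al D N ξ * |W ξ|)) / 2 ≤ Real.cosh (lam al D N ξ' * W ξ') := by
    rw [← Real.cosh_abs, Real.cosh_eq]
    have h7 := Real.exp_le_exp.2 h5
    have h8 := (Real.exp_pos (-|lam al D N ξ' * W ξ'|)).le
    linarith
  have h7 : (2 * (2 + N + ‖ξ‖)) ^ (-((n : ℝ) + 2)) ≤ (2 + N + ‖ξ'‖) ^ (-((n : ℝ) + 2)) := by
    refine Real.rpow_le_rpow_of_nonpos (by linarith) (by linarith) ?_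
    have : (0 : ℝ) ≤ n := Nat.cast_nonneg n
    linarith
  exact mul_le_mul h6 h7 (by positivity) (by positivity)

/-- the volume of the unit ball -/
noncomputable def vn (n : ℕ) : ℝ := (volume : Measure (E n)).real (ball 0 1)

theorem vn_pos (n : ℕ) : 0 < vn n := by
  unfold vn
  rw [measureReal_def]
  exact ENNReal.toReal_pos (measure_ball_pos _ _ one_pos).ne' measure_ball_lt_top.ne

/-- the consequence of the bound for the integral -/
theorem main_ineq {n : ℕ} (hn : 1 ≤ n) {al K D N : ℝ} (hal : 0 ≤ al) (hD : 0 < D) (hN : 1 ≤ N) (W : E n → ℝ)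
    (hB : ∀ ξ, |W ξ| ≤ D) (hL : ∀ ξ ξ', |W ξ - W ξ'| ≤ D * ‖ξ - ξ'‖)
    (hI : Integrable (fun ξ => Real.cosh (lam al D N ξ * W ξ) * (2 + N + ‖ξ‖) ^ (-((n : ℝ) + 2))))
    (hK : ∫ ξ, Real.cosh (lam al D N ξ * W ξ) * (2 + N + ‖ξ‖) ^ (-((n : ℝ) + 2)) ≤ K) (ξ : E n) :
    Real.exp (1 / 4 * 2 ^ (-al) * (lam al D N ξ * |W ξ|)) / 2 * (2 * (2 + N + ‖ξ‖)) ^ (-((n : ℝ) + 2)) *
      ((|W ξ| / (2 * D)) ^ n * vn n) ≤ K := by
  have hr0 : 0 ≤ |W ξ| / (2 * D) := by positivity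
  have hr : |W ξ| / (2 * D) ≤ 1 / 2 := by
    rw [div_le_div_iff₀ (by positivity) (by norm_num)]
    linarith [hB ξ]
  have : Nonempty (Fin n) := ⟨⟨0, hn⟩⟩
  have h1 : (volume : Measure (E n)).real (ball ξ (|W ξ| / (2 * D))) = (|W ξ| / (2 * D)) ^ n * vn n := by
    unfold vn
    rw [measureReal_def, measureReal_def, Measure.addHaar_ball _ _ hr0, ENNReal.toReal_mul,
      ENNReal.toReal_ofReal (by positivity), finrank_euclideanSpace_fin]
  rw [← h1]
  have hnn : ∀ ξ' : E n, 0 ≤ Real.cosh (lam al D N ξ' * W ξ') * (2 + N + ‖ξ'‖) ^ (-((n : ℝ) + 2)) := by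
    intro ξ'
    have h3 : 0 ≤ 2 + N + ‖ξ'‖ := by
      have := norm_nonneg ξ'
      linarith
    exact mul_nonneg (Real.cosh_pos _).le (Real.rpow_nonneg h3 _)
  have h2 : Real.exp (1 / 4 * 2 ^ (-al) * (lam al D N ξ * |W ξ|)) / 2 * (2 * (2 + N + ‖ξ‖)) ^ (-((n : ℝ) + 2)) *
      (volume : Measure (E n)).real (ball ξ (|W ξ| / (2 * D))) ≤
      ∫ ξ' in ball ξ (|W ξ| / (2 * D)), Real.cosh (lam al D N ξ' * W ξ') * (2 + N + ‖ξ'‖) ^ (-((n : ℝ) + 2)) :=
    setIntegral_ge_of_const_le_real measurableSet_ball measure_ball_lt_top.ne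
      (fun ξ' hξ' => low hal hD hN W hL ξ ξ' hr hξ') hI.integrableOn
  exact h2.trans ((setIntegral_le_integral hI (Eventually.of_forall hnn)).trans hK)

/-- taking logarithms -/
theorem take_log {n : ℕ} {al K M x r v : ℝ} (hK : 0 < K) (hM : 3 ≤ M) (hv : 0 < v)
    (hr : M ^ (-al) / 2 ≤ r) (h : Real.exp x / 2 * (2 * M) ^ (-((n : ℝ) + 2)) * (r ^ n * v) ≤ K) :
    x ≤ (|Real.log (2 * K * 2 ^ ((n : ℝ) + 2) * 2 ^ n / v)| + ((n : ℝ) + 2 + n * al)) * Real.log M := by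
  have hM0 : 0 < M := by linarith
  have hlog := log_ge_one hM
  have hr0 : 0 < M ^ (-al) / 2 := by positivity
  have h1 : Real.exp x / 2 * (2 * M) ^ (-((n : ℝ) + 2)) * ((M ^ (-al) / 2) ^ n * v) ≤ K := by
    refine le_trans ?_ h
    gcongr
  have h2 : Real.exp x ≤ (2 * K * 2 ^ ((n : ℝ) + 2) * 2 ^ n / v) * M ^ ((n : ℝ) + 2 + n * al) := by
    have e1 : (2 * M) ^ (-((n : ℝ) + 2)) = (2 ^ ((n : ℝ) + 2) * M ^ ((n : ℝ) + 2))⁻¹ := by
      rw [Real.rpow_neg (by positivity), Real.mul_rpow (by norm_num) hM0.le]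
    have e2 : (M ^ (-al) / 2) ^ n = (M ^ ((n : ℝ) * al) * 2 ^ n)⁻¹ := by
      rw [div_pow, Real.rpow_neg hM0.le, inv_pow, ← Real.rpow_natCast (M ^ al) n, ← Real.rpow_mul hM0.le,
        mul_comm al, mul_inv]
      rfl
    rw [e1, e2] at h1
    rw [Real.rpow_add hM0]
    set A := (2 : ℝ) ^ ((n : ℝ) + 2) with hA
    set B := M ^ ((n : ℝ) + 2) with hB
    set C := M ^ ((n : ℝ) * al) with hC
    have hA0 : 0 < A := by positivity
    have hB0 : 0 < B := by positivity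
    have hC0 : 0 < C := by positivity
    have h3 : Real.exp x / 2 * (A * B)⁻¹ * ((C * 2 ^ n)⁻¹ * v) = Real.exp x * v / (2 * A * B * C * 2 ^ n) := by
      field_simp
    rw [h3, div_le_iff₀ (by positivity)] at h1
    have h4 : 2 * K * A * 2 ^ n / v * (B * C) = K * (2 * A * B * C * 2 ^ n) / v := by
      field_simp
    rw [h4, le_div_iff₀ hv]
    exact h1
  have h3 := Real.log_le_log (Real.exp_pos x) h2
  rw [Real.log_exp, Real.log_mul (by positivity) (by positivity), Real.log_rpow hM0] at h3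
  have h4 := le_abs_self (Real.log (2 * K * 2 ^ ((n : ℝ) + 2) * 2 ^ n / v))
  have h5 := abs_nonneg (Real.log (2 * K * 2 ^ ((n : ℝ) + 2) * 2 ^ n / v))
  nlinarith

end PT

/-- PD-PT -/
theorem t_PT : S_PT := by
  intro n al K hn hal hK
  set C' := |Real.log (2 * K * 2 ^ ((n : ℝ) + 2) * 2 ^ n / PT.vn n)| + ((n : ℝ) + 2 + n * al) with hC'
  have hC'0 : 0 ≤ C' := by positivity
  refine ⟨4 * 2 ^ al * C' + 1, by positivity, ?_⟩
  intro W D N hD hN hB hL hI hKi ξ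
  have hξ := norm_nonneg ξ
  set M := 2 + N + ‖ξ‖ with hM
  set Q := N + ‖ξ‖ with hQ
  have hM3 : 3 ≤ M := by linarith
  have hM0 : 0 < M := by linarith
  have hQ1 : 1 ≤ Q := by linarith
  have hQ0 : 0 < Q := by linarith
  have hQM : Q ≤ M := by linarith
  have hlog := PT.log_ge_one hM3
  have hs : 1 ≤ √(Real.log M) := by
    rw [Real.one_le_sqrt]
    exact hlog
  have hQa : 0 < Q ^ (-al) := by positivity
  by_cases ht : |W ξ| ≤ D * Q ^ (-al)
  · refine ht.trans ?_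
    have h1 : D * Q ^ (-al) * 1 ≤ D * Q ^ (-al) * √(Real.log M) :=
      mul_le_mul_of_nonneg_left hs (by positivity)
    have h2 : 0 ≤ 4 * 2 ^ al * C' * (D * Q ^ (-al) * √(Real.log M)) := by positivity
    nlinarith
  push Not at ht
  have hr : M ^ (-al) / 2 ≤ |W ξ| / (2 * D) := by
    have h1 : M ^ (-al) ≤ Q ^ (-al) := Real.rpow_le_rpow_of_nonpos hQ0 hQM (by linarith)
    rw [div_le_div_iff₀ (by norm_num) (by positivity)]
    nlinarith
  have h1 := PT.main_ineq hn hal hD hN W hB hL hI hKi ξ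
  have h2 := PT.take_log hK hM3 (PT.vn_pos n) hr h1
  rw [← hC'] at h2
  -- solve for `|W ξ|`
  have h3 : lam al D N ξ * |W ξ| = √(Real.log M) * Q ^ al * |W ξ| / D := by
    unfold lam
    ring
  rw [h3] at h2
  have h4 : Real.log M = √(Real.log M) * √(Real.log M) := (Real.mul_self_sqrt (by linarith)).symm
  have h5 : (2 : ℝ) ^ (-al) * 2 ^ al = 1 := by
    rw [← Real.rpow_add (by norm_num), neg_add_cancel, Real.rpow_zero]
  have h6 : Q ^ (-al) * Q ^ al = 1 := by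
    rw [← Real.rpow_add hQ0, neg_add_cancel, Real.rpow_zero]
  set s := √(Real.log M) with hsd
  have hs0 : 0 < s := by linarith
  rw [h4] at h2
  have h7 : |W ξ| ≤ 4 * 2 ^ al * C' * (D * s * Q ^ (-al)) := by
    have h8 := mul_le_mul_of_nonneg_right h2 (by positivity : 0 ≤ 4 * 2 ^ al * D / s * Q ^ (-al))
    have h9 : 1 / 4 * 2 ^ (-al) * (s * Q ^ al * |W ξ| / D) * (4 * 2 ^ al * D / s * Q ^ (-al)) =
        (2 ^ (-al) * 2 ^ al) * (Q ^ (-al) * Q ^ al) * |W ξ| := by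
      field_simp
    have h10 : C' * (s * s) * (4 * 2 ^ al * D / s * Q ^ (-al)) = 4 * 2 ^ al * C' * (D * s * Q ^ (-al)) := by
      field_simp
    rw [h9, h10, h5, h6, one_mul, one_mul] at h8
    exact h8
  have h8 : 0 ≤ D * s * Q ^ (-al) := by positivity
  nlinarith

end Pool.Agent.H197.PD
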