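import Mathlib
import Pool.Agent.H197.PD.Stm2
set_option autoImplicit false

/-! Elementary facts on the extension operator and approximation by trigonometric polynomials
(copied from the library files `X93/ST/Base.lean`, `X93/ST/Dense.lean`). -/

namespace Pool.Agent.H197.PD

open MeasureTheory Set Metric Complex Algebra
open scoped ENNReal NNReal RealInnerProductSpace

instance sig_fin (n : ℕ) : IsFiniteMeasure (sigma n) := by
  unfold sigma; infer_instance

theorem ker_cont {n : ℕ} : Continuous fun y : (sphere (0 : E n) 1) × E n =>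
    Complex.exp (-(2 * Real.pi * ⟪(y.1 : E n), y.2⟫ : ℝ) * I) := by fun_prop

theorem ker_norm {n : ℕ} (x ξ : E n) :
    ‖Complex.exp (-(2 * Real.pi * ⟪x, ξ⟫ : ℝ) * I)‖ = 1 := by
  have h : (-(2 * Real.pi * ⟪x, ξ⟫ : ℝ) * I : ℂ) = ((-(2 * Real.pi * ⟪x, ξ⟫) : ℝ) : ℂ) * I := by
    push_cast; ring
  rw [h, Complex.norm_exp_ofReal_mul_I]

theorem ker_int {n : ℕ} {g : sphere (0 : E n) 1 → ℂ} (hg : Integrable g (sigma n)) (ξ : E n) :
    Integrable (fun x : sphere (0 : E n) 1 =>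
      Complex.exp (-(2 * Real.pi * ⟪(x : E n), ξ⟫ : ℝ) * I) * g x) (sigma n) := by
  refine hg.bdd_mul (c := 1) ?_ ?_
  · have : Continuous fun x : sphere (0 : E n) 1 =>
      Complex.exp (-(2 * Real.pi * ⟪(x : E n), ξ⟫ : ℝ) * I) := by fun_prop
    exact this.aestronglyMeasurable
  · exact Filter.Eventually.of_forall fun x => (ker_norm _ _).le

theorem ft_norm_le {n : ℕ} (g : sphere (0 : E n) 1 → ℂ) (ξ : E n) :
    ‖ft g ξ‖ ≤ ∫ x, ‖g x‖ ∂(sigma n) := by
  unfold ft
  refine (norm_integral_le_integral_norm _).trans (le_of_eq ?_)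
  refine integral_congr_ae (Filter.Eventually.of_forall fun x => ?_)
  simp only [norm_mul]
  rw [ker_norm, one_mul]

theorem ft_cont {n : ℕ} {g : sphere (0 : E n) 1 → ℂ} (hg : Integrable g (sigma n)) :
    Continuous (ft g) := by
  unfold ft
  refine continuous_of_dominated (bound := fun x => ‖g x‖) ?_ ?_ hg.norm ?_
  · exact fun ξ => (ker_int hg ξ).aestronglyMeasurable
  · intro ξ
    refine Filter.Eventually.of_forall fun x => ?_
    rw [norm_mul, ker_norm, one_mul]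
  · refine Filter.Eventually.of_forall fun x => ?_
    fun_prop

theorem ft_add {n : ℕ} {f g : sphere (0 : E n) 1 → ℂ} (hf : Integrable f (sigma n))
    (hg : Integrable g (sigma n)) (ξ : E n) : ft (fun x => f x + g x) ξ = ft f ξ + ft g ξ := by
  unfold ft
  rw [← integral_add (ker_int hf ξ) (ker_int hg ξ)]
  congr 1
  ext x
  ring

theorem ft_sub {n : ℕ} {f g : sphere (0 : E n) 1 → ℂ} (hf : Integrable f (sigma n))
    (hg : Integrable g (sigma n)) (ξ : E n) : ft (fun x => f x - g x) ξ = ft f ξ - ft g ξ := by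
  unfold ft
  rw [← integral_sub (ker_int hf ξ) (ker_int hg ξ)]
  congr 1
  ext x
  ring

theorem ft_smul {n : ℕ} (g : sphere (0 : E n) 1 → ℂ) (c : ℂ) (ξ : E n) :
    ft (fun x => c * g x) ξ = c * ft g ξ := by
  unfold ft
  rw [← integral_const_mul]
  congr 1
  ext x
  ring

theorem ft_sum {n : ℕ} {ι : Type} (s : Finset ι) {f : ι → sphere (0 : E n) 1 → ℂ}
    (hf : ∀ i ∈ s, Integrable (f i) (sigma n)) (ξ : E n) :
    ft (fun x => ∑ i ∈ s, f i x) ξ = ∑ i ∈ s, ft (f i) ξ := by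
  unfold ft
  rw [← integral_finset_sum s fun i hi => ker_int (hf i hi) ξ]
  congr 1
  ext x
  rw [Finset.mul_sum]

theorem ft_lip {n : ℕ} {g : sphere (0 : E n) 1 → ℂ} (hg : Integrable g (sigma n)) (ξ ξ' : E n) :
    ‖ft g ξ - ft g ξ'‖ ≤ 2 * Real.pi * (∫ x, ‖g x‖ ∂(sigma n)) * ‖ξ - ξ'‖ := by
  unfold ft
  rw [← integral_sub (ker_int hg ξ) (ker_int hg ξ'),
    show 2 * Real.pi * (∫ x, ‖g x‖ ∂(sigma n)) * ‖ξ - ξ'‖ =
      ∫ x, (2 * Real.pi * ‖ξ - ξ'‖) * ‖g x‖ ∂(sigma n) by rw [integral_const_mul]; ring]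
  refine norm_integral_le_of_norm_le (hg.norm.const_mul _)
    (Filter.Eventually.of_forall fun x => ?_)
  rw [← sub_mul, norm_mul]
  refine mul_le_mul_of_nonneg_right ?_ (norm_nonneg _)
  have h1 : ∀ s t : ℝ, ‖Complex.exp (-(s : ℝ) * I) - Complex.exp (-(t : ℝ) * I)‖ ≤ |s - t| := by
    intro s t
    have e1 : Complex.exp (-(s : ℝ) * I) - Complex.exp (-(t : ℝ) * I) =
        Complex.exp (-(t : ℝ) * I) * (Complex.exp (I * ((t - s : ℝ) : ℂ)) - 1) := by
      rw [mul_sub, ← Complex.exp_add, mul_one]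
      congr 2
      push_cast; ring
    rw [e1, norm_mul]
    have e2 : ‖Complex.exp (-(t : ℝ) * I)‖ = 1 := by
      rw [show (-(t : ℝ) * I : ℂ) = ((-t : ℝ) : ℂ) * I by push_cast; ring,
        Complex.norm_exp_ofReal_mul_I]
    rw [e2, one_mul]
    have e3 := Real.norm_exp_I_mul_ofReal_sub_one_le (x := t - s)
    rw [Real.norm_eq_abs] at e3
    rw [abs_sub_comm]
    exact e3
  refine (h1 _ _).trans ?_
  rw [← mul_sub, ← inner_sub_right, abs_mul, abs_of_pos (by positivity : 0 < 2 * Real.pi)]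
  have h2 : |⟪(x : E n), ξ - ξ'⟫| ≤ ‖ξ - ξ'‖ := by
    refine (abs_real_inner_le_norm _ _).trans ?_
    have : ‖(x : E n)‖ = 1 := mem_sphere_zero_iff_norm.1 x.2
    rw [this, one_mul]
  exact mul_le_mul_of_nonneg_left h2 (by positivity)

theorem int_of_bdd {n : ℕ} {g : sphere (0 : E n) 1 → ℂ} (hg : Measurable g) {M : ℝ}
    (hM : ∀ x, ‖g x‖ ≤ M) : Integrable g (sigma n) :=
  Integrable.of_bound hg.aestronglyMeasurable M (Filter.Eventually.of_forall hM)

theorem int_norm_le {n : ℕ} {g : sphere (0 : E n) 1 → ℂ} (hg : Measurable g) {M : ℝ}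
    (hM : ∀ x, ‖g x‖ ≤ M) : ∫ x, ‖g x‖ ∂(sigma n) ≤ M * (sigma n).real univ := by
  calc ∫ x, ‖g x‖ ∂(sigma n) ≤ ∫ _x, M ∂(sigma n) :=
        integral_mono (int_of_bdd hg hM).norm (integrable_const _) hM
    _ = _ := by rw [integral_const, smul_eq_mul, mul_comm]



/-- trigonometric polynomial -/
noncomputable def trig {n N : ℕ} (c : Fin N → ℂ) (η : Fin N → E n) (x : E n) : ℂ :=
  ∑ j, c j * Complex.exp ((⟪η j, x⟫ : ℝ) * I)

theorem trig_cont {n N : ℕ} (c : Fin N → ℂ) (η : Fin N → E n) : Continuous (trig c η) := by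
  unfold trig
  fun_prop

variable {n : ℕ}

instance : CompactSpace (sphere (0 : E n) 1) := isCompact_iff_compactSpace.1 (isCompact_sphere _ _)

/-- exponentials on the sphere -/
noncomputable def ex (η : E n) : C(sphere (0 : E n) 1, ℂ) :=
  ⟨fun x => Complex.exp ((⟪η, (x : E n)⟫ : ℝ) * I), by fun_prop⟩

theorem ex_apply (η : E n) (x : sphere (0 : E n) 1) :
    ex η x = Complex.exp ((⟪η, (x : E n)⟫ : ℝ) * I) := rfl

/-- star algebra of trigonometric polynomials -/
noncomputable def TA (n : ℕ) : StarSubalgebra ℂ C(sphere (0 : E n) 1, ℂ) where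
  toSubalgebra := Algebra.adjoin ℂ (range (ex (n := n)))
  star_mem' := by
    change Algebra.adjoin ℂ (range (ex (n := n))) ≤ star (Algebra.adjoin ℂ (range (ex (n := n))))
    refine adjoin_le ?_
    rintro - ⟨η, rfl⟩
    refine subset_adjoin ⟨-η, ?_⟩
    ext x
    rw [ContinuousMap.star_apply, ex_apply, ex_apply, ← starRingEnd_apply, ← Complex.exp_conj,
      map_mul, Complex.conj_ofReal, Complex.conj_I, inner_neg_left]
    congr 1
    push_cast; ring

theorem TA_coe : Subalgebra.toSubmodule (TA n).toSubalgebra =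
    Submodule.span ℂ (range (ex (n := n))) := by
  apply adjoin_eq_span_of_subset
  refine Subset.trans ?_ Submodule.subset_span
  intro x hx
  refine Submonoid.closure_induction (fun _ => id) ⟨0, ?_⟩ ?_ hx
  · ext1 z; rw [ex_apply]; simp
  · rintro - - - - ⟨m, rfl⟩ ⟨k, rfl⟩
    refine ⟨m + k, ?_⟩
    ext1 z
    rw [ContinuousMap.mul_apply, ex_apply, ex_apply, ex_apply, ← Complex.exp_add, inner_add_left]
    congr 1
    push_cast; ring

theorem TA_sep : (TA n).SeparatesPoints := by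
  intro x y hxy
  have hxy' : (x : E n) - y ≠ 0 := by
    rw [sub_ne_zero]; exact fun h => hxy (Subtype.ext h)
  have hn : ‖(x : E n) - y‖ ≠ 0 := norm_ne_zero_iff.2 hxy'
  refine ⟨_, ⟨ex ((‖(x : E n) - y‖ ^ 2)⁻¹ • ((x : E n) - y)), subset_adjoin ⟨_, rfl⟩, rfl⟩, ?_⟩
  dsimp only
  rw [ex_apply, ex_apply]
  intro h
  set η := (‖(x : E n) - y‖ ^ 2)⁻¹ • ((x : E n) - y) with hη
  have h1 : (⟪η, (x : E n)⟫ : ℝ) = ⟪η, (y : E n)⟫ + 1 := by
    have : (⟪η, (x : E n) - y⟫ : ℝ) = 1 := by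
      rw [hη, real_inner_smul_left, real_inner_self_eq_norm_sq]
      field_simp
    rw [inner_sub_right] at this
    linarith
  rw [h1] at h
  have h2 : ((⟪η, (y : E n)⟫ + 1 : ℝ) : ℂ) * I = ((⟪η, (y : E n)⟫ : ℝ) : ℂ) * I + I := by
    push_cast; ring
  rw [h2, Complex.exp_add] at h
  have h3 : Complex.exp I = 1 := by
    have h4 := Complex.exp_ne_zero (((⟪η, (y : E n)⟫ : ℝ) : ℂ) * I)
    have h5 : Complex.exp (((⟪η, (y : E n)⟫ : ℝ) : ℂ) * I) * Complex.exp I =
        Complex.exp (((⟪η, (y : E n)⟫ : ℝ) : ℂ) * I) * 1 := by rw [mul_one]; exact h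
    exact mul_left_cancel₀ h4 h5
  rw [Complex.exp_eq_one_iff] at h3
  obtain ⟨k, hk⟩ := h3
  have h6 := congrArg Complex.im hk
  simp at h6
  have h7 : (1 : ℝ) = (k : ℝ) * (2 * Real.pi) := h6
  rcases le_or_gt k 0 with hk0 | hk0
  · have : (k : ℝ) ≤ 0 := by exact_mod_cast hk0
    nlinarith [Real.pi_pos]
  · have : (1 : ℝ) ≤ k := by exact_mod_cast hk0
    nlinarith [Real.pi_gt_three]

theorem trig_dense (ψ : C(sphere (0 : E n) 1, ℂ)) (δ : ℝ) (hδ : 0 < δ) :
    ∃ (L : ℕ) (c : Fin L → ℂ) (η : Fin L → E n), ∀ x : sphere (0 : E n) 1,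
      ‖ψ x - trig c η x‖ ≤ δ := by
  have h1 : (TA n).topologicalClosure = ⊤ :=
    ContinuousMap.starSubalgebra_topologicalClosure_eq_top_of_separatesPoints (TA n) TA_sep
  have h2 : (Submodule.span ℂ (range (ex (n := n)))).topologicalClosure = ⊤ := by
    rw [← TA_coe]
    exact congr_arg (Subalgebra.toSubmodule <| StarSubalgebra.toSubalgebra ·) h1
  have h3 : ψ ∈ closure (Submodule.span ℂ (range (ex (n := n))) :
      Set C(sphere (0 : E n) 1, ℂ)) := by
    rw [← Submodule.topologicalClosure_coe, h2]; trivial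
  rw [Metric.mem_closure_iff] at h3
  obtain ⟨t, ht, hd⟩ := h3 δ hδ
  obtain ⟨L, c, η, hc⟩ : ∃ (L : ℕ) (c : Fin L → ℂ) (η : Fin L → E n),
      ∀ x : sphere (0 : E n) 1, t x = trig c η x := by
    have ht' : t ∈ Submodule.span ℂ (range (ex (n := n))) := ht
    rw [Finsupp.mem_span_range_iff_exists_finsupp] at ht'
    obtain ⟨c, hc⟩ := ht'
    refine ⟨c.support.card, fun i => c (c.support.equivFin.symm i),
      fun i => c.support.equivFin.symm i, fun x => ?_⟩
    rw [← hc]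
    have e1 : trig (fun i => c (c.support.equivFin.symm i)) (fun i => c.support.equivFin.symm i)
        (x : E n) = ∑ j : c.support, c j * Complex.exp ((⟪(j : E n), (x : E n)⟫ : ℝ) * I) :=
      c.support.equivFin.symm.sum_comp
        (fun j : c.support => c j * Complex.exp ((⟪(j : E n), (x : E n)⟫ : ℝ) * I))
    rw [e1, Finset.sum_coe_sort c.support (fun j : E n => c j *
        Complex.exp ((⟪(j : E n), (x : E n)⟫ : ℝ) * I))]
    unfold Finsupp.sum
    rw [ContinuousMap.sum_apply]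
    refine Finset.sum_congr rfl fun j _ => ?_
    simp only
    rw [ContinuousMap.smul_apply, ex_apply, smul_eq_mul]
  refine ⟨L, c, η, fun x => ?_⟩
  rw [← hc x, ← dist_eq_norm]
  exact (ContinuousMap.dist_apply_le_dist x).trans hd.le

theorem approx (φ : sphere (0 : E n) 1 → ℂ) (hφ : Measurable φ) (M : ℝ) (hM : 0 < M)
    (hb : ∀ x, ‖φ x‖ ≤ M) (ρ : ℝ) (hρ : 0 < ρ) (ε : ℝ) (hε : 0 < ε) :
    ∃ (L : ℕ) (c : Fin L → ℂ) (η : Fin L → E n),
      (∀ x : sphere (0 : E n) 1, ‖trig c η x‖ ≤ 2 * M) ∧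
      sigma n {x | ρ < ‖φ x - trig c η x‖} ≤ ENNReal.ofReal ε := by
  have hint := int_of_bdd hφ hb
  obtain ⟨ψ, hψ, hψi⟩ := hint.exists_boundedContinuous_integral_sub_le
    (show 0 < ε * (ρ / 4) by positivity)
  set ψ' : C(sphere (0 : E n) 1, ℂ) := ⟨fun x => ((M / max M ‖ψ x‖ : ℝ) : ℂ) * ψ x, by
    have h1 : Continuous fun x => M / max M ‖ψ x‖ :=
      continuous_const.div (by fun_prop) fun x => (lt_of_lt_of_le hM (le_max_left _ _)).ne'
    exact (Complex.continuous_ofReal.comp h1).mul ψ.continuous⟩ with hψ'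
  have hap : ∀ x, ψ' x = ((M / max M ‖ψ x‖ : ℝ) : ℂ) * ψ x := fun x => rfl
  have hb' : ∀ x, ‖ψ' x‖ ≤ M := by
    intro x
    have hm : 0 < max M ‖ψ x‖ := lt_of_lt_of_le hM (le_max_left _ _)
    rw [hap, norm_mul, Complex.norm_real, Real.norm_eq_abs, abs_of_nonneg (by positivity),
      div_mul_eq_mul_div, div_le_iff₀ hm]
    exact mul_le_mul_of_nonneg_left (le_max_right _ _) hM.le
  have hdiff : ∀ x, ‖φ x - ψ' x‖ ≤ 2 * ‖φ x - ψ x‖ := by
    intro x
    have hm : 0 < max M ‖ψ x‖ := lt_of_lt_of_le hM (le_max_left _ _)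
    have h1 : ‖ψ x - ψ' x‖ ≤ ‖φ x - ψ x‖ := by
      have h2 : ψ x - ψ' x = ((1 - M / max M ‖ψ x‖ : ℝ) : ℂ) * ψ x := by
        rw [hap]; push_cast; ring
      rw [h2, norm_mul, Complex.norm_real, Real.norm_eq_abs]
      rcases le_total ‖ψ x‖ M with h | h
      · rw [max_eq_left h, div_self hM.ne', sub_self, abs_zero, zero_mul]
        exact norm_nonneg _
      · rw [max_eq_right h]
        have hp : 0 < ‖ψ x‖ := lt_of_lt_of_le hM h
        rw [abs_of_nonneg (by rw [sub_nonneg, div_le_one hp]; exact h), sub_mul, one_mul,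
          div_mul_cancel₀ _ hp.ne']
        have := norm_sub_norm_le (ψ x) (φ x)
        rw [norm_sub_rev] at this
        linarith [hb x]
    calc ‖φ x - ψ' x‖ = ‖(φ x - ψ x) + (ψ x - ψ' x)‖ := by congr 1; ring
      _ ≤ ‖φ x - ψ x‖ + ‖ψ x - ψ' x‖ := norm_add_le _ _
      _ ≤ _ := by linarith
  obtain ⟨L, c, η, ht⟩ := trig_dense ψ' (min M (ρ / 2)) (lt_min hM (by positivity))
  refine ⟨L, c, η, fun x => ?_, ?_⟩
  · have h1 := (ht x).trans (min_le_left _ _)
    have h2 := norm_sub_norm_le (trig c η x) (ψ' x)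
    rw [norm_sub_rev] at h2
    linarith [hb' x]
  · have hsub : {x | ρ < ‖φ x - trig c η x‖} ⊆ {x | ρ / 4 ≤ ‖φ x - ψ x‖} := by
      intro x hx
      rw [mem_ofPred_eq] at hx ⊢
      have h1 := (ht x).trans (min_le_right _ _)
      have h2 : ‖φ x - trig c η x‖ ≤ ‖φ x - ψ' x‖ + ‖ψ' x - trig c η x‖ := by
        calc _ = ‖(φ x - ψ' x) + (ψ' x - trig c η x)‖ := by congr 1; ring
          _ ≤ _ := norm_add_le _ _
      linarith [hdiff x]
    refine (measure_mono hsub).trans ?_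
    have h3 := mul_meas_ge_le_integral_of_nonneg
      (μ := sigma n) (f := fun x => ‖φ x - ψ x‖)
      (Filter.Eventually.of_forall fun x => norm_nonneg _) ((hint.sub hψi).norm) (ρ / 4)
    rw [← ENNReal.ofReal_toReal (measure_ne_top (sigma n) {x | ρ / 4 ≤ ‖φ x - ψ x‖})]
    apply ENNReal.ofReal_le_ofReal
    have h4 : ρ / 4 * (sigma n).real {x | ρ / 4 ≤ ‖φ x - ψ x‖} ≤ ρ / 4 * ε := by
      calc _ ≤ _ := h3
        _ ≤ _ := hψ
        _ = _ := by ring
    exact le_of_mul_le_mul_left h4 (by positivity)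



end Pool.Agent.H197.PD
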