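import Mathlib
import Pool.Graph.R_seed8.H438R2.BR.T1
import Pool.Graph.R_seed8.H438R2.BR.T10
import Pool.Agent.H197.PD.Stm2
set_option autoImplicit false

/-! # Project PD (helper197), MP_6cbfb8_an: asymptotics of the Fourier transform of the surface measure

Library: `Pool.Agent.H438R2.BR`: `sy k y = (y² - 2iy)^((k-3)/2)`, `L k u = ∫_0^∞ e^{-uy} sy k y dy`,
`Phi k u = ∫_{-1}^1 e^{ius} (1-s²)^((k-3)/2) ds`, `phi_laplace` (T1), `sphere_ft` (T10). -/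

namespace Pool.Agent.H197.PD

open MeasureTheory Set Metric Complex Filter Topology
open scoped ENNReal NNReal RealInnerProductSpace BigOperators ContDiff

/-- PD-LASY: Proof. `a = (k-3)/2`, `(k-1)/2 = a+1`. Substituting `y = t/u` (`integral_comp_mul_left_Ioi` or similar) and `sy k (t/u) = (t²/u² - 2it/u)^a = u^(-a) (t²/u - 2it)^a`
(`Complex.mul_cpow_ofReal_nonneg`, one factor is the positive real `1/u`), `u^(a+1) L k u = ∫_0^∞ e^{-t} (t²/u - 2it)^a dt`. For `t > 0` the integrand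
tends to `e^{-t} (-2it)^a` as `u → ∞` (`-2it` is in the slit plane), and for `u ≥ 1` its norm is at most `e^{-t} (t² + 2t)^a` if `a ≥ 0` and at most `e^{-t} (2t)^a` if `a < 0` (i.e. `k = 2`,
`a = -1/2`), since `2t ≤ |t²/u - 2it| ≤ t² + 2t` and `‖z^a‖ = ‖z‖^a` (`Complex.norm_cpow_real`). Dominated convergence (`tendsto_integral_filter_of_dominated_convergence`); the value of the limit is irrelevant. -/
def S_LASY : Prop :=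
  ∀ k : ℕ, 2 ≤ k → ∃ l : ℂ, Tendsto (fun u : ℝ => ((u ^ (((k : ℝ) - 1) / 2) : ℝ) : ℂ) *
    Pool.Agent.H438R2.BR.L k u) atTop (𝓝 l)

/-- PD-TRIG: Task: `theorem t_TRIG (h : S_LASY) : S_TRIG`. Proof. `F(x) = ∑_j c_j e^{i⟨η_j,x⟩}`. As `e^{-2πi⟨x,ξ⟩} e^{i⟨η,x⟩} = e^{-i⟨2πξ-η,x⟩}`, `sphere_ft` (with `sg n = (sigma n).map Subtype.val`) gives
`ft F ξ = κ ∑_j c_j Phi n (r_j)`, `r_j = ‖2πξ - η_j‖`, `κ = (sg (n-1)).real univ`. Put `r = 2π‖ξ‖`, `θ = ξ/‖ξ‖` (a point of the sphere). Then `|r_j - (r - ⟨η_j,θ⟩)| ≤ ‖η_j‖²/r` for `r ≥ ‖η_j‖`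
(`r_j² = r² - 2r⟨η_j,θ⟩ + ‖η_j‖²`, divide the difference of the squares by `r_j + r - ⟨η_j,θ⟩ ≥ r`... any bound tending to 0 uniformly in `θ` is fine), and `r_j/r → 1`.
By `phi_laplace` and `S_LASY`, `u^((n-1)/2) Phi n u - (-I e^{iu} l + I e^{-iu} conj l) → 0` as `u → ∞`. Hence, uniformly in `θ` as `r → ∞`,
`r^((n-1)/2) ∑_j c_j Phi n (r_j) = -I l e^{ir} F(-θ) + I conj l e^{-ir} F(θ) + o(1)`, of norm at most `2 ‖l‖ B + o(1) ≤ (2 ‖l‖ + 1) B` for `r` large.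
(Filter: `comap (fun ξ : E n => ‖ξ‖) atTop`; for each `j` prove that
`r^((n-1)/2) Phi n (r_j) - (-I l e^{ir} e^{-i⟨η_j,θ⟩} + I conj l e^{-ir} e^{i⟨η_j,θ⟩}) → 0` along it.) -/
def S_TRIG : Prop :=
  ∀ n : ℕ, 2 ≤ n → ∃ C : ℝ, 0 < C ∧ ∀ (K : ℕ) (c : Fin K → ℂ) (η : Fin K → E n) (B : ℝ), 0 < B →
    (∀ x : sphere (0 : E n) 1, ‖∑ j, c j * Complex.exp ((⟪η j, (x : E n)⟫ : ℝ) * I)‖ ≤ B) →
    ∃ R : ℝ, 1 ≤ R ∧ ∀ ξ : E n, R ≤ ‖ξ‖ →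
      ‖ft (fun x : sphere (0 : E n) 1 => ∑ j, c j * Complex.exp ((⟪η j, (x : E n)⟫ : ℝ) * I)) ξ‖ ≤
        C * B * ‖ξ‖ ^ (-(((n : ℝ) - 1) / 2))

end Pool.Agent.H197.PD
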