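import Mathlib
import Pool.Agent.H197.PD.Base
import Pool.Agent.H197.PD.Stm3
set_option autoImplicit false

/-! # Project PD: the one-step theorem from the lemmas -/

namespace Pool.Agent.H197.PD

open MeasureTheory Set Metric Complex Filter Topology
open scoped ENNReal NNReal RealInnerProductSpace BigOperators ContDiff

namespace STEP

theorem sig_pos (n : ℕ) (hn : 1 ≤ n) : 0 < (sigma n).real univ := by
  have hne : Nonempty (Fin n) := ⟨⟨0, hn⟩⟩
  have : Nontrivial (E n) :=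
    Module.nontrivial_of_finrank_pos (R := ℝ) (by rw [finrank_euclideanSpace_fin]; omega)
  have h : (sigma n) univ ≠ 0 := by
    unfold sigma
    rw [Measure.toSphere_apply_univ]
    refine mul_ne_zero ?_ (measure_ball_pos _ _ one_pos).ne'
    simp only [finrank_euclideanSpace_fin]
    exact_mod_cast (by omega : n ≠ 0)
  exact ENNReal.toReal_pos h (measure_ne_top _ _)

/-- monotonicity of the bound -/
theorem mono {s' s al : ℝ} (h1 : 1 ≤ s') (h2 : s' ≤ s) (hal : 1 / 2 ≤ al) :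
    √(Real.log (2 + s)) * s ^ (-al) ≤ √(Real.log (2 + s')) * s' ^ (-al) := by
  have hs' : 0 < s' := by linarith
  have hs : 0 < s := by linarith
  have he : Real.exp 1 ≤ 3 := by
    have := Real.exp_one_lt_d9
    linarith
  have h3 : Real.log (2 + s) / (2 + s) ≤ Real.log (2 + s') / (2 + s') :=
    Real.log_div_self_antitoneOn (show Real.exp 1 ≤ 2 + s' by linarith)
      (show Real.exp 1 ≤ 2 + s by linarith) (by linarith)
  have hl' : 0 < Real.log (2 + s') := Real.log_pos (by linarith)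
  have h4 : Real.log (2 + s) ≤ (s / s') * Real.log (2 + s') := by
    rw [div_le_div_iff₀ (by linarith) (by linarith)] at h3
    have h5 : Real.log (2 + s) ≤ Real.log (2 + s') * ((2 + s) / (2 + s')) := by
      rw [← mul_div_assoc, le_div_iff₀ (by linarith)]
      exact h3
    refine h5.trans ?_
    rw [mul_comm]
    refine mul_le_mul_of_nonneg_right ?_ hl'.le
    rw [div_le_div_iff₀ (by linarith) hs']
    nlinarith
  have hq : 1 ≤ s / s' := by rw [le_div_iff₀ hs']; linarith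
  have h5 : √(Real.log (2 + s)) ≤ (s / s') ^ al * √(Real.log (2 + s')) := by
    calc √(Real.log (2 + s)) ≤ √((s / s') * Real.log (2 + s')) := Real.sqrt_le_sqrt h4
      _ = √(s / s') * √(Real.log (2 + s')) := Real.sqrt_mul (by positivity) _
      _ ≤ _ := by
        refine mul_le_mul_of_nonneg_right ?_ (Real.sqrt_nonneg _)
        rw [Real.sqrt_eq_rpow]
        exact Real.rpow_le_rpow_of_exponent_le hq hal
  calc √(Real.log (2 + s)) * s ^ (-al)
      ≤ ((s / s') ^ al * √(Real.log (2 + s'))) * s ^ (-al) :=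
        mul_le_mul_of_nonneg_right h5 (by positivity)
    _ = √(Real.log (2 + s')) * s' ^ (-al) := by
        rw [Real.div_rpow hs.le hs'.le, Real.rpow_neg hs.le, Real.rpow_neg hs'.le]
        have h6 : s ^ al ≠ 0 := (Real.rpow_pos_of_pos hs _).ne'
        field_simp

theorem small (al δ : ℝ) (hal : 1 / 2 ≤ al) (hδ : 0 < δ) :
    ∃ N0 : ℕ, ∀ N : ℕ, N0 ≤ N → √(Real.log (2 + (N : ℝ))) * (N : ℝ) ^ (-al) ≤ δ := by
  have h1 : Tendsto (fun x : ℝ => Real.log x / x) atTop (𝓝 0) := by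
    have := Real.isLittleO_log_id_atTop.tendsto_div_nhds_zero
    simpa using this
  have h2 : ∀ᶠ x : ℝ in atTop, Real.log x / x ≤ δ ^ 2 / 3 :=
    (h1.eventually (gt_mem_nhds (show (0:ℝ) < δ ^ 2 / 3 by positivity))).mono fun x hx => hx.le
  obtain ⟨X, hX⟩ := eventually_atTop.1 h2
  refine ⟨max 1 ⌈X⌉₊, fun N hN => ?_⟩
  have hN1 : (1 : ℝ) ≤ N := by exact_mod_cast (le_max_left _ _).trans hN
  have hNX : X ≤ N := by
    have : (⌈X⌉₊ : ℝ) ≤ N := by exact_mod_cast (le_max_right _ _).trans hN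
    exact (Nat.le_ceil X).trans this
  have h3 := hX (2 + N) (by linarith)
  have hN0 : (0 : ℝ) < N := by linarith
  rw [div_le_iff₀ (by linarith)] at h3
  have h4 : Real.log (2 + (N : ℝ)) ≤ δ ^ 2 * N := by nlinarith [sq_nonneg δ]
  have h5 : √(Real.log (2 + (N : ℝ))) ≤ δ * √(N : ℝ) := by
    calc √(Real.log (2 + (N : ℝ))) ≤ √(δ ^ 2 * N) := Real.sqrt_le_sqrt h4
      _ = _ := by rw [Real.sqrt_mul (by positivity), Real.sqrt_sq hδ.le]
  calc √(Real.log (2 + (N : ℝ))) * (N : ℝ) ^ (-al) ≤ δ * √(N : ℝ) * (N : ℝ) ^ (-(1 / 2) : ℝ) := by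
        refine mul_le_mul h5 ?_ (by positivity) (by positivity)
        exact Real.rpow_le_rpow_of_exponent_le hN1 (by linarith)
    _ = δ := by
        rw [Real.sqrt_eq_rpow, mul_assoc, ← Real.rpow_add hN0]
        norm_num

theorem dec_le {n : ℕ} (hn : 2 ≤ n) (N : ℝ) (hN : 1 ≤ N) (ξ : E n) :
    √(Real.log (2 + N + ‖ξ‖)) * (N + ‖ξ‖) ^ (-(((n : ℝ) - 1) / 2)) ≤ 2 * dec n ξ := by
  have hn2 : (2 : ℝ) ≤ n := by exact_mod_cast hn
  have h0 := norm_nonneg ξ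
  have h1 := mono (s' := 1 + ‖ξ‖) (s := N + ‖ξ‖) (al := ((n : ℝ) - 1) / 2) (by linarith)
    (by linarith) (by linarith)
  rw [← add_assoc] at h1
  refine h1.trans ?_
  unfold dec
  rw [← mul_assoc]
  refine mul_le_mul_of_nonneg_right ?_ (by positivity)
  have h2 : Real.log (2 + (1 + ‖ξ‖)) ≤ 2 ^ 2 * Real.log (2 + ‖ξ‖) := by
    have h3 : Real.log (2 + (1 + ‖ξ‖)) ≤ Real.log ((2 + ‖ξ‖) ^ 4) := by
      refine Real.log_le_log (by linarith) ?_
      have h4 : (2 + ‖ξ‖) ^ 2 ≤ (2 + ‖ξ‖) ^ 4 :=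
        pow_le_pow_right₀ (by linarith) (by norm_num)
      nlinarith
    rw [Real.log_pow] at h3
    push_cast at h3
    linarith
  calc √(Real.log (2 + (1 + ‖ξ‖))) ≤ √(2 ^ 2 * Real.log (2 + ‖ξ‖)) := Real.sqrt_le_sqrt h2
    _ = _ := by rw [Real.sqrt_mul (by positivity), Real.sqrt_sq (by norm_num)]

/-- the pieces of the density -/
noncomputable def pc {n K : ℕ} (c : Fin K → ℂ) (η : Fin K → E n) (N : ℕ)
    (j : Fin n → Fin (2 * N + 4)) (x : sphere (0 : E n) 1) : ℂ :=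
  trig c η x * ((chi n ((N : ℝ) • (x : E n) - vec n N j) : ℝ) : ℂ)

theorem vec_eq (n N : ℕ) (j : Fin n → Fin (2 * N + 4)) :
    (WithLp.toLp 2 (fun i => ((((j i : ℕ) : ℤ) - ((N : ℤ) + 2) : ℤ) : ℝ)) : E n) = vec n N j := by
  unfold vec
  congr 1
  funext i
  push_cast
  ring

theorem square (hH : S_HAT) (hO : S_ORTH) (hR : S_REP) (hI : S_INT) (hT : S_TRIG) (n : ℕ)
    (hn : 2 ≤ n) : ∃ K1 : ℝ, 0 < K1 ∧ ∀ (K : ℕ) (c : Fin K → ℂ) (η : Fin K → E n) (B : ℝ), 0 < B →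
      (∀ x : sphere (0 : E n) 1, ‖trig c η x‖ ≤ B) → ∃ N0 : ℕ, 1 ≤ N0 ∧ ∀ N : ℕ, N0 ≤ N → ∀ ξ : E n,
        ∑ j, ‖ft (pc c η N j) ξ‖ ^ 2 ≤ (K1 * B) ^ 2 * ((N : ℝ) + ‖ξ‖) ^ (-((n : ℝ) - 1)) := by
  obtain ⟨h, hhc, hhd, hhr⟩ := hH n
  obtain ⟨Co, hCo, ho⟩ := hO n (by omega)
  obtain ⟨Ci, hCi, hi⟩ := hI n hn
  obtain ⟨Ct, hCt, ht⟩ := hT n hn
  obtain ⟨Ch, hCh, hh2⟩ := hhd (2 * n)
  set S : ℝ := (sigma n).real univ with hS
  have hS0 : 0 < S := sig_pos n (by omega)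
  have hn2 : (2 : ℝ) ≤ n := by exact_mod_cast hn
  refine ⟨√(Co * Ch ^ 2 * Ci) * (S + Ct), by positivity, ?_⟩
  intro K c η B hB hb
  obtain ⟨R, hR1, hdec⟩ := ht K c η B hB hb
  refine ⟨max 1 ⌈R ^ n⌉₊, le_max_left _ _, ?_⟩
  intro N hN ξ
  have hNR : R ^ n ≤ (N : ℝ) := by
    have : (⌈R ^ n⌉₊ : ℝ) ≤ N := by exact_mod_cast (le_max_right _ _).trans hN
    exact (Nat.le_ceil _).trans this
  have hN1 : (1 : ℝ) ≤ N := by exact_mod_cast (le_max_left _ _).trans hN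
  have hcont : Continuous fun x : sphere (0 : E n) 1 => trig c η x :=
    (trig_cont c η).comp continuous_subtype_val
  have hFi : Integrable (fun x : sphere (0 : E n) 1 => trig c η x) (sigma n) :=
    int_of_bdd hcont.measurable hb
  set G : E n → ℂ := ft (fun x : sphere (0 : E n) 1 => trig c η x) with hG
  have hGc : Continuous G := ft_cont hFi
  set B' : ℝ := (S + Ct) * B with hB'
  have hB'0 : 0 < B' := by positivity
  have hG1 : ∀ z, ‖G z‖ ≤ B' := by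
    intro z
    refine (ft_norm_le _ z).trans ((int_norm_le hcont.measurable hb).trans ?_)
    rw [hB', ← hS]
    nlinarith [mul_pos hCt hB]
  have hG2 : ∀ z, R ≤ ‖z‖ → ‖G z‖ ≤ B' * ‖z‖ ^ (-(((n : ℝ) - 1) / 2)) := by
    intro z hz
    refine (hdec z hz).trans ?_
    have h1 : 0 < ‖z‖ := by linarith
    refine mul_le_mul_of_nonneg_right ?_ (by positivity)
    rw [hB']
    nlinarith [mul_pos hS0 hB]
  have hint := hi G B' R hGc hB'0 hR1 hG1 hG2 N hNR ξ
  -- the representation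
  set Φ : E n → ℂ := fun u => h u * G (ξ - (N : ℝ) • u) with hΦ
  have hΦc : Continuous Φ := by
    refine hhc.mul (hGc.comp ?_)
    fun_prop
  have hhint : Integrable h := by
    obtain ⟨C1, hC1, h1⟩ := hhd (n + 1)
    have h2 : Integrable (fun u : E n => C1 * (1 + ‖u‖) ^ (-((n : ℝ) + 1))) :=
      (integrable_one_add_norm (by rw [finrank_euclideanSpace_fin]; linarith)).const_mul _
    refine h2.mono' hhc.aestronglyMeasurable (Eventually.of_forall fun u => ?_)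
    have := h1 u
    push_cast at this
    exact this
  have hrep : ∀ j : Fin n → Fin (2 * N + 4), ft (pc c η N j) ξ =
      ∫ u, Complex.exp (-(2 * Real.pi * ⟪u, (WithLp.toLp 2
        (fun i => ((((j i : ℕ) : ℤ) - ((N : ℤ) + 2) : ℤ) : ℝ)) : E n)⟫ : ℝ) * I) * Φ u := by
    intro j
    rw [vec_eq]
    have h1 := hR n (sphere (0 : E n) 1) (sigma n) Subtype.val
      (fun x => trig c η x) B h (fun y => ((chi n y : ℝ) : ℂ)) (N : ℝ) (vec n N j) ξ
      measurable_subtype_coe hcont.measurable hb hhc hhint hhr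
    exact h1
  have hΦd : ∀ K' : ℕ, ∃ A : ℝ, ∀ u, ‖Φ u‖ ≤ A * (1 + ‖u‖) ^ (-(K' : ℝ)) := by
    intro K'
    obtain ⟨C1, hC1, h1⟩ := hhd K'
    refine ⟨C1 * B', fun u => ?_⟩
    simp only [hΦ]
    rw [norm_mul]
    calc ‖h u‖ * ‖G (ξ - (N : ℝ) • u)‖ ≤ (C1 * (1 + ‖u‖) ^ (-(K' : ℝ))) * B' :=
          mul_le_mul (h1 u) (hG1 _) (norm_nonneg _) (by positivity)
      _ = _ := by ring
  have horth := ho (Fin n → Fin (2 * N + 4)) (fun j i => (((j i : ℕ) : ℤ) - ((N : ℤ) + 2)))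
    (by
      intro j j' hjj
      funext i
      have := congrFun hjj i
      simp only at this
      exact Fin.ext (by omega)) Φ hΦc hΦd
  have hsum : ∑ j, ‖ft (pc c η N j) ξ‖ ^ 2 ≤
      Co * ∫ u, ‖Φ u‖ ^ 2 * (1 + ‖u‖) ^ (2 * (n : ℝ)) := by
    rw [Finset.sum_congr rfl fun j _ => by rw [hrep j]]
    exact horth
  refine hsum.trans ?_
  have hwi : Integrable (fun u : E n => (1 + ‖u‖) ^ (-(2 * (n : ℝ)))) :=
    integrable_one_add_norm (by rw [finrank_euclideanSpace_fin]; linarith)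
  have hgi : Integrable (fun u : E n => ‖G (ξ - (N : ℝ) • u)‖ ^ 2 * (1 + ‖u‖) ^ (-(2 * (n : ℝ)))) := by
    refine hwi.bdd_mul (c := B' ^ 2) ?_ ?_
    · have : Continuous fun u : E n => ‖G (ξ - (N : ℝ) • u)‖ ^ 2 := by
        have h1 : Continuous fun u : E n => G (ξ - (N : ℝ) • u) := hGc.comp (by fun_prop)
        exact h1.norm.pow 2
      exact this.aestronglyMeasurable
    · refine Eventually.of_forall fun u => ?_
      rw [Real.norm_of_nonneg (by positivity)]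
      exact pow_le_pow_left₀ (norm_nonneg _) (hG1 _) 2
  have hint2 : ∫ u, ‖Φ u‖ ^ 2 * (1 + ‖u‖) ^ (2 * (n : ℝ)) ≤
      Ch ^ 2 * ∫ u, ‖G (ξ - (N : ℝ) • u)‖ ^ 2 * (1 + ‖u‖) ^ (-(2 * (n : ℝ))) := by
    rw [← integral_const_mul]
    refine integral_mono_of_nonneg (Eventually.of_forall fun u => by positivity)
      (hgi.const_mul _) (Eventually.of_forall fun u => ?_)
    simp only [hΦ]
    rw [norm_mul, mul_pow]
    have h1 := pow_le_pow_left₀ (norm_nonneg _) (hh2 u) 2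
    rw [mul_pow, ← Real.rpow_natCast ((1 + ‖u‖) ^ _) 2, ← Real.rpow_mul (by positivity)] at h1
    have h0 : 0 < 1 + ‖u‖ := by positivity
    calc ‖h u‖ ^ 2 * ‖G (ξ - (N : ℝ) • u)‖ ^ 2 * (1 + ‖u‖) ^ (2 * (n : ℝ))
        ≤ (Ch ^ 2 * (1 + ‖u‖) ^ (-((2 * n : ℕ) : ℝ) * ((2 : ℕ) : ℝ))) *
            ‖G (ξ - (N : ℝ) • u)‖ ^ 2 * (1 + ‖u‖) ^ (2 * (n : ℝ)) := by gcongr
      _ = Ch ^ 2 * (‖G (ξ - (N : ℝ) • u)‖ ^ 2 *
            ((1 + ‖u‖) ^ (-((2 * n : ℕ) : ℝ) * ((2 : ℕ) : ℝ)) * (1 + ‖u‖) ^ (2 * (n : ℝ)))) := by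
          ring
      _ = _ := by
          rw [← Real.rpow_add h0]
          congr 3
          push_cast
          ring
  calc Co * ∫ u, ‖Φ u‖ ^ 2 * (1 + ‖u‖) ^ (2 * (n : ℝ))
      ≤ Co * (Ch ^ 2 * (Ci * B' ^ 2 * ((N : ℝ) + ‖ξ‖) ^ (-((n : ℝ) - 1)))) := by
        refine mul_le_mul_of_nonneg_left (hint2.trans ?_) hCo.le
        exact mul_le_mul_of_nonneg_left hint (by positivity)
    _ = _ := by
        rw [hB', mul_pow (√(Co * Ch ^ 2 * Ci) * (S + Ct)) B, mul_pow (√(Co * Ch ^ 2 * Ci)) (S + Ct),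
          Real.sq_sqrt (by positivity)]
        ring

end STEP

end Pool.Agent.H197.PD
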