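import Mathlib
import Pool.Agent.H197.PD.STEP
set_option autoImplicit false

/-! # Project PD: the one-step theorem from the lemmas, second part -/

namespace Pool.Agent.H197.PD

open MeasureTheory Set Metric Complex Filter Topology
open scoped ENNReal NNReal RealInnerProductSpace BigOperators ContDiff

namespace STEP

theorem abs_zet (m : ℕ) (hm : 1 ≤ m) (w : Fin m) : |zet m w| ≤ m := by
  have hm1 : (1 : ℝ) ≤ m := by exact_mod_cast hm
  unfold zet
  split_ifs
  · rw [abs_le]; constructor <;> linarith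
  · rw [abs_one]; exact hm1

theorem chi_cont (hk : Continuous kap) (n : ℕ) : Continuous (chi n) := by
  unfold chi
  refine continuous_finsetProd _ fun i _ => hk.comp ?_
  fun_prop

theorem cell_cont (hk : Continuous kap) (n N : ℕ) (j : Fin n → Fin (2 * N + 4)) :
    Continuous fun x : sphere (0 : E n) 1 => chi n ((N : ℝ) • (x : E n) - vec n N j) :=
  (chi_cont hk n).comp (by fun_prop)

theorem chi_nonneg (h0 : ∀ t, 0 ≤ kap t) (n : ℕ) (x : E n) : 0 ≤ chi n x :=
  Finset.prod_nonneg fun _ _ => h0 _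

/-- the supports of the cells on the sphere -/
def supp (n N : ℕ) (j : Fin n → Fin (2 * N + 4)) : Set (sphere (0 : E n) 1) :=
  {x | chi n ((N : ℝ) • (x : E n) - vec n N j) ≠ 0}

theorem supp_meas (hk : Continuous kap) (n N : ℕ) (j : Fin n → Fin (2 * N + 4)) :
    MeasurableSet (supp n N j) :=
  (isOpen_ne_fun (cell_cont hk n N j) continuous_const).measurableSet

theorem supp_sum (hK : S_KAP) (n N : ℕ) :
    ∑ j, (sigma n).real (supp n N j) ≤ 2 ^ n * (sigma n).real univ := by
  classical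
  obtain ⟨⟨kc, k0, k1, ks⟩, part, hov⟩ := hK
  have hk : Continuous kap := kc.continuous
  have hm := supp_meas hk n N
  have h1 : ∀ j, (sigma n).real (supp n N j) =
      ∫ x, (supp n N j).indicator (fun _ => (1 : ℝ)) x ∂(sigma n) := by
    intro j
    rw [integral_indicator (hm j), integral_const, smul_eq_mul, mul_one, measureReal_restrict_apply_univ]
  rw [Finset.sum_congr rfl fun j _ => h1 j, ← integral_finsetSum]
  · calc ∫ x, ∑ j, (supp n N j).indicator (fun _ => (1 : ℝ)) x ∂(sigma n)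
        ≤ ∫ _x, (2 : ℝ) ^ n ∂(sigma n) := by
          refine integral_mono (integrable_finsetSum _ fun j _ => ?_) (integrable_const _) fun x => ?_
          · exact (integrable_const (1 : ℝ)).indicator (hm j)
          · simp only [indicator_apply]
            rw [Finset.sum_ite, Finset.sum_const_zero, add_zero, Finset.sum_const, nsmul_eq_mul,
              mul_one]
            have h2 := hov n N (x : E n)
            rw [Set.ncard_eq_toFinset_card'] at h2
            have h3 : (Finset.univ.filter fun j : Fin n → Fin (2 * N + 4) => x ∈ supp n N j) =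
                ({j : Fin n → Fin (2 * N + 4) | chi n ((N : ℝ) • (x : E n) - vec n N j) ≠ 0}).toFinset := by
              ext j
              simp [supp]
            rw [h3]
            exact_mod_cast h2
      _ = _ := by rw [integral_const, smul_eq_mul, mul_comm]
  · exact fun j _ => (integrable_const (1 : ℝ)).indicator (hm j)

/-- the multiplied density -/
noncomputable def Hz {n K : ℕ} (c : Fin K → ℂ) (η : Fin K → E n) (N m : ℕ)
    (z : (Fin n → Fin (2 * N + 4)) → Fin m) (x : sphere (0 : E n) 1) : ℂ :=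
  trig c η x * ∑ j, ((zet m (z j) : ℝ) : ℂ) * ((chi n ((N : ℝ) • (x : E n) - vec n N j) : ℝ) : ℂ)

theorem Hz_eq {n K : ℕ} (c : Fin K → ℂ) (η : Fin K → E n) (N m : ℕ)
    (z : (Fin n → Fin (2 * N + 4)) → Fin m) (x : sphere (0 : E n) 1) :
    Hz c η N m z x = ∑ j, ((zet m (z j) : ℝ) : ℂ) * pc c η N j x := by
  unfold Hz pc
  rw [Finset.mul_sum]
  refine Finset.sum_congr rfl fun j _ => ?_
  ring

theorem pc_cont (hk : Continuous kap) {n K : ℕ} (c : Fin K → ℂ) (η : Fin K → E n) (N : ℕ)
    (j : Fin n → Fin (2 * N + 4)) : Continuous (pc c η N j) := by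
  unfold pc
  exact ((trig_cont c η).comp continuous_subtype_val).mul
    (Complex.continuous_ofReal.comp (cell_cont hk n N j))

theorem Hz_cont (hk : Continuous kap) {n K : ℕ} (c : Fin K → ℂ) (η : Fin K → E n) (N m : ℕ)
    (z : (Fin n → Fin (2 * N + 4)) → Fin m) : Continuous (Hz c η N m z) := by
  have : Hz c η N m z = fun x => ∑ j, ((zet m (z j) : ℝ) : ℂ) * pc c η N j x :=
    funext fun x => Hz_eq c η N m z x
  rw [this]
  exact continuous_finsetSum _ fun j _ => continuous_const.mul (pc_cont hk c η N j)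

theorem cont_int {n : ℕ} {g : sphere (0 : E n) 1 → ℂ} (hg : Continuous g) :
    Integrable g (sigma n) := by
  obtain ⟨C, hC⟩ := (isCompact_range hg).isBounded.exists_norm_le
  exact int_of_bdd hg.measurable fun x => hC _ ⟨x, rfl⟩

theorem ft_Hz (hk : Continuous kap) {n K : ℕ} (c : Fin K → ℂ) (η : Fin K → E n) (N m : ℕ)
    (z : (Fin n → Fin (2 * N + 4)) → Fin m) (ξ : E n) :
    ft (Hz c η N m z) ξ = ∑ j, ((zet m (z j) : ℝ) : ℂ) * ft (pc c η N j) ξ := by
  have : Hz c η N m z = fun x => ∑ j, ((zet m (z j) : ℝ) : ℂ) * pc c η N j x :=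
    funext fun x => Hz_eq c η N m z x
  rw [this, ft_sum]
  · refine Finset.sum_congr rfl fun j _ => ?_
    rw [ft_smul]
  · exact fun j _ => (cont_int (pc_cont hk c η N j)).const_mul _

theorem Hz_le (hK : S_KAP) {n K : ℕ} (c : Fin K → ℂ) (η : Fin K → E n) (N m : ℕ) (hm : 1 ≤ m)
    (z : (Fin n → Fin (2 * N + 4)) → Fin m) (B : ℝ) (hB : 0 ≤ B)
    (hb : ∀ x : sphere (0 : E n) 1, ‖trig c η x‖ ≤ B) (x : sphere (0 : E n) 1) :
    ‖Hz c η N m z x‖ ≤ m * B := by
  obtain ⟨⟨kc, k0, k1, ks⟩, part, hov⟩ := hK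
  have hx : ‖(x : E n)‖ ≤ 1 := (mem_sphere_zero_iff_norm.1 x.2).le
  unfold Hz
  rw [norm_mul, mul_comm (m : ℝ)]
  refine mul_le_mul (hb x) ?_ (norm_nonneg _) hB
  refine (norm_sum_le _ _).trans ?_
  calc ∑ j, ‖((zet m (z j) : ℝ) : ℂ) * ((chi n ((N : ℝ) • (x : E n) - vec n N j) : ℝ) : ℂ)‖
      ≤ ∑ j, (m : ℝ) * chi n ((N : ℝ) • (x : E n) - vec n N j) := by
        refine Finset.sum_le_sum fun j _ => ?_
        rw [norm_mul, Complex.norm_real, Complex.norm_real, Real.norm_eq_abs,
          Real.norm_of_nonneg (chi_nonneg k0 n _)]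
        exact mul_le_mul_of_nonneg_right (abs_zet m hm _) (chi_nonneg k0 n _)
    _ = m := by rw [← Finset.mul_sum, part n N x hx, mul_one]

theorem Hz_ne (hK : S_KAP) {n K : ℕ} (c : Fin K → ℂ) (η : Fin K → E n) (N m : ℕ)
    (z : (Fin n → Fin (2 * N + 4)) → Fin m) :
    {x : sphere (0 : E n) 1 | Hz c η N m z x ≠ trig c η x} ⊆
      ⋃ j ∈ (Finset.univ.filter fun j => ((z j : Fin m) : ℕ) = 0), supp n N j := by
  obtain ⟨⟨kc, k0, k1, ks⟩, part, hov⟩ := hK
  intro x hx
  by_contra hc
  apply hx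
  simp only [mem_iUnion, Finset.mem_filter, Finset.mem_univ, true_and, exists_prop, not_exists,
    not_and] at hc
  have hx1 : ‖(x : E n)‖ ≤ 1 := (mem_sphere_zero_iff_norm.1 x.2).le
  have h1 : ∀ j, ((zet m (z j) : ℝ) : ℂ) * ((chi n ((N : ℝ) • (x : E n) - vec n N j) : ℝ) : ℂ) =
      ((chi n ((N : ℝ) • (x : E n) - vec n N j) : ℝ) : ℂ) := by
    intro j
    by_cases h : ((z j : Fin m) : ℕ) = 0
    · have h2 := hc j h
      simp only [supp, mem_ofPred_eq, ne_eq, not_not] at h2
      rw [h2]; simp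
    · unfold zet
      rw [if_neg h]; simp
  unfold Hz
  rw [Finset.sum_congr rfl fun j _ => h1 j, ← Complex.ofReal_sum, part n N x hx1]
  simp

end STEP

open STEP

theorem t_STEP (hK : S_KAP) (hH : S_HAT) (hO : S_ORTH) (hR : S_REP) (hI : S_INT) (hN : S_RAND)
    (hT : S_TRIG) : S_STEP := by
  classical
  intro n hn
  obtain ⟨K1, hK1, hsq⟩ := square hH hO hR hI hT n hn
  have hk : Continuous kap := hK.1.1.continuous
  have hn2 : (2 : ℝ) ≤ n := by exact_mod_cast hn
  set al : ℝ := ((n : ℝ) - 1) / 2 with hal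
  have hal1 : 1 / 2 ≤ al := by rw [hal]; linarith
  obtain ⟨Cr, hCr, hr⟩ := hN n al (by omega) (by linarith)
  set S : ℝ := (sigma n).real univ with hS
  have hS0 : 0 < S := sig_pos n (by omega)
  have hpi := Real.pi_pos
  set K2 : ℝ := K1 + (2 * Real.pi * S + S) with hK2
  have hK20 : 0 < K2 := by positivity
  set Cm : ℝ := 2 ^ (n + 2) * S + 2 with hCm
  have hCm0 : 0 < Cm := by positivity
  refine ⟨2 * Cm + 4 * Cr * K2 * Cm, by positivity, ?_⟩
  intro M hM φ hφ hb ε hε hε1 ρ hρ η hη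
  obtain ⟨K, c, et, hc1, hc2⟩ := approx φ hφ M hM hb ρ hρ (ε / 2) (by positivity)
  set m : ℕ := ⌈2 ^ (n + 2) * S / ε⌉₊ + 1 with hm
  have hm1 : 1 ≤ m := by omega
  have hmR : (1 : ℝ) ≤ m := by exact_mod_cast hm1
  have hm3 : 2 ^ (n + 2) * S / ε ≤ m := by
    rw [hm]; push_cast
    linarith [Nat.le_ceil (2 ^ (n + 2) * S / ε)]
  have hm4 : (m : ℝ) ≤ Cm / ε := by
    rw [hm]; push_cast
    have h1 := (Nat.ceil_lt_add_one (show 0 ≤ 2 ^ (n + 2) * S / ε by positivity)).le
    have h2 : (2 : ℝ) ≤ 2 / ε := by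
      rw [le_div_iff₀ hε]; linarith
    rw [hCm, add_div]
    linarith
  set B : ℝ := 2 * M with hB
  have hB0 : 0 < B := by positivity
  set V : ℝ := K2 * B with hV
  have hV0 : 0 < V := by positivity
  obtain ⟨N0, hN01, hN0⟩ := hsq K c et B hB0 hc1
  have hP : 0 < Cr * (m * V) := by positivity
  obtain ⟨N1, hN1⟩ := small al (η / (Cr * (m * V))) hal1 (by positivity)
  set N : ℕ := max N0 N1 with hNdef
  have hNN0 : N0 ≤ N := le_max_left _ _
  have hNN1 : N1 ≤ N := le_max_right _ _
  have hN1' : 1 ≤ N := hN01.trans hNN0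
  have hNR : (1 : ℝ) ≤ N := by exact_mod_cast hN1'
  have hbd : ∀ (z : (Fin n → Fin (2 * N + 4)) → Fin m) x, ‖Hz c et N m z x‖ ≤ m * B :=
    fun z x => Hz_le hK c et N m hm1 z B hB0.le hc1 x
  have hnorm : ∀ (z : (Fin n → Fin (2 * N + 4)) → Fin m),
      ∫ x, ‖Hz c et N m z x‖ ∂(sigma n) ≤ m * B * S := fun z =>
    int_norm_le (Hz_cont hk c et N m z).measurable (hbd z)
  obtain ⟨z, hz1, hz2⟩ := hr (Fin n → Fin (2 * N + 4)) m hm1 N V hNR hV0
    (fun j => ft (pc c et N j)) (fun j => (sigma n).real (supp n N j))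
    (fun j => measureReal_nonneg) (fun j => ft_cont (cont_int (pc_cont hk c et N j)))
    (by
      intro ξ
      refine (hN0 N hNN0 ξ).trans ?_
      have e1 : -(2 * al) = -((n : ℝ) - 1) := by rw [hal]; ring
      rw [e1]
      refine mul_le_mul_of_nonneg_right ?_ (by positivity)
      refine pow_le_pow_left₀ (by positivity) ?_ 2
      rw [hV]
      refine mul_le_mul_of_nonneg_right ?_ hB0.le
      rw [hK2]
      nlinarith [mul_pos hpi hS0])
    (by
      intro z ξ
      rw [← ft_Hz hk]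
      refine (ft_norm_le _ ξ).trans ((hnorm z).trans ?_)
      rw [hV, hK2, mul_assoc]
      refine mul_le_mul_of_nonneg_left ?_ (by positivity)
      nlinarith [mul_pos hpi hS0, mul_pos (mul_pos hpi hS0) hB0, mul_pos hK1 hB0])
    (by
      intro z ξ ξ'
      rw [← ft_Hz hk, ← ft_Hz hk]
      refine (ft_lip (cont_int (Hz_cont hk c et N m z)) ξ ξ').trans ?_
      refine mul_le_mul_of_nonneg_right ?_ (norm_nonneg _)
      calc 2 * Real.pi * ∫ x, ‖Hz c et N m z x‖ ∂(sigma n) ≤ 2 * Real.pi * (m * B * S) :=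
            mul_le_mul_of_nonneg_left (hnorm z) (by positivity)
        _ = m * (2 * Real.pi * S * B) := by ring
        _ ≤ m * V := by
            refine mul_le_mul_of_nonneg_left ?_ (by positivity)
            rw [hV]
            refine mul_le_mul_of_nonneg_right ?_ hB0.le
            rw [hK2]
            linarith)
  have hdec : ∀ ξ, ‖ft (Hz c et N m z) ξ‖ ≤
      Cr * (m * V) * (√(Real.log (2 + (N : ℝ) + ‖ξ‖)) * ((N : ℝ) + ‖ξ‖) ^ (-al)) := by
    intro ξ
    rw [ft_Hz hk, ← mul_assoc]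
    exact hz2 ξ
  refine ⟨Hz c et N m z, Hz_cont hk c et N m z, ?_, ?_, ?_, ?_⟩
  · intro x
    refine (hbd z x).trans ?_
    calc (m : ℝ) * B ≤ Cm / ε * B := mul_le_mul_of_nonneg_right hm4 hB0.le
      _ = 2 * Cm * M / ε := by rw [hB]; ring
      _ ≤ _ := by
        gcongr
        have : 0 < 4 * Cr * K2 * Cm := by positivity
        linarith
  · have hsub : {x | ρ < ‖φ x - Hz c et N m z x‖} ⊆ {x | ρ < ‖φ x - trig c et x‖} ∪
        {x : sphere (0 : E n) 1 | Hz c et N m z x ≠ trig c et x} := by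
      intro x hx
      rw [mem_union]
      by_cases h1 : Hz c et N m z x = trig c et x
      · left
        have hx' : ρ < ‖φ x - Hz c et N m z x‖ := hx
        rw [h1] at hx'
        exact hx'
      · right; exact h1
    refine (measure_mono hsub).trans ((measure_union_le _ _).trans ?_)
    have h2 : sigma n {x : sphere (0 : E n) 1 | Hz c et N m z x ≠ trig c et x} ≤
        ENNReal.ofReal (ε / 2) := by
      rw [← ENNReal.ofReal_toReal (measure_ne_top (sigma n)
        {x : sphere (0 : E n) 1 | Hz c et N m z x ≠ trig c et x})]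
      apply ENNReal.ofReal_le_ofReal
      change (sigma n).real _ ≤ _
      refine (measureReal_mono (Hz_ne hK c et N m z) (measure_ne_top _ _)).trans ?_
      refine (measureReal_biUnion_finset_le _ _).trans ?_
      rw [Finset.sum_filter]
      refine hz1.trans ?_
      rw [div_le_iff₀ (by linarith)]
      have h3 := supp_sum hK n N
      rw [div_le_iff₀ hε] at hm3
      rw [← hS] at h3
      have h4 : (2 : ℝ) ^ (n + 2) = 4 * 2 ^ n := by rw [pow_add]; ring
      rw [h4] at hm3
      linarith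
    calc _ ≤ ENNReal.ofReal (ε / 2) + ENNReal.ofReal (ε / 2) := add_le_add hc2 h2
      _ = ENNReal.ofReal ε := by
        rw [← ENNReal.ofReal_add (by positivity) (by positivity)]
        congr 1; ring
  · intro ξ
    refine (hdec ξ).trans ?_
    have h1 := dec_le hn (N : ℝ) hNR ξ
    have h0 : 0 ≤ dec n ξ := by unfold dec; positivity
    calc Cr * (m * V) * (√(Real.log (2 + (N : ℝ) + ‖ξ‖)) * ((N : ℝ) + ‖ξ‖) ^ (-al))
        ≤ Cr * (m * V) * (2 * dec n ξ) := mul_le_mul_of_nonneg_left h1 hP.le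
      _ = (4 * Cr * K2 * M) * m * dec n ξ := by rw [hV, hB]; ring
      _ ≤ (4 * Cr * K2 * M) * (Cm / ε) * dec n ξ := by gcongr
      _ = (4 * Cr * K2 * Cm) * M / ε * dec n ξ := by ring
      _ ≤ _ := by
        refine mul_le_mul_of_nonneg_right ?_ h0
        gcongr
        linarith
  · intro ξ
    refine (hdec ξ).trans ?_
    have h1 := mono (s' := (N : ℝ)) (s := (N : ℝ) + ‖ξ‖) (al := al) hNR
      (by linarith [norm_nonneg ξ]) hal1
    rw [← add_assoc] at h1
    have h2 := h1.trans (hN1 N hNN1)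
    calc _ ≤ Cr * (m * V) * (η / (Cr * (m * V))) := mul_le_mul_of_nonneg_left h2 hP.le
      _ = η := by field_simp

end Pool.Agent.H197.PD
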