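import Mathlib
import Pool.Agent.H197.PD.Stm
set_option autoImplicit false

/-!
# Project PD: Fourier representation of the cell function
-/

namespace Pool.Agent.H197.PD

open MeasureTheory Set Metric Complex Filter Topology
open scoped ENNReal NNReal RealInnerProductSpace BigOperators ContDiff FourierTransform SchwartzMap

namespace HAT

theorem kap_smooth : ContDiff ℝ ∞ kap := by
  unfold kap
  exact Real.smoothTransition.contDiff.sub
    (Real.smoothTransition.contDiff.comp (contDiff_id.sub contDiff_const))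

theorem kap_supp (t : ℝ) (h : kap t ≠ 0) : 0 < t ∧ t < 2 := by
  unfold kap at h
  constructor
  · by_contra hcon
    push Not at hcon
    apply h
    rw [Real.smoothTransition.zero_of_nonpos hcon,
      Real.smoothTransition.zero_of_nonpos (by linarith), sub_zero]
  · by_contra hcon
    push Not at hcon
    apply h
    rw [Real.smoothTransition.one_of_one_le (by linarith),
      Real.smoothTransition.one_of_one_le (by linarith), sub_self]

theorem chi_smooth (n : ℕ) : ContDiff ℝ ∞ (chi n) := by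
  unfold chi
  apply contDiff_prod
  intro i _
  exact kap_smooth.comp (EuclideanSpace.proj (𝕜 := ℝ) i : E n →L[ℝ] ℝ).contDiff

theorem chi_supp (n : ℕ) (x : E n) (h : chi n x ≠ 0) : ‖x‖ ≤ Real.sqrt (n * 4) := by
  unfold chi at h
  rw [Finset.prod_ne_zero_iff] at h
  rw [EuclideanSpace.norm_eq]
  apply Real.sqrt_le_sqrt
  calc ∑ i, ‖x i‖ ^ 2 ≤ ∑ _i : Fin n, (4 : ℝ) := by
        refine Finset.sum_le_sum fun i _ => ?_
        obtain ⟨h1, h2⟩ := kap_supp _ (h i (Finset.mem_univ i))
        rw [Real.norm_eq_abs, sq_abs]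
        nlinarith
    _ = n * 4 := by simp

theorem chiC_supp (n : ℕ) : HasCompactSupport (fun x : E n => ((chi n x : ℝ) : ℂ)) := by
  apply HasCompactSupport.intro (isCompact_closedBall (0 : E n) (Real.sqrt (n * 4)))
  intro x hx
  have h0 : chi n x = 0 := by
    by_contra hcon
    apply hx
    rw [mem_closedBall_zero_iff]
    exact chi_supp n x hcon
  rw [h0, Complex.ofReal_zero]

theorem chiC_smooth (n : ℕ) : ContDiff ℝ ∞ (fun x : E n => ((chi n x : ℝ) : ℂ)) :=
  Complex.ofRealCLM.contDiff.comp (chi_smooth n)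

/-- the cell function as a Schwartz function -/
noncomputable def sch (n : ℕ) : 𝓢(E n, ℂ) := (chiC_supp n).toSchwartzMap (chiC_smooth n)

theorem sch_apply (n : ℕ) (x : E n) : sch n x = ((chi n x : ℝ) : ℂ) := rfl

end HAT

open HAT in
theorem t_HAT : S_HAT := by
  intro n
  let h : 𝓢(E n, ℂ) := 𝓕 (sch n)
  refine ⟨h, h.continuous, ?_, ?_⟩
  · intro K
    set S : ℝ := 2 ^ K * (Finset.Iic ((K, 0) : ℕ × ℕ)).sup
      (fun m => SchwartzMap.seminorm ℝ m.1 m.2) h with hS
    have hS0 : 0 ≤ S := by
      have := SchwartzMap.one_add_le_sup_seminorm_apply (𝕜 := ℝ) (m := (K, 0)) (k := K) (n := 0)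
        le_rfl le_rfl h 0
      refine le_trans ?_ this
      positivity
    refine ⟨S + 1, by linarith, ?_⟩
    intro u
    have h1 := SchwartzMap.one_add_le_sup_seminorm_apply (𝕜 := ℝ) (m := (K, 0)) (k := K) (n := 0)
        le_rfl le_rfl h u
    rw [norm_iteratedFDeriv_zero] at h1
    have hpos : 0 < 1 + ‖u‖ := by positivity
    rw [Real.rpow_neg hpos.le, Real.rpow_natCast, ← div_eq_mul_inv, le_div_iff₀ (by positivity)]
    have h2 : (1 + ‖u‖) ^ K * ‖h u‖ ≤ S := h1
    linarith
  · intro y
    have h1 : 𝓕⁻ (𝓕 (sch n)) = sch n := FourierTransform.fourierInv_fourier_eq (sch n)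
    have h2 : (𝓕⁻ h : 𝓢(E n, ℂ)) y = sch n y := congrArg (fun f : 𝓢(E n, ℂ) => f y) h1
    rw [← sch_apply, ← h2, SchwartzMap.fourierInv_coe, Real.fourierInv_eq']
    refine integral_congr_ae (Filter.Eventually.of_forall fun u => ?_)
    show Complex.exp (((2 * Real.pi * ⟪u, y⟫ : ℝ) : ℂ) * I) • h u = _
    rw [smul_eq_mul, mul_comm]

end Pool.Agent.H197.PD
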