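import Mathlib
import Pool.Agent.H197.PD.Stm
set_option autoImplicit false

/-!
# PD-INT: the average of a decaying function over a ball (helper118)
-/

namespace Pool.Agent.H197.PD.INT

open MeasureTheory Set Metric Filter Topology

/-- the weight -/
noncomputable def Wt (n : ℕ) (u : E n) : ℝ := (1 + ‖u‖) ^ (-((n : ℝ) + 1))

/-- the local singularity -/
noncomputable def kk (n : ℕ) (u : E n) : ℝ :=
  (fun r : ℝ => if r < 1 then r ^ (-((n : ℝ) - 1)) else 0) ‖u‖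

theorem Wt_nonneg (n : ℕ) (u : E n) : 0 ≤ Wt n u :=
  Real.rpow_nonneg (by positivity) _

theorem Wt_le_one (n : ℕ) (u : E n) : Wt n u ≤ 1 := by
  refine Real.rpow_le_one_of_one_le_of_nonpos ?_ ?_
  · linarith [norm_nonneg u]
  · have : (0 : ℝ) ≤ n := Nat.cast_nonneg n
    linarith

theorem Wt_int (n : ℕ) : Integrable (Wt n) := by
  refine integrable_one_add_norm ?_
  rw [finrank_euclideanSpace_fin]
  linarith

theorem kk_nonneg (n : ℕ) (u : E n) : 0 ≤ kk n u := by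
  show 0 ≤ (if ‖u‖ < 1 then ‖u‖ ^ (-((n : ℝ) - 1)) else 0)
  split_ifs
  · exact Real.rpow_nonneg (norm_nonneg _) _
  · exact le_rfl

theorem kk_int {n : ℕ} (hn : 2 ≤ n) : Integrable (kk n) := by
  have : Nontrivial (E n) := by
    have h1 : 0 < Module.finrank ℝ (E n) := by
      rw [finrank_euclideanSpace_fin]
      omega
    exact Module.nontrivial_of_finrank_pos h1
  refine (integrable_fun_norm_addHaar (volume : Measure (E n))
    (f := fun r : ℝ => if r < 1 then r ^ (-((n : ℝ) - 1)) else 0)).2 ?_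
  rw [finrank_euclideanSpace_fin]
  have h1 : IntegrableOn (fun r : ℝ => (Set.Ioo (0 : ℝ) 1).indicator (fun _ => (1 : ℝ)) r)
      (Ioi 0) := by
    refine Integrable.integrableOn ?_
    rw [integrable_indicator_iff measurableSet_Ioo]
    exact integrableOn_const (by simp)
  refine h1.congr_fun ?_ measurableSet_Ioi
  intro r hr
  have hr0 : (0 : ℝ) < r := hr
  show (Set.Ioo (0 : ℝ) 1).indicator (fun _ => (1 : ℝ)) r =
    r ^ (n - 1) • (if r < 1 then r ^ (-((n : ℝ) - 1)) else 0)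
  by_cases h2 : r < 1
  · have hmem : r ∈ Set.Ioo (0 : ℝ) 1 := ⟨hr0, h2⟩
    rw [if_pos h2, Set.indicator_of_mem hmem, smul_eq_mul,
      ← Real.rpow_natCast, ← Real.rpow_add hr0]
    have h3 : ((n - 1 : ℕ) : ℝ) = (n : ℝ) - 1 := by
      rw [Nat.cast_sub (by omega)]
      norm_num
    rw [h3, add_neg_cancel, Real.rpow_zero]
  · rw [if_neg h2, Set.indicator_of_notMem (fun h => h2 h.2), smul_zero]

/-- squares of the decay -/
theorem sq_bd {n : ℕ} {G : E n → ℂ} {B R : ℝ}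
    (h2 : ∀ z, R ≤ ‖z‖ → ‖G z‖ ≤ B * ‖z‖ ^ (-(((n : ℝ) - 1) / 2))) {z : E n} (hz : R ≤ ‖z‖) :
    ‖G z‖ ^ 2 ≤ B ^ 2 * ‖z‖ ^ (-((n : ℝ) - 1)) := by
  have h3 : ‖G z‖ ^ 2 ≤ (B * ‖z‖ ^ (-(((n : ℝ) - 1) / 2))) ^ 2 :=
    pow_le_pow_left₀ (norm_nonneg _) (h2 z hz) 2
  refine h3.trans (le_of_eq ?_)
  rw [mul_pow]
  congr 1
  rw [← Real.rpow_natCast (‖z‖ ^ (-(((n : ℝ) - 1) / 2))) 2, ← Real.rpow_mul (norm_nonneg _)]
  congr 1
  push_cast
  ring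

theorem vol_ball {n : ℕ} (hn : 2 ≤ n) (x : E n) {r : ℝ} (hr : 0 ≤ r) :
    (volume : Measure (E n)).real (ball x r) =
      r ^ n * (volume : Measure (E n)).real (ball (0 : E n) 1) := by
  have : Nontrivial (E n) := by
    have h1 : 0 < Module.finrank ℝ (E n) := by
      rw [finrank_euclideanSpace_fin]
      omega
    exact Module.nontrivial_of_finrank_pos h1
  rw [Measure.real, Measure.addHaar_ball _ _ hr, ENNReal.toReal_mul,
    ENNReal.toReal_ofReal (by positivity), finrank_euclideanSpace_fin]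
  rfl

/-- the integrand with the weight `(1 + |u|)^(-(n+1))` is integrable -/
theorem gw_int {n : ℕ} {G : E n → ℂ} {B : ℝ} (hG : Continuous G) (h1 : ∀ z, ‖G z‖ ≤ B)
    (N : ℝ) (ξ : E n) : Integrable fun u => ‖G (ξ - N • u)‖ ^ 2 * Wt n u := by
  refine (Wt_int n).bdd_mul (c := B ^ 2) ?_ ?_
  · have h2 : Continuous fun u => ‖G (ξ - N • u)‖ ^ 2 := by fun_prop
    exact h2.aestronglyMeasurable
  · refine Filter.Eventually.of_forall fun u => ?_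
    rw [Real.norm_eq_abs, abs_of_nonneg (by positivity)]
    exact pow_le_pow_left₀ (norm_nonneg _) (h1 _) 2

/-- the pointwise estimate -/
theorem ptw {n : ℕ} (hn : 2 ≤ n) {G : E n → ℂ} {B R : ℝ} (hB : 0 < B)
    (h1 : ∀ z, ‖G z‖ ≤ B) (h2 : ∀ z, R ≤ ‖z‖ → ‖G z‖ ≤ B * ‖z‖ ^ (-(((n : ℝ) - 1) / 2)))
    {N : ℝ} (hN : 0 < N) (ξ u : E n) :
    ‖G (ξ - N • u)‖ ^ 2 * Wt n u ≤
      B ^ 2 * ((ball (N⁻¹ • ξ) (R / N)).indicator (fun _ => (1 : ℝ)) u +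
        N ^ (-((n : ℝ) - 1)) * (kk n (u - N⁻¹ • ξ) + Wt n u)) := by
  have hn1 : (2 : ℝ) ≤ n := by exact_mod_cast hn
  have hz : ‖ξ - N • u‖ = N * ‖u - N⁻¹ • ξ‖ := by
    have h3 : ξ - N • u = -(N • (u - N⁻¹ • ξ)) := by
      rw [smul_sub, smul_smul, mul_inv_cancel₀ hN.ne', one_smul]
      abel
    rw [h3, norm_neg, norm_smul, Real.norm_eq_abs, abs_of_pos hN]
  have hW0 := Wt_nonneg n u
  have hW1 := Wt_le_one n u
  have hk0 := kk_nonneg n (u - N⁻¹ • ξ)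
  have hNp : 0 ≤ N ^ (-((n : ℝ) - 1)) := Real.rpow_nonneg hN.le _
  by_cases hu : u ∈ ball (N⁻¹ • ξ) (R / N)
  · rw [Set.indicator_of_mem hu]
    have h3 : ‖G (ξ - N • u)‖ ^ 2 ≤ B ^ 2 := pow_le_pow_left₀ (norm_nonneg _) (h1 _) 2
    have h4 : ‖G (ξ - N • u)‖ ^ 2 * Wt n u ≤ B ^ 2 * 1 :=
      mul_le_mul h3 hW1 hW0 (by positivity)
    refine h4.trans (mul_le_mul_of_nonneg_left ?_ (by positivity))
    have : 0 ≤ N ^ (-((n : ℝ) - 1)) * (kk n (u - N⁻¹ • ξ) + Wt n u) :=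
      mul_nonneg hNp (by linarith)
    linarith
  · rw [Set.indicator_of_notMem hu, zero_add]
    have h3 : R ≤ ‖ξ - N • u‖ := by
      rw [mem_ball, dist_eq_norm, not_lt, div_le_iff₀ hN] at hu
      rw [hz]
      linarith
    have h4 := sq_bd h2 h3
    rw [hz, Real.mul_rpow hN.le (norm_nonneg _)] at h4
    have h5 : ‖u - N⁻¹ • ξ‖ ^ (-((n : ℝ) - 1)) * Wt n u ≤ kk n (u - N⁻¹ • ξ) + Wt n u := by
      by_cases h6 : ‖u - N⁻¹ • ξ‖ < 1
      · have h7 : kk n (u - N⁻¹ • ξ) = ‖u - N⁻¹ • ξ‖ ^ (-((n : ℝ) - 1)) := if_pos h6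
        rw [h7]
        have h8 : 0 ≤ ‖u - N⁻¹ • ξ‖ ^ (-((n : ℝ) - 1)) := Real.rpow_nonneg (norm_nonneg _) _
        nlinarith
      · have h7 : ‖u - N⁻¹ • ξ‖ ^ (-((n : ℝ) - 1)) ≤ 1 :=
          Real.rpow_le_one_of_one_le_of_nonpos (not_lt.1 h6) (by linarith)
        have h8 : ‖u - N⁻¹ • ξ‖ ^ (-((n : ℝ) - 1)) * Wt n u ≤ 1 * Wt n u :=
          mul_le_mul_of_nonneg_right h7 hW0
        linarith
    calc ‖G (ξ - N • u)‖ ^ 2 * Wt n u
        ≤ B ^ 2 * (N ^ (-((n : ℝ) - 1)) * ‖u - N⁻¹ • ξ‖ ^ (-((n : ℝ) - 1))) * Wt n u :=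
          mul_le_mul_of_nonneg_right h4 hW0
      _ = B ^ 2 * (N ^ (-((n : ℝ) - 1)) * (‖u - N⁻¹ • ξ‖ ^ (-((n : ℝ) - 1)) * Wt n u)) := by ring
      _ ≤ _ := mul_le_mul_of_nonneg_left (mul_le_mul_of_nonneg_left h5 hNp) (by positivity)

/-- the constant -/
noncomputable def C1 (n : ℕ) : ℝ :=
  (volume : Measure (E n)).real (ball (0 : E n) 1) + (∫ u, kk n u) + ∫ u, Wt n u

theorem star {n : ℕ} (hn : 2 ≤ n) {G : E n → ℂ} {B R : ℝ} (hB : 0 < B) (hR : 1 ≤ R)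
    (h1 : ∀ z, ‖G z‖ ≤ B) (h2 : ∀ z, R ≤ ‖z‖ → ‖G z‖ ≤ B * ‖z‖ ^ (-(((n : ℝ) - 1) / 2)))
    {N : ℝ} (hN : R ^ n ≤ N) (ξ : E n) :
    ∫ u, ‖G (ξ - N • u)‖ ^ 2 * Wt n u ≤ C1 n * B ^ 2 * N ^ (-((n : ℝ) - 1)) := by
  have hN1 : 1 ≤ N := (one_le_pow₀ hR).trans hN
  have hN0 : 0 < N := by linarith
  set x₀ := N⁻¹ • ξ with hx₀
  have hi1 : Integrable ((ball x₀ (R / N)).indicator (fun _ => (1 : ℝ)) : E n → ℝ) := by
    rw [integrable_indicator_iff measurableSet_ball]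
    exact integrableOn_const measure_ball_lt_top.ne
  have hi2 : Integrable fun u => kk n (u - x₀) := (kk_int hn).comp_sub_right x₀
  have hi3 := Wt_int n
  have hi4 : Integrable fun u => N ^ (-((n : ℝ) - 1)) * (kk n (u - x₀) + Wt n u) :=
    (hi2.add hi3).const_mul _
  have hi5 : Integrable fun u => B ^ 2 * ((ball x₀ (R / N)).indicator (fun _ => (1 : ℝ)) u +
      N ^ (-((n : ℝ) - 1)) * (kk n (u - x₀) + Wt n u)) := (hi1.add hi4).const_mul _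
  have hle : ∫ u, ‖G (ξ - N • u)‖ ^ 2 * Wt n u ≤
      ∫ u, B ^ 2 * ((ball x₀ (R / N)).indicator (fun _ => (1 : ℝ)) u +
        N ^ (-((n : ℝ) - 1)) * (kk n (u - x₀) + Wt n u)) := by
    refine integral_mono_of_nonneg (Filter.Eventually.of_forall fun u => ?_) hi5
      (Filter.Eventually.of_forall fun u => ptw hn hB h1 h2 hN0 ξ u)
    exact mul_nonneg (by positivity) (Wt_nonneg n u)
  refine hle.trans ?_
  have hone : ∫ u, (ball x₀ (R / N)).indicator (fun _ => (1 : ℝ)) u =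
      (volume : Measure (E n)).real (ball x₀ (R / N)) := integral_indicator_one measurableSet_ball
  rw [integral_const_mul, integral_add hi1 hi4, integral_const_mul, integral_add hi2 hi3,
    integral_sub_right_eq_self (fun u => kk n u) x₀, hone, vol_ball hn x₀ (by positivity)]
  have h3 : (R / N) ^ n ≤ N ^ (-((n : ℝ) - 1)) := by
    rw [div_pow, div_le_iff₀ (by positivity)]
    have h4 : N ^ (-((n : ℝ) - 1)) * N ^ n = N := by
      rw [← Real.rpow_natCast N n, ← Real.rpow_add hN0]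
      have h5 : -((n : ℝ) - 1) + n = 1 := by ring
      rw [h5, Real.rpow_one]
    rw [h4]
    exact hN
  have h4 : (R / N) ^ n * (volume : Measure (E n)).real (ball (0 : E n) 1) ≤
      N ^ (-((n : ℝ) - 1)) * (volume : Measure (E n)).real (ball (0 : E n) 1) :=
    mul_le_mul_of_nonneg_right h3 measureReal_nonneg
  calc B ^ 2 * ((R / N) ^ n * (volume : Measure (E n)).real (ball (0 : E n) 1) +
        N ^ (-((n : ℝ) - 1)) * ((∫ u, kk n u) + ∫ u, Wt n u))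
      ≤ B ^ 2 * (N ^ (-((n : ℝ) - 1)) * (volume : Measure (E n)).real (ball (0 : E n) 1) +
        N ^ (-((n : ℝ) - 1)) * ((∫ u, kk n u) + ∫ u, Wt n u)) :=
        mul_le_mul_of_nonneg_left (by linarith) (by positivity)
    _ = _ := by unfold C1; ring

theorem weight_le {n : ℕ} (u : E n) :
    (1 + ‖u‖) ^ (-(2 * (n : ℝ))) = (1 + ‖u‖) ^ (-((n : ℝ) - 1)) * Wt n u := by
  unfold Wt
  rw [← Real.rpow_add (by positivity)]
  congr 1
  ring

theorem weight_le' {n : ℕ} (hn : 2 ≤ n) (u : E n) : (1 + ‖u‖) ^ (-(2 * (n : ℝ))) ≤ Wt n u := by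
  have hn1 : (2 : ℝ) ≤ n := by exact_mod_cast hn
  rw [weight_le]
  have h1 : (1 + ‖u‖) ^ (-((n : ℝ) - 1)) ≤ 1 :=
    Real.rpow_le_one_of_one_le_of_nonpos (by linarith [norm_nonneg u]) (by linarith)
  calc _ ≤ 1 * Wt n u := mul_le_mul_of_nonneg_right h1 (Wt_nonneg n u)
    _ = _ := one_mul _

theorem C1_pos {n : ℕ} (hn : 2 ≤ n) : 0 < C1 n := by
  have h1 : 0 < (volume : Measure (E n)).real (ball (0 : E n) 1) :=
    ENNReal.toReal_pos (measure_ball_pos _ _ one_pos).ne' measure_ball_lt_top.ne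
  have h2 : 0 ≤ ∫ u, kk n u := integral_nonneg (kk_nonneg n)
  have h3 : 0 ≤ ∫ u, Wt n u := integral_nonneg (Wt_nonneg n)
  unfold C1
  linarith

end Pool.Agent.H197.PD.INT

namespace Pool.Agent.H197.PD

open MeasureTheory Set Metric Filter Topology
open Pool.Agent.H197.PD.INT

theorem t_INT : S_INT := by
  intro n hn
  have hn1 : (2 : ℝ) ≤ n := by exact_mod_cast hn
  have hC1 := C1_pos hn
  have hw : 0 ≤ ∫ u, Wt n u := integral_nonneg (Wt_nonneg n)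
  refine ⟨3 ^ ((n : ℝ) - 1) * ((∫ u, Wt n u) + C1 n), by positivity, ?_⟩
  intro G B R hG hB hR h1 h2 N hN ξ
  have hN1 : 1 ≤ N := (one_le_pow₀ hR).trans hN
  have hN0 : 0 < N := by linarith
  have hRN : R ≤ N := (le_self_pow₀ hR (by omega)).trans hN
  have hstar := star hn hB hR h1 h2 hN ξ
  have hgi := gw_int hG h1 N ξ
  have hsum0 : 0 < N + ‖ξ‖ := by positivity
  -- the comparison of the powers
  have hcmp : ∀ x : ℝ, (N + ‖ξ‖) / 3 ≤ x →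
      x ^ (-((n : ℝ) - 1)) ≤ 3 ^ ((n : ℝ) - 1) * (N + ‖ξ‖) ^ (-((n : ℝ) - 1)) := by
    intro x hx
    have h3 : x ^ (-((n : ℝ) - 1)) ≤ ((N + ‖ξ‖) / 3) ^ (-((n : ℝ) - 1)) :=
      Real.rpow_le_rpow_of_nonpos (by positivity) hx (by linarith)
    refine h3.trans (le_of_eq ?_)
    rw [Real.div_rpow hsum0.le (by norm_num), Real.rpow_neg (by norm_num : (0 : ℝ) ≤ 3), div_eq_mul_inv,
      inv_inv, mul_comm]
  by_cases hξ : ‖ξ‖ ≤ 2 * N
  · have h3 : ∫ u, ‖G (ξ - N • u)‖ ^ 2 * (1 + ‖u‖) ^ (-(2 * (n : ℝ))) ≤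
        ∫ u, ‖G (ξ - N • u)‖ ^ 2 * Wt n u := by
      refine integral_mono_of_nonneg (Filter.Eventually.of_forall fun u => ?_) hgi
        (Filter.Eventually.of_forall fun u => ?_)
      · exact mul_nonneg (by positivity) (Real.rpow_nonneg (by positivity) _)
      · exact mul_le_mul_of_nonneg_left (weight_le' hn u) (by positivity)
    refine h3.trans (hstar.trans ?_)
    have h4 := hcmp N (by linarith)
    calc C1 n * B ^ 2 * N ^ (-((n : ℝ) - 1))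
        ≤ C1 n * B ^ 2 * (3 ^ ((n : ℝ) - 1) * (N + ‖ξ‖) ^ (-((n : ℝ) - 1))) :=
          mul_le_mul_of_nonneg_left h4 (by positivity)
      _ = 3 ^ ((n : ℝ) - 1) * (0 + C1 n) * B ^ 2 * (N + ‖ξ‖) ^ (-((n : ℝ) - 1)) := by ring
      _ ≤ _ := by
          refine mul_le_mul_of_nonneg_right ?_ (by positivity)
          refine mul_le_mul_of_nonneg_right ?_ (by positivity)
          refine mul_le_mul_of_nonneg_left ?_ (by positivity)
          linarith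
  · have hξ' : 2 * N < ‖ξ‖ := not_le.1 hξ
    have hξ0 : 0 < ‖ξ‖ := by linarith
    have hpt : ∀ u, ‖G (ξ - N • u)‖ ^ 2 * (1 + ‖u‖) ^ (-(2 * (n : ℝ))) ≤
        B ^ 2 * (‖ξ‖ / 2) ^ (-((n : ℝ) - 1)) * Wt n u +
          (‖ξ‖ / (2 * N)) ^ (-((n : ℝ) - 1)) * (‖G (ξ - N • u)‖ ^ 2 * Wt n u) := by
      intro u
      have hW0 := Wt_nonneg n u
      have hp1 : 0 ≤ B ^ 2 * (‖ξ‖ / 2) ^ (-((n : ℝ) - 1)) * Wt n u := by positivity
      have hp2 : 0 ≤ (‖ξ‖ / (2 * N)) ^ (-((n : ℝ) - 1)) * (‖G (ξ - N • u)‖ ^ 2 * Wt n u) := by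
        positivity
      by_cases hu : ‖u‖ < ‖ξ‖ / (2 * N)
      · have h3 : ‖ξ‖ / 2 ≤ ‖ξ - N • u‖ := by
          have h4 : ‖ξ‖ - ‖N • u‖ ≤ ‖ξ - N • u‖ := norm_sub_norm_le _ _
          rw [norm_smul, Real.norm_eq_abs, abs_of_pos hN0] at h4
          rw [lt_div_iff₀ (by positivity)] at hu
          nlinarith
        have h4 : R ≤ ‖ξ - N • u‖ := by linarith
        have h5 := sq_bd h2 h4
        have h6 : ‖ξ - N • u‖ ^ (-((n : ℝ) - 1)) ≤ (‖ξ‖ / 2) ^ (-((n : ℝ) - 1)) :=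
          Real.rpow_le_rpow_of_nonpos (by positivity) h3 (by linarith)
        have h7 : ‖G (ξ - N • u)‖ ^ 2 ≤ B ^ 2 * (‖ξ‖ / 2) ^ (-((n : ℝ) - 1)) :=
          h5.trans (mul_le_mul_of_nonneg_left h6 (by positivity))
        have h8 : ‖G (ξ - N • u)‖ ^ 2 * (1 + ‖u‖) ^ (-(2 * (n : ℝ))) ≤
            B ^ 2 * (‖ξ‖ / 2) ^ (-((n : ℝ) - 1)) * Wt n u :=
          mul_le_mul h7 (weight_le' hn u) (Real.rpow_nonneg (by positivity) _) (by positivity)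
        linarith
      · have h3 : ‖ξ‖ / (2 * N) ≤ 1 + ‖u‖ := by linarith [not_lt.1 hu]
        have h4 : (1 + ‖u‖) ^ (-((n : ℝ) - 1)) ≤ (‖ξ‖ / (2 * N)) ^ (-((n : ℝ) - 1)) :=
          Real.rpow_le_rpow_of_nonpos (by positivity) h3 (by linarith)
        have h5 : ‖G (ξ - N • u)‖ ^ 2 * (1 + ‖u‖) ^ (-(2 * (n : ℝ))) ≤
            (‖ξ‖ / (2 * N)) ^ (-((n : ℝ) - 1)) * (‖G (ξ - N • u)‖ ^ 2 * Wt n u) := by
          rw [weight_le]
          calc ‖G (ξ - N • u)‖ ^ 2 * ((1 + ‖u‖) ^ (-((n : ℝ) - 1)) * Wt n u)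
              = (1 + ‖u‖) ^ (-((n : ℝ) - 1)) * (‖G (ξ - N • u)‖ ^ 2 * Wt n u) := by ring
            _ ≤ _ := mul_le_mul_of_nonneg_right h4 (by positivity)
        linarith
    have hi1 : Integrable fun u => B ^ 2 * (‖ξ‖ / 2) ^ (-((n : ℝ) - 1)) * Wt n u :=
      (Wt_int n).const_mul _
    have hi2 : Integrable fun u =>
        (‖ξ‖ / (2 * N)) ^ (-((n : ℝ) - 1)) * (‖G (ξ - N • u)‖ ^ 2 * Wt n u) := hgi.const_mul _
    have h3 : ∫ u, ‖G (ξ - N • u)‖ ^ 2 * (1 + ‖u‖) ^ (-(2 * (n : ℝ))) ≤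
        ∫ u, (B ^ 2 * (‖ξ‖ / 2) ^ (-((n : ℝ) - 1)) * Wt n u +
          (‖ξ‖ / (2 * N)) ^ (-((n : ℝ) - 1)) * (‖G (ξ - N • u)‖ ^ 2 * Wt n u)) := by
      refine integral_mono_of_nonneg (Filter.Eventually.of_forall fun u => ?_) (hi1.add hi2)
        (Filter.Eventually.of_forall hpt)
      exact mul_nonneg (by positivity) (Real.rpow_nonneg (by positivity) _)
    rw [integral_add hi1 hi2, integral_const_mul, integral_const_mul] at h3
    refine h3.trans ?_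
    have h4 : (‖ξ‖ / (2 * N)) ^ (-((n : ℝ) - 1)) * N ^ (-((n : ℝ) - 1)) =
        (‖ξ‖ / 2) ^ (-((n : ℝ) - 1)) := by
      rw [← Real.mul_rpow (by positivity) hN0.le]
      congr 1
      field_simp
    have h5 : (‖ξ‖ / (2 * N)) ^ (-((n : ℝ) - 1)) * ∫ u, ‖G (ξ - N • u)‖ ^ 2 * Wt n u ≤
        (‖ξ‖ / 2) ^ (-((n : ℝ) - 1)) * (C1 n * B ^ 2) := by
      calc _ ≤ (‖ξ‖ / (2 * N)) ^ (-((n : ℝ) - 1)) * (C1 n * B ^ 2 * N ^ (-((n : ℝ) - 1))) :=
            mul_le_mul_of_nonneg_left hstar (by positivity)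
        _ = ((‖ξ‖ / (2 * N)) ^ (-((n : ℝ) - 1)) * N ^ (-((n : ℝ) - 1))) * (C1 n * B ^ 2) := by ring
        _ = _ := by rw [h4]
    have h6 := hcmp (‖ξ‖ / 2) (by linarith)
    calc B ^ 2 * (‖ξ‖ / 2) ^ (-((n : ℝ) - 1)) * (∫ u, Wt n u) +
          (‖ξ‖ / (2 * N)) ^ (-((n : ℝ) - 1)) * ∫ u, ‖G (ξ - N • u)‖ ^ 2 * Wt n u
        ≤ B ^ 2 * (‖ξ‖ / 2) ^ (-((n : ℝ) - 1)) * (∫ u, Wt n u) +
          (‖ξ‖ / 2) ^ (-((n : ℝ) - 1)) * (C1 n * B ^ 2) := by linarith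
      _ = (‖ξ‖ / 2) ^ (-((n : ℝ) - 1)) * (((∫ u, Wt n u) + C1 n) * B ^ 2) := by ring
      _ ≤ (3 ^ ((n : ℝ) - 1) * (N + ‖ξ‖) ^ (-((n : ℝ) - 1))) *
          (((∫ u, Wt n u) + C1 n) * B ^ 2) :=
          mul_le_mul_of_nonneg_right h6 (by positivity)
      _ = _ := by ring

end Pool.Agent.H197.PD
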