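import Mathlib
import Pool.Agent.H197.PD.Stm3

set_option autoImplicit false

/-!
# Project PD: limit of `u^((k-1)/2)` times the Laplace transform of the symbol
-/

namespace Pool.Agent.H197.PD

open MeasureTheory Set Metric Complex Filter Topology
open scoped ENNReal NNReal RealInnerProductSpace BigOperators ContDiff

namespace LASY

theorem int_pow (s : ℝ) (hs : -1 < s) (c : ℝ) :
    IntegrableOn (fun t : ℝ => Real.exp (-t) * (c * t ^ s)) (Ioi 0) := by
  have h1 := (Real.GammaIntegral_convergent (s := s + 1) (by linarith)).const_mul c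
  refine h1.congr (Eventually.of_forall fun t => ?_)
  simp only [add_sub_cancel_right]
  ring

theorem dom (a : ℝ) (ha : -1 < a) : ∃ bd : ℝ → ℝ, IntegrableOn bd (Ioi 0) ∧
    ∀ t : ℝ, 0 < t → ∀ r : ℝ, 2 * t ≤ r → r ≤ t ^ 2 + 2 * t → Real.exp (-t) * r ^ a ≤ bd t := by
  rcases le_or_gt 0 a with h0 | h0
  · refine ⟨fun t => Real.exp (-t) * (3 ^ a * t ^ (2 * a)) + Real.exp (-t) * (3 ^ a * t ^ a),
      (int_pow _ (by linarith) _).add (int_pow _ ha _), ?_⟩
    intro t ht r h1 h2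
    have hr : 0 ≤ r := by linarith
    have h5 : (0 : ℝ) ≤ 3 ^ a * t ^ a := by positivity
    have h6 : (0 : ℝ) ≤ 3 ^ a * t ^ (2 * a) := by positivity
    have h3 : r ^ a ≤ 3 ^ a * t ^ (2 * a) + 3 ^ a * t ^ a := by
      rcases le_or_gt 1 t with h4 | h4
      · have h7 : r ≤ 3 * t ^ 2 := by nlinarith
        have h8 : r ^ a ≤ (3 * t ^ 2) ^ a := Real.rpow_le_rpow hr h7 h0
        rw [Real.mul_rpow (by norm_num) (by positivity), ← Real.rpow_natCast t 2,
          ← Real.rpow_mul ht.le] at h8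
        push_cast at h8
        linarith
      · have h7 : r ≤ 3 * t := by nlinarith
        have h8 : r ^ a ≤ (3 * t) ^ a := Real.rpow_le_rpow hr h7 h0
        rw [Real.mul_rpow (by norm_num) ht.le] at h8
        linarith
    calc Real.exp (-t) * r ^ a ≤ Real.exp (-t) * (3 ^ a * t ^ (2 * a) + 3 ^ a * t ^ a) :=
          mul_le_mul_of_nonneg_left h3 (Real.exp_pos _).le
      _ = _ := by ring
  · refine ⟨fun t => Real.exp (-t) * (2 ^ a * t ^ a), int_pow _ ha _, ?_⟩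
    intro t ht r h1 h2
    refine mul_le_mul_of_nonneg_left ?_ (Real.exp_pos _).le
    have h8 : r ^ a ≤ (2 * t) ^ a := Real.rpow_le_rpow_of_nonpos (by positivity) h1 h0.le
    rwa [Real.mul_rpow (by norm_num) ht.le] at h8

theorem lim_aux (a : ℝ) (ha : -1 < a) :
    Tendsto (fun u : ℝ => ∫ t in Ioi (0 : ℝ), ((Real.exp (-t) : ℝ) : ℂ) *
      (((t ^ 2 / u : ℝ) : ℂ) - 2 * I * (t : ℂ)) ^ ((a : ℝ) : ℂ)) atTop
      (𝓝 (∫ t in Ioi (0 : ℝ), ((Real.exp (-t) : ℝ) : ℂ) *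
        (((0 : ℝ) : ℂ) - 2 * I * (t : ℂ)) ^ ((a : ℝ) : ℂ))) := by
  obtain ⟨bd, hbd, hb⟩ := dom a ha
  refine tendsto_integral_filter_of_dominated_convergence bd ?_ ?_ hbd ?_
  · refine Eventually.of_forall fun u => Measurable.aestronglyMeasurable ?_
    fun_prop
  · filter_upwards [eventually_ge_atTop (1 : ℝ)] with u hu
    rw [ae_restrict_iff' measurableSet_Ioi]
    refine Eventually.of_forall fun t ht => ?_
    rw [mem_Ioi] at ht
    rw [norm_mul, Complex.norm_real, Real.norm_of_nonneg (Real.exp_pos _).le,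
      Complex.norm_cpow_real]
    have hn : ‖(2 * I * (t : ℂ) : ℂ)‖ = 2 * t := by
      rw [norm_mul, norm_mul, Complex.norm_I, Complex.norm_real, Real.norm_of_nonneg ht.le]
      norm_num
    refine hb t ht _ ?_ ?_
    · have h1 := Complex.abs_im_le_norm (((t ^ 2 / u : ℝ) : ℂ) - 2 * I * (t : ℂ))
      have h2 : (((t ^ 2 / u : ℝ) : ℂ) - 2 * I * (t : ℂ)).im = -(2 * t) := by
        rw [Complex.sub_im, Complex.ofReal_im, zero_sub]
        congr 1
        simp
      rw [h2, abs_neg, abs_of_nonneg (by positivity)] at h1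
      exact h1
    · refine (norm_sub_le _ _).trans ?_
      rw [hn, Complex.norm_real, Real.norm_of_nonneg (by positivity)]
      have h3 : t ^ 2 / u ≤ t ^ 2 := div_le_self (by positivity) hu
      linarith
  · rw [ae_restrict_iff' measurableSet_Ioi]
    refine Eventually.of_forall fun t ht => ?_
    rw [mem_Ioi] at ht
    refine Tendsto.const_mul _ ?_
    have h1 : Tendsto (fun u : ℝ => ((t ^ 2 / u : ℝ) : ℂ) - 2 * I * (t : ℂ)) atTop
        (𝓝 (((0 : ℝ) : ℂ) - 2 * I * (t : ℂ))) := by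
      refine Tendsto.sub_const ?_ _
      exact (Complex.continuous_ofReal.tendsto 0).comp (tendsto_const_nhds.div_atTop tendsto_id)
    have h2 : (((0 : ℝ) : ℂ) - 2 * I * (t : ℂ)) ∈ Complex.slitPlane := by
      rw [Complex.mem_slitPlane_iff]
      right
      rw [Complex.sub_im, Complex.ofReal_im, zero_sub]
      simp
      exact ht.ne'
    exact (continuousAt_cpow_const h2).tendsto.comp h1

theorem scale (k : ℕ) {u t : ℝ} (hu : 0 < u) (ht : 0 < t) :
    ((u ^ (((k : ℝ) - 3) / 2) : ℝ) : ℂ) * Pool.Agent.H438R2.BR.sy k (u⁻¹ * t) =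
      (((t ^ 2 / u : ℝ) : ℂ) - 2 * I * (t : ℂ)) ^ ((((k : ℝ) - 3) / 2 : ℝ) : ℂ) := by
  have hne : ((((u⁻¹ * t : ℝ) : ℂ) ^ 2 - 2 * I * ((u⁻¹ * t : ℝ) : ℂ))) ≠ 0 := by
    intro h
    have h2 := congrArg Complex.im h
    rw [← Complex.ofReal_pow, Complex.sub_im, Complex.ofReal_im, zero_sub] at h2
    simp at h2
    rcases h2 with h2 | h2
    · exact hu.ne' h2
    · exact ht.ne' h2
  have h1 : (((t ^ 2 / u : ℝ) : ℂ) - 2 * I * (t : ℂ)) =
      (u : ℂ) * ((((u⁻¹ * t : ℝ) : ℂ) ^ 2 - 2 * I * ((u⁻¹ * t : ℝ) : ℂ))) := by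
    have hu' : (u : ℂ) ≠ 0 := by exact_mod_cast hu.ne'
    push_cast
    field_simp
  have hu' : (u : ℂ) ≠ 0 := by exact_mod_cast hu.ne'
  rw [h1, Complex.cpow_def_of_ne_zero (mul_ne_zero hu' hne), Complex.log_ofReal_mul hu hne,
    add_mul, Complex.exp_add, Pool.Agent.H438R2.BR.sy, Complex.cpow_def_of_ne_zero hne]
  congr 1
  rw [Complex.ofReal_cpow hu.le, Complex.cpow_def_of_ne_zero hu', Complex.ofReal_log hu.le]

end LASY

theorem t_LASY : S_LASY := by
  intro k hk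
  have hk' : (2 : ℝ) ≤ k := by exact_mod_cast hk
  have h1 := LASY.lim_aux (((k : ℝ) - 3) / 2) (by linarith)
  refine ⟨_, h1.congr' ?_⟩
  filter_upwards [eventually_gt_atTop (0 : ℝ)] with u hu
  have h2 := integral_comp_mul_left_Ioi (fun y : ℝ => ((Real.exp (-(u * y)) : ℝ) : ℂ) *
    Pool.Agent.H438R2.BR.sy k y) 0 (inv_pos.2 hu)
  rw [mul_zero, inv_inv] at h2
  have h3 : ((u ^ (((k : ℝ) - 1) / 2) : ℝ) : ℂ) =
      ((u ^ (((k : ℝ) - 3) / 2) : ℝ) : ℂ) * (u : ℂ) := by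
    rw [← Complex.ofReal_mul]
    congr 1
    have h4 : ((k : ℝ) - 1) / 2 = ((k : ℝ) - 3) / 2 + 1 := by ring
    rw [h4, Real.rpow_add hu, Real.rpow_one]
  change _ = _ * ∫ y in Ioi (0 : ℝ), ((Real.exp (-(u * y)) : ℝ) : ℂ) *
    Pool.Agent.H438R2.BR.sy k y
  rw [h3, mul_assoc, ← Complex.real_smul (x := u), ← h2, ← integral_const_mul]
  refine setIntegral_congr_fun measurableSet_Ioi fun t ht => ?_
  rw [mem_Ioi] at ht
  have h5 : u * (u⁻¹ * t) = t := by
    rw [← mul_assoc, mul_inv_cancel₀ hu.ne', one_mul]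
  change ((Real.exp (-t) : ℝ) : ℂ) * _ = ((u ^ (((k : ℝ) - 3) / 2) : ℝ) : ℂ) *
    (((Real.exp (-(u * (u⁻¹ * t))) : ℝ) : ℂ) * Pool.Agent.H438R2.BR.sy k (u⁻¹ * t))
  rw [h5, ← LASY.scale k hu ht]
  ring

end Pool.Agent.H197.PD
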