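import Mathlib
import Pool.Agent.H197.PD.Stm
set_option autoImplicit false

namespace Pool.Agent.H197.PD.ORTH

open MeasureTheory Set Metric Complex Filter Topology
open scoped ENNReal NNReal RealInnerProductSpace BigOperators ContDiff

/-- the unit cube with Lebesgue measure -/
noncomputable def mu (n : ℕ) : Measure (Fin n → ℝ) :=
  Measure.pi (fun _ => (volume : Measure ℝ).restrict (Ioc (0 : ℝ) 1))

instance (n : ℕ) : IsProbabilityMeasure (mu n) := by
  have : IsProbabilityMeasure ((volume : Measure ℝ).restrict (Ioc (0 : ℝ) 1)) := by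
    refine ⟨?_⟩
    simp
  unfold mu
  infer_instance

/-- integral of an integer character over `(0, 1]` -/
lemma one_dim (a : ℤ) (ha : a ≠ 0) :
    ∫ t : ℝ, Complex.exp ((2 * Real.pi * a * I : ℂ) * (t : ℂ))
      ∂((volume : Measure ℝ).restrict (Ioc (0 : ℝ) 1)) = 0 := by
  have hne : (2 * Real.pi * a * I : ℂ) ≠ 0 := by
    have h1 : (Real.pi : ℂ) ≠ 0 := by exact_mod_cast Real.pi_ne_zero
    have h2 : (a : ℂ) ≠ 0 := by exact_mod_cast ha
    exact mul_ne_zero (mul_ne_zero (mul_ne_zero two_ne_zero h1) h2) I_ne_zero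
  rw [← intervalIntegral.integral_of_le (zero_le_one), integral_exp_mul_complex hne]
  have : Complex.exp ((2 * Real.pi * a * I : ℂ) * ((1 : ℝ) : ℂ)) = 1 := by
    rw [Complex.exp_eq_one_iff]
    exact ⟨a, by push_cast; ring⟩
  rw [this]
  simp

/-- integral of an integer character over the cube -/
lemma cube_int (n : ℕ) (a : Fin n → ℤ) :
    ∫ t, Complex.exp ((2 * Real.pi * I : ℂ) * (∑ i, (a i : ℂ) * (t i : ℂ))) ∂(mu n) =
      if a = 0 then 1 else 0 := by
  have h1 : ∀ t : Fin n → ℝ, Complex.exp ((2 * Real.pi * I : ℂ) * (∑ i, (a i : ℂ) * (t i : ℂ))) =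
      ∏ i, Complex.exp ((2 * Real.pi * (a i) * I : ℂ) * (t i : ℂ)) := by
    intro t
    rw [← Complex.exp_sum, Finset.mul_sum]
    congr 1
    refine Finset.sum_congr rfl fun i _ => ?_
    ring
  simp_rw [h1]
  unfold mu
  rw [integral_fintype_prod_eq_prod (𝕜 := ℂ)
    (fun i (t : ℝ) => Complex.exp ((2 * Real.pi * (a i) * I : ℂ) * (t : ℂ)))]
  by_cases h : a = 0
  · subst h
    simp
  · rw [if_neg h]
    obtain ⟨i, hi⟩ := Function.ne_iff.1 h
    exact Finset.prod_eq_zero (Finset.mem_univ i) (one_dim (a i) (by simpa using hi))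

/-- the integer vector as a point of the space -/
noncomputable def pt {n : ℕ} (a : Fin n → ℤ) : E n := WithLp.toLp 2 (fun i => ((a i : ℤ) : ℝ))

/-- the trigonometric polynomial -/
noncomputable def T {n : ℕ} {J : Type} [Fintype J] (v : J → Fin n → ℤ) (c : J → ℂ) (u : E n) : ℂ :=
  ∑ j, c j * Complex.exp ((2 * Real.pi * ⟪u, pt (v j)⟫ : ℝ) * I)

lemma T_cont {n : ℕ} {J : Type} [Fintype J] (v : J → Fin n → ℤ) (c : J → ℂ) :
    Continuous (T v c) := by
  unfold T
  fun_prop

lemma T_bdd {n : ℕ} {J : Type} [Fintype J] (v : J → Fin n → ℤ) (c : J → ℂ) (u : E n) :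
    ‖T v c u‖ ≤ ∑ j, ‖c j‖ := by
  unfold T
  refine (norm_sum_le _ _).trans (Finset.sum_le_sum fun j _ => ?_)
  rw [norm_mul, Complex.norm_exp_ofReal_mul_I, mul_one]

lemma inner_pt {n : ℕ} (t : Fin n → ℝ) (a : Fin n → ℤ) :
    ⟪(WithLp.toLp 2 t : E n), pt a⟫ = ∑ i, (a i : ℝ) * t i := by
  simp [pt, PiLp.inner_apply]

/-- exact orthogonality on translates of the cube -/
lemma ortho {n : ℕ} {J : Type} [Fintype J] (v : J → Fin n → ℤ) (hv : Function.Injective v)
    (c : J → ℂ) (s : E n) :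
    ∫ t, ‖T v c (s + WithLp.toLp 2 t)‖ ^ 2 ∂(mu n) = ∑ j, ‖c j‖ ^ 2 := by
  classical
  have h0 : ∀ t : Fin n → ℝ, ((‖T v c (s + WithLp.toLp 2 t)‖ ^ 2 : ℝ) : ℂ) =
      ∑ j, ∑ k, (c j * (starRingEnd ℂ) (c k) *
        Complex.exp ((2 * Real.pi * ⟪s, pt (v j) - pt (v k)⟫ : ℝ) * I)) *
        Complex.exp ((2 * Real.pi * I : ℂ) * (∑ i, (((v j - v k) i : ℤ) : ℂ) * (t i : ℂ))) := by
    intro t
    have h1 : ((‖T v c (s + WithLp.toLp 2 t)‖ ^ 2 : ℝ) : ℂ) =
        T v c (s + WithLp.toLp 2 t) * (starRingEnd ℂ) (T v c (s + WithLp.toLp 2 t)) := by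
      rw [Complex.mul_conj, Complex.normSq_eq_norm_sq]
    rw [h1]
    unfold T
    rw [map_sum, Finset.sum_mul_sum]
    refine Finset.sum_congr rfl fun j _ => Finset.sum_congr rfl fun k _ => ?_
    rw [map_mul, ← Complex.exp_conj]
    rw [map_mul, Complex.conj_I, Complex.conj_ofReal]
    have e1 : Complex.exp ((2 * Real.pi * ⟪s + WithLp.toLp 2 t, pt (v j)⟫ : ℝ) * I) *
        Complex.exp ((2 * Real.pi * ⟪s + WithLp.toLp 2 t, pt (v k)⟫ : ℝ) * (-I)) =
        Complex.exp ((2 * Real.pi * ⟪s, pt (v j) - pt (v k)⟫ : ℝ) * I) *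
        Complex.exp ((2 * Real.pi * I : ℂ) * (∑ i, (((v j - v k) i : ℤ) : ℂ) * (t i : ℂ))) := by
      rw [← Complex.exp_add, ← Complex.exp_add]
      congr 1
      rw [inner_add_left, inner_add_left, inner_sub_right, inner_pt t (v j), inner_pt t (v k)]
      have e2 : (∑ i, (((v j - v k) i : ℤ) : ℂ) * (t i : ℂ)) =
          ((∑ i, (v j i : ℝ) * t i : ℝ) : ℂ) - ((∑ i, (v k i : ℝ) * t i : ℝ) : ℂ) := by
        push_cast
        rw [← Finset.sum_sub_distrib]
        refine Finset.sum_congr rfl fun i _ => ?_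
        simp only [Pi.sub_apply]
        push_cast
        ring
      rw [e2]
      push_cast
      ring
    calc c j * Complex.exp ((2 * Real.pi * ⟪s + WithLp.toLp 2 t, pt (v j)⟫ : ℝ) * I) *
          ((starRingEnd ℂ) (c k) *
            Complex.exp ((2 * Real.pi * ⟪s + WithLp.toLp 2 t, pt (v k)⟫ : ℝ) * (-I)))
        = c j * (starRingEnd ℂ) (c k) *
          (Complex.exp ((2 * Real.pi * ⟪s + WithLp.toLp 2 t, pt (v j)⟫ : ℝ) * I) *
          Complex.exp ((2 * Real.pi * ⟪s + WithLp.toLp 2 t, pt (v k)⟫ : ℝ) * (-I))) := by ring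
      _ = _ := by rw [e1]; ring
  have h2 : ((∫ t, ‖T v c (s + WithLp.toLp 2 t)‖ ^ 2 ∂(mu n) : ℝ) : ℂ) =
      ((∑ j, ‖c j‖ ^ 2 : ℝ) : ℂ) := by
    rw [← integral_complex_ofReal]
    simp_rw [h0]
    have hint : ∀ j k : J, Integrable (fun t : Fin n → ℝ => (c j * (starRingEnd ℂ) (c k) *
        Complex.exp ((2 * Real.pi * ⟪s, pt (v j) - pt (v k)⟫ : ℝ) * I)) *
        Complex.exp ((2 * Real.pi * I : ℂ) * (∑ i, (((v j - v k) i : ℤ) : ℂ) * (t i : ℂ))))
        (mu n) := by
      intro j k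
      refine Integrable.const_mul ?_ _
      refine Integrable.of_bound (C := 1) ?_ ?_
      · refine Continuous.aestronglyMeasurable ?_
        fun_prop
      · refine Eventually.of_forall fun t => ?_
        have : (2 * Real.pi * I : ℂ) * (∑ i, (((v j - v k) i : ℤ) : ℂ) * (t i : ℂ)) =
            ((2 * Real.pi * ∑ i, (((v j - v k) i : ℤ) : ℝ) * t i : ℝ) : ℂ) * I := by
          push_cast
          ring
        rw [this, Complex.norm_exp_ofReal_mul_I]
    rw [integral_finsetSum _ (fun j _ => integrable_finsetSum _ (fun k _ => hint j k)),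
      Complex.ofReal_sum]
    refine Finset.sum_congr rfl fun j _ => ?_
    rw [integral_finsetSum _ (fun k _ => hint j k)]
    rw [Finset.sum_eq_single j]
    · rw [integral_const_mul, cube_int, if_pos (sub_self _)]
      simp [Complex.mul_conj, Complex.normSq_eq_norm_sq]
    · intro k _ hk
      rw [integral_const_mul, cube_int, if_neg, mul_zero]
      intro h
      exact hk (hv (sub_eq_zero.1 h)).symm
    · intro h
      exact absurd (Finset.mem_univ j) h
  exact_mod_cast h2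

/-- the weight -/
noncomputable def g {n : ℕ} (u : E n) : ℝ := (1 + ‖u‖) ^ (-(2 * (n : ℝ)))

lemma g_pos {n : ℕ} (u : E n) : 0 < g u := Real.rpow_pos_of_pos (by positivity) _

lemma g_cont {n : ℕ} : Continuous (g (n := n)) := by
  unfold g
  refine Continuous.rpow_const (by fun_prop) ?_
  intro u
  left
  positivity

lemma g_int {n : ℕ} (hn : 1 ≤ n) : Integrable (g (n := n)) := by
  unfold g
  refine integrable_one_add_norm ?_
  have : (1 : ℝ) ≤ n := by exact_mod_cast hn
  simp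
  linarith

lemma g_le {n : ℕ} (u t : E n) (ht : ‖t‖ ≤ Real.sqrt n) :
    g u ≤ (1 + Real.sqrt n) ^ (2 * (n : ℝ)) * g (u - t) := by
  unfold g
  have hs : 0 ≤ Real.sqrt n := Real.sqrt_nonneg _
  have h1 : ‖u - t‖ ≤ ‖u‖ + ‖t‖ := norm_sub_le _ _
  have h2 : 1 + ‖u - t‖ ≤ (1 + Real.sqrt n) * (1 + ‖u‖) := by
    nlinarith [norm_nonneg u]
  have hA : 0 < (1 + ‖u‖) ^ (2 * (n : ℝ)) := Real.rpow_pos_of_pos (by positivity) _
  have hB : 0 < (1 + ‖u - t‖) ^ (2 * (n : ℝ)) := Real.rpow_pos_of_pos (by positivity) _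
  have h3 : (1 + ‖u - t‖) ^ (2 * (n : ℝ)) ≤
      (1 + Real.sqrt n) ^ (2 * (n : ℝ)) * (1 + ‖u‖) ^ (2 * (n : ℝ)) := by
    rw [← Real.mul_rpow (by positivity) (by positivity)]
    exact Real.rpow_le_rpow (by positivity) h2 (by positivity)
  rw [Real.rpow_neg (by positivity), Real.rpow_neg (by positivity)]
  rw [inv_eq_one_div, ← div_eq_mul_inv, div_le_div_iff₀ hA hB]
  linarith

lemma toLp_norm_le {n : ℕ} (t : Fin n → ℝ) (ht : ∀ i, t i ∈ Ioc (0 : ℝ) 1) :
    ‖(WithLp.toLp 2 t : E n)‖ ≤ Real.sqrt n := by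
  rw [EuclideanSpace.norm_eq]
  refine Real.sqrt_le_sqrt ?_
  calc ∑ i, ‖(WithLp.toLp 2 t : E n) i‖ ^ 2 ≤ ∑ _i : Fin n, (1 : ℝ) := by
        refine Finset.sum_le_sum fun i _ => ?_
        have := ht i
        simp only [Real.norm_eq_abs, sq_abs]
        have h0 := this.1
        have h1 := this.2
        show (t i) ^ 2 ≤ 1
        nlinarith
    _ = n := by simp

lemma mu_ae {n : ℕ} : ∀ᵐ t ∂(mu n), ∀ i, t i ∈ Ioc (0 : ℝ) 1 := by
  unfold mu
  rw [← Measure.restrict_pi_pi (fun _ : Fin n => (volume : Measure ℝ)) (fun _ => Ioc (0 : ℝ) 1)]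
  have hm : MeasurableSet (Set.univ.pi fun _ : Fin n => Ioc (0 : ℝ) 1) :=
    MeasurableSet.univ_pi fun _ => measurableSet_Ioc
  filter_upwards [ae_restrict_mem hm] with t ht i
  exact ht i (Set.mem_univ i)

/-- the weighted `L²` bound of the trigonometric polynomial -/
lemma weighted {n : ℕ} (hn : 1 ≤ n) {J : Type} [Fintype J] (v : J → Fin n → ℤ)
    (hv : Function.Injective v) (c : J → ℂ) :
    ∫ u, ‖T v c u‖ ^ 2 * g u ≤
      ((1 + Real.sqrt n) ^ (2 * (n : ℝ)) * ∫ u : E n, g u) * ∑ j, ‖c j‖ ^ 2 := by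
  set K : ℝ := (1 + Real.sqrt n) ^ (2 * (n : ℝ)) with hK
  have hK0 : 0 ≤ K := Real.rpow_nonneg (by positivity) _
  set B : ℝ := ∑ j, ‖c j‖ with hB
  have hgi := g_int hn
  have hTg : Integrable (fun u : E n => ‖T v c u‖ ^ 2 * g u) := by
    refine Integrable.mono' (hgi.const_mul (B ^ 2)) ?_ ?_
    · exact (((T_cont v c).norm.pow 2).mul g_cont).aestronglyMeasurable
    · refine Eventually.of_forall fun u => ?_
      rw [Real.norm_of_nonneg (by have := (g_pos u).le; positivity)]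
      refine mul_le_mul_of_nonneg_right ?_ (g_pos u).le
      exact pow_le_pow_left₀ (norm_nonneg _) (T_bdd v c u) 2
  have hsh : ∀ t : E n, Integrable (fun u : E n => ‖T v c u‖ ^ 2 * g (u - t)) := by
    intro t
    refine Integrable.mono' ((hgi.comp_sub_right t).const_mul (B ^ 2)) ?_ ?_
    · refine (((T_cont v c).norm.pow 2).mul (g_cont.comp ?_)).aestronglyMeasurable
      fun_prop
    · refine Eventually.of_forall fun u => ?_
      rw [Real.norm_of_nonneg (by have := (g_pos (u - t)).le; positivity)]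
      refine mul_le_mul_of_nonneg_right ?_ (g_pos _).le
      exact pow_le_pow_left₀ (norm_nonneg _) (T_bdd v c u) 2
  -- joint integrability
  have hjoint : Integrable (Function.uncurry fun (t : Fin n → ℝ) (s : E n) =>
      ‖T v c (s + WithLp.toLp 2 t)‖ ^ 2 * g s) ((mu n).prod volume) := by
    have h1 : Integrable (fun p : (Fin n → ℝ) × E n => B ^ 2 * g p.2) ((mu n).prod volume) := by
      have := Integrable.mul_prod (μ := mu n) (ν := (volume : Measure (E n)))
        (f := fun _ : Fin n → ℝ => B ^ 2) (g := fun u : E n => g u)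
        (integrable_const _) hgi
      exact this
    refine Integrable.mono' h1 ?_ ?_
    · refine Continuous.aestronglyMeasurable ?_
      unfold Function.uncurry
      refine (Continuous.pow (Continuous.norm ((T_cont v c).comp ?_)) 2).mul
        (g_cont.comp continuous_snd)
      refine continuous_snd.add ?_
      exact (PiLp.continuous_toLp 2 _).comp continuous_fst
    · refine Eventually.of_forall fun p => ?_
      unfold Function.uncurry
      have hgp := (g_pos p.2).le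
      rw [Real.norm_of_nonneg (by positivity)]
      refine mul_le_mul_of_nonneg_right ?_ hgp
      exact pow_le_pow_left₀ (norm_nonneg _) (T_bdd v c _) 2
  have hswap := integral_integral_swap hjoint
  have hR : ∫ s : E n, ∫ t, ‖T v c (s + WithLp.toLp 2 t)‖ ^ 2 * g s ∂(mu n) =
      (∫ u : E n, g u) * ∑ j, ‖c j‖ ^ 2 := by
    rw [← integral_mul_const]
    congr 1
    funext s
    rw [integral_mul_const, ortho v hv c s]
    ring
  rw [hR] at hswap
  have hL : ∫ t, (∫ u : E n, ‖T v c u‖ ^ 2 * g u) ∂(mu n) = ∫ u : E n, ‖T v c u‖ ^ 2 * g u := by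
    simp
  rw [← hL, mul_assoc, ← hswap, ← integral_const_mul]
  refine integral_mono_ae (integrable_const _) (hjoint.integral_prod_left.const_mul K) ?_
  filter_upwards [mu_ae] with t ht
  have hshift : ∫ s : E n, ‖T v c (s + WithLp.toLp 2 t)‖ ^ 2 * g s =
      ∫ u : E n, ‖T v c u‖ ^ 2 * g (u - WithLp.toLp 2 t) := by
    rw [← integral_add_right_eq_self (fun u : E n => ‖T v c u‖ ^ 2 * g (u - WithLp.toLp 2 t))
      (WithLp.toLp 2 t)]
    simp
  rw [hshift, ← integral_const_mul]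
  refine integral_mono hTg ((hsh _).const_mul K) fun u => ?_
  have h1 := g_le u (WithLp.toLp 2 t) (toLp_norm_le t ht)
  have h2 : 0 ≤ ‖T v c u‖ ^ 2 := by positivity
  calc ‖T v c u‖ ^ 2 * g u ≤ ‖T v c u‖ ^ 2 * (K * g (u - WithLp.toLp 2 t)) :=
        mul_le_mul_of_nonneg_left h1 h2
    _ = _ := by ring

lemma amgm (L a b w : ℝ) (hL : 0 ≤ L) (hw : 0 < w) :
    b * a ≤ (L + 1) / 2 * (a ^ 2 * w) + 1 / (2 * (L + 1)) * (b ^ 2 * (1 / w)) := by
  have hL1 : 0 < L + 1 := by linarith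
  have hsq : 0 ≤ ((L + 1) * w * a - b) ^ 2 / (2 * (L + 1) * w) := by positivity
  have : (L + 1) / 2 * (a ^ 2 * w) + 1 / (2 * (L + 1)) * (b ^ 2 * (1 / w)) - b * a =
      ((L + 1) * w * a - b) ^ 2 / (2 * (L + 1) * w) := by
    field_simp
    ring
  linarith

lemma fin_step (L S W X : ℝ) (hL : 0 ≤ L) (hX : X ≤ L * S) (hS : 0 ≤ S)
    (h : S ≤ (L + 1) / 2 * W + 1 / (2 * (L + 1)) * X) : S ≤ (L + 1) * W := by
  have hL1 : 0 < L + 1 := by linarith
  have h2 : 1 / (2 * (L + 1)) * X ≤ S / 2 := by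
    calc 1 / (2 * (L + 1)) * X ≤ 1 / (2 * (L + 1)) * (L * S) :=
          mul_le_mul_of_nonneg_left hX (by positivity)
      _ ≤ 1 / (2 * (L + 1)) * ((L + 1) * S) := by
          refine mul_le_mul_of_nonneg_left ?_ (by positivity)
          nlinarith
      _ = S / 2 := by field_simp
  linarith

end Pool.Agent.H197.PD.ORTH

namespace Pool.Agent.H197.PD

open MeasureTheory Set Metric Complex Filter Topology
open scoped ENNReal NNReal RealInnerProductSpace BigOperators ContDiff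

open Pool.Agent.H197.PD.ORTH in
theorem t_ORTH : S_ORTH := by
  intro n hn
  set L : ℝ := (1 + Real.sqrt n) ^ (2 * (n : ℝ)) * ∫ u : E n, g u with hL
  have hK0 : 0 < (1 + Real.sqrt n) ^ (2 * (n : ℝ)) := Real.rpow_pos_of_pos (by positivity) _
  have hG0 : 0 ≤ ∫ u : E n, g u := integral_nonneg fun u => (g_pos u).le
  have hL0 : 0 ≤ L := mul_nonneg hK0.le hG0
  refine ⟨L + 1, by linarith, ?_⟩
  intro J _ v hv Φ hΦ hdec
  set c : J → ℂ := fun j => ∫ u, Complex.exp (-(2 * Real.pi *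
    ⟪u, (WithLp.toLp 2 (fun i => ((v j i : ℤ) : ℝ)) : E n)⟫ : ℝ) * I) * Φ u with hc
  have hgi := g_int hn
  -- integrability of Φ and of the weighted square
  obtain ⟨A, hA⟩ := hdec (2 * n)
  have hA' : ∀ u, ‖Φ u‖ ≤ A * g u := by
    intro u
    have := hA u
    unfold g
    push_cast at this
    exact this
  have hA0 : 0 ≤ A := by
    have h1 := hA' 0
    have h2 := g_pos (0 : E n)
    have h3 := (norm_nonneg _).trans h1
    by_contra hneg
    push Not at hneg
    nlinarith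
  have hΦi : Integrable Φ := by
    refine Integrable.mono' (hgi.const_mul A) hΦ.aestronglyMeasurable ?_
    exact Eventually.of_forall hA'
  have hgw : ∀ u : E n, g u * (1 + ‖u‖) ^ (2 * (n : ℝ)) = 1 := by
    intro u
    unfold g
    rw [← Real.rpow_add (by positivity)]
    simp
  have hwpos : ∀ u : E n, 0 < (1 + ‖u‖) ^ (2 * (n : ℝ)) := fun u =>
    Real.rpow_pos_of_pos (by positivity) _
  have hwc : Continuous fun u : E n => (1 + ‖u‖) ^ (2 * (n : ℝ)) := by
    refine Continuous.rpow_const (by fun_prop) ?_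
    intro u
    left
    positivity
  have hΦw : Integrable fun u : E n => ‖Φ u‖ ^ 2 * (1 + ‖u‖) ^ (2 * (n : ℝ)) := by
    refine Integrable.mono' (hgi.const_mul (A ^ 2)) ?_ ?_
    · exact ((hΦ.norm.pow 2).mul hwc).aestronglyMeasurable
    · refine Eventually.of_forall fun u => ?_
      have hw := hwpos u
      rw [Real.norm_of_nonneg (by positivity)]
      have h1 : ‖Φ u‖ ^ 2 ≤ (A * g u) ^ 2 := pow_le_pow_left₀ (norm_nonneg _) (hA' u) 2
      calc ‖Φ u‖ ^ 2 * (1 + ‖u‖) ^ (2 * (n : ℝ)) ≤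
            (A * g u) ^ 2 * (1 + ‖u‖) ^ (2 * (n : ℝ)) := mul_le_mul_of_nonneg_right h1 hw.le
        _ = A ^ 2 * g u * (g u * (1 + ‖u‖) ^ (2 * (n : ℝ))) := by ring
        _ = A ^ 2 * g u := by rw [hgw, mul_one]
  set S : ℝ := ∑ j, ‖c j‖ ^ 2 with hS
  have hS0 : 0 ≤ S := Finset.sum_nonneg fun j _ => by positivity
  -- duality
  have hdual : ((S : ℝ) : ℂ) = ∫ u, (starRingEnd ℂ) (T v c u) * Φ u := by
    have h1 : ∀ u : E n, (starRingEnd ℂ) (T v c u) * Φ u =
        ∑ j, (starRingEnd ℂ) (c j) * (Complex.exp (-(2 * Real.pi *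
          ⟪u, (WithLp.toLp 2 (fun i => ((v j i : ℤ) : ℝ)) : E n)⟫ : ℝ) * I) * Φ u) := by
      intro u
      unfold T
      rw [map_sum, Finset.sum_mul]
      refine Finset.sum_congr rfl fun j _ => ?_
      rw [map_mul, ← Complex.exp_conj, map_mul, Complex.conj_I, Complex.conj_ofReal]
      have : ((2 * Real.pi * ⟪u, pt (v j)⟫ : ℝ) : ℂ) * -I =
          (-(2 * Real.pi * ⟪u, (WithLp.toLp 2 (fun i => ((v j i : ℤ) : ℝ)) : E n)⟫ : ℝ) : ℂ) * I := by
        unfold pt
        push_cast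
        ring
      rw [this]
      ring
    simp_rw [h1]
    have hint : ∀ j, Integrable (fun u : E n => (starRingEnd ℂ) (c j) * (Complex.exp (-(2 * Real.pi *
          ⟪u, (WithLp.toLp 2 (fun i => ((v j i : ℤ) : ℝ)) : E n)⟫ : ℝ) * I) * Φ u)) := by
      intro j
      refine Integrable.const_mul ?_ _
      refine Integrable.mono' hΦi.norm ?_ ?_
      · refine (Continuous.mul ?_ hΦ).aestronglyMeasurable
        fun_prop
      · refine Eventually.of_forall fun u => ?_
        rw [norm_mul]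
        have : ‖Complex.exp (-(2 * Real.pi *
          ⟪u, (WithLp.toLp 2 (fun i => ((v j i : ℤ) : ℝ)) : E n)⟫ : ℝ) * I)‖ = 1 := by
          rw [← Complex.ofReal_neg, Complex.norm_exp_ofReal_mul_I]
        rw [this, one_mul]
    rw [integral_finsetSum _ (fun j _ => hint j), hS, Complex.ofReal_sum]
    refine Finset.sum_congr rfl fun j _ => ?_
    rw [integral_const_mul]
    have : (∫ u, Complex.exp (-(2 * Real.pi *
        ⟪u, (WithLp.toLp 2 (fun i => ((v j i : ℤ) : ℝ)) : E n)⟫ : ℝ) * I) * Φ u) = c j := rfl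
    rw [this, mul_comm, Complex.mul_conj, Complex.normSq_eq_norm_sq]
  have hTc := T_cont v c
  have hTg : Integrable (fun u : E n => ‖T v c u‖ ^ 2 * g u) := by
    refine Integrable.mono' (hgi.const_mul ((∑ j, ‖c j‖) ^ 2)) ?_ ?_
    · exact ((hTc.norm.pow 2).mul g_cont).aestronglyMeasurable
    · refine Eventually.of_forall fun u => ?_
      have hg := (g_pos u).le
      rw [Real.norm_of_nonneg (by positivity)]
      refine mul_le_mul_of_nonneg_right ?_ hg
      exact pow_le_pow_left₀ (norm_nonneg _) (T_bdd v c u) 2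
  set W : ℝ := ∫ u : E n, ‖Φ u‖ ^ 2 * (1 + ‖u‖) ^ (2 * (n : ℝ)) with hW
  have hweighted := weighted hn v hv c
  rw [← hL, ← hS] at hweighted
  -- main inequality
  have hmain : S ≤ (L + 1) / 2 * W + 1 / (2 * (L + 1)) * ∫ u : E n, ‖T v c u‖ ^ 2 * g u := by
    have h1 : S = ‖∫ u, (starRingEnd ℂ) (T v c u) * Φ u‖ := by
      rw [← hdual, Complex.norm_real, Real.norm_of_nonneg hS0]
    rw [h1]
    refine (norm_integral_le_integral_norm _).trans ?_
    rw [hW, ← integral_const_mul, ← integral_const_mul, ← integral_add (hΦw.const_mul _)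
      (hTg.const_mul _)]
    refine integral_mono_of_nonneg (Eventually.of_forall fun u => norm_nonneg _)
      ((hΦw.const_mul _).add (hTg.const_mul _)) (Eventually.of_forall fun u => ?_)
    show ‖(starRingEnd ℂ) (T v c u) * Φ u‖ ≤ (L + 1) / 2 * (‖Φ u‖ ^ 2 * (1 + ‖u‖) ^ (2 * (n : ℝ))) +
      1 / (2 * (L + 1)) * (‖T v c u‖ ^ 2 * g u)
    rw [norm_mul, Complex.norm_conj]
    have hgw' : g u = 1 / (1 + ‖u‖) ^ (2 * (n : ℝ)) := by
      rw [eq_div_iff (hwpos u).ne']
      exact hgw u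
    rw [hgw']
    exact amgm L _ _ _ hL0 (hwpos u)
  exact fin_step L S W _ hL0 hweighted hS0 hmain

end Pool.Agent.H197.PD
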