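import Mathlib
import Pool.Agent.H197.PD.Stm
set_option autoImplicit false

/-! PD-REP: Fubini -/

namespace Pool.Agent.H197.PD

open MeasureTheory Set Metric Complex Filter Topology
open scoped ENNReal NNReal RealInnerProductSpace BigOperators ContDiff

namespace REP

/-- the integrand -/
noncomputable def ff {n : ℕ} {Ω : Type} (p : Ω → E n) (F : Ω → ℂ) (h : E n → ℂ) (N : ℝ)
    (v ξ : E n) (x : Ω) (u : E n) : ℂ :=
  ee (p x) ξ * (F x * (h u * Complex.exp ((2 * Real.pi * ⟪u, N • p x - v⟫ : ℝ) * I)))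

theorem ff_eq {n : ℕ} {Ω : Type} (p : Ω → E n) (F : Ω → ℂ) (h : E n → ℂ) (N : ℝ)
    (v ξ : E n) (x : Ω) (u : E n) : ff p F h N v ξ x u =
      Complex.exp (-(2 * Real.pi * ⟪u, v⟫ : ℝ) * I) * (h u * (ee (p x) (ξ - N • u) * F x)) := by
  have h1 : ee (p x) ξ * Complex.exp ((2 * Real.pi * ⟪u, N • p x - v⟫ : ℝ) * I) =
      Complex.exp (-(2 * Real.pi * ⟪u, v⟫ : ℝ) * I) * ee (p x) (ξ - N • u) := by
    unfold ee
    rw [← Complex.exp_add, ← Complex.exp_add]
    congr 1
    rw [inner_sub_right, inner_sub_right, real_inner_smul_right, real_inner_smul_right,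
      real_inner_comm (p x) u]
    push_cast
    ring
  unfold ff
  calc ee (p x) ξ * (F x * (h u * Complex.exp ((2 * Real.pi * ⟪u, N • p x - v⟫ : ℝ) * I)))
      = F x * h u * (ee (p x) ξ * Complex.exp ((2 * Real.pi * ⟪u, N • p x - v⟫ : ℝ) * I)) := by
        ring
    _ = _ := by
        rw [h1]
        ring

theorem ee_norm {n : ℕ} (x ξ : E n) : ‖ee x ξ‖ = 1 := by
  unfold ee
  rw [← Complex.ofReal_neg]
  exact Complex.norm_exp_ofReal_mul_I _

theorem ff_norm {n : ℕ} {Ω : Type} (p : Ω → E n) (F : Ω → ℂ) (h : E n → ℂ) (N : ℝ)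
    (v ξ : E n) (x : Ω) (u : E n) : ‖ff p F h N v ξ x u‖ = ‖F x‖ * ‖h u‖ := by
  unfold ff
  rw [norm_mul, norm_mul, norm_mul, ee_norm, Complex.norm_exp_ofReal_mul_I]
  ring

theorem ff_meas {n : ℕ} {Ω : Type} [MeasurableSpace Ω] {p : Ω → E n} {F : Ω → ℂ} {h : E n → ℂ}
    (N : ℝ) (v ξ : E n) (hp : Measurable p) (hF : Measurable F) (hh : Continuous h) :
    Measurable (Function.uncurry (ff p F h N v ξ)) := by
  have hp1 : Measurable fun z : Ω × E n => p z.1 := hp.comp measurable_fst
  have hF1 : Measurable fun z : Ω × E n => F z.1 := hF.comp measurable_fst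
  have hh1 : Measurable fun z : Ω × E n => h z.2 := hh.measurable.comp measurable_snd
  have hu1 : Measurable fun z : Ω × E n => z.2 := measurable_snd
  have e1 : Measurable fun z : Ω × E n => ee (p z.1) ξ := by
    unfold ee
    have h2 : Measurable fun z : Ω × E n => ⟪p z.1, ξ⟫ := hp1.inner measurable_const
    exact ((Complex.measurable_ofReal.comp (h2.const_mul (2 * Real.pi))).neg.mul_const I).cexp
  have e2 : Measurable fun z : Ω × E n =>
      Complex.exp ((2 * Real.pi * ⟪z.2, N • p z.1 - v⟫ : ℝ) * I) := by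
    have h2 : Measurable fun z : Ω × E n => ⟪z.2, N • p z.1 - v⟫ :=
      hu1.inner ((hp1.const_smul N).sub_const v)
    exact ((Complex.measurable_ofReal.comp (h2.const_mul (2 * Real.pi))).mul_const I).cexp
  exact e1.mul (hF1.mul (hh1.mul e2))

end REP

open REP in
theorem t_REP : S_REP := by
  intro n Ω _ μ _ p F B h c N v ξ hp hF hB hh hhi hc
  have hint : Integrable (Function.uncurry (ff p F h N v ξ)) (μ.prod volume) := by
    have hb : Integrable (fun z : Ω × E n => B * ‖h z.2‖) (μ.prod volume) :=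
      (hhi.norm.comp_snd μ).const_mul B
    refine hb.mono' (ff_meas N v ξ hp hF hh).aestronglyMeasurable ?_
    refine Filter.Eventually.of_forall fun z => ?_
    have h1 : ‖Function.uncurry (ff p F h N v ξ) z‖ = ‖F z.1‖ * ‖h z.2‖ :=
      ff_norm p F h N v ξ z.1 z.2
    rw [h1]
    exact mul_le_mul_of_nonneg_right (hB z.1) (norm_nonneg _)
  have hl : ∀ x, ee (p x) ξ * (F x * c (N • p x - v)) = ∫ u, ff p F h N v ξ x u := by
    intro x
    rw [hc]
    unfold ff
    rw [integral_const_mul, integral_const_mul]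
  have hr : ∀ u, Complex.exp (-(2 * Real.pi * ⟪u, v⟫ : ℝ) * I) *
      (h u * ∫ x, ee (p x) (ξ - N • u) * F x ∂μ) = ∫ x, ff p F h N v ξ x u ∂μ := by
    intro u
    simp only [ff_eq]
    rw [integral_const_mul, integral_const_mul]
  simp only [hl, hr]
  exact integral_integral_swap hint

end Pool.Agent.H197.PD
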