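import Mathlib
import Pool.Agent.H197.PD.Stm3
set_option autoImplicit false

/-! # Project PD (helper197), task TRIG (helper25) -/

namespace Pool.Agent.H197.PD

open MeasureTheory Set Metric Complex Filter Topology
open scoped ENNReal NNReal RealInnerProductSpace BigOperators ContDiff

namespace TRIG

open Pool.Agent.H438R2.BR (Phi L)

/-- main term -/
noncomputable def Mt (l : ℂ) (u : ℝ) : ℂ :=
  -I * Complex.exp ((u : ℂ) * I) * l + I * Complex.exp (-((u : ℂ) * I)) * (starRingEnd ℂ) l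

theorem norm_expI (u : ℝ) : ‖Complex.exp ((u : ℂ) * I)‖ = 1 := Complex.norm_exp_ofReal_mul_I u

theorem norm_expnI (u : ℝ) : ‖Complex.exp (-((u : ℂ) * I))‖ = 1 := by
  have h : -((u : ℂ) * I) = ((-u : ℝ) : ℂ) * I := by
    push_cast
    ring
  rw [h, Complex.norm_exp_ofReal_mul_I]

theorem Mt_norm (l : ℂ) (u : ℝ) : ‖Mt l u‖ ≤ 2 * ‖l‖ := by
  unfold Mt
  refine (norm_add_le _ _).trans ?_
  rw [norm_mul, norm_mul, norm_mul, norm_mul, norm_neg, Complex.norm_I, norm_expI, norm_expnI,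
    RCLike.norm_conj]
  linarith

theorem exp_lip (u v : ℝ) :
    ‖Complex.exp ((u : ℂ) * I) - Complex.exp ((v : ℂ) * I)‖ ≤ |u - v| := by
  have e : Complex.exp ((u : ℂ) * I) - Complex.exp ((v : ℂ) * I) =
      Complex.exp ((v : ℂ) * I) * (Complex.exp (I * ((u - v : ℝ) : ℂ)) - 1) := by
    rw [mul_sub, ← Complex.exp_add, mul_one]
    congr 2
    push_cast
    ring
  rw [e, norm_mul, norm_expI, one_mul]
  exact Real.norm_exp_I_mul_ofReal_sub_one_le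

theorem Mt_lip (l : ℂ) (u v : ℝ) : ‖Mt l u - Mt l v‖ ≤ 2 * ‖l‖ * |u - v| := by
  have e : Mt l u - Mt l v =
      -I * (Complex.exp ((u : ℂ) * I) - Complex.exp ((v : ℂ) * I)) * l +
      I * (Complex.exp (((-u : ℝ) : ℂ) * I) - Complex.exp (((-v : ℝ) : ℂ) * I)) *
        (starRingEnd ℂ) l := by
    unfold Mt
    have h1 : -((u : ℂ) * I) = ((-u : ℝ) : ℂ) * I := by
      push_cast
      ring
    have h2 : -((v : ℂ) * I) = ((-v : ℝ) : ℂ) * I := by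
      push_cast
      ring
    rw [h1, h2]
    ring
  rw [e]
  refine (norm_add_le _ _).trans ?_
  rw [norm_mul, norm_mul, norm_mul, norm_mul, norm_neg, Complex.norm_I, RCLike.norm_conj]
  have h1 := exp_lip u v
  have h2 := exp_lip (-u) (-v)
  have h3 : |-u - -v| = |u - v| := by
    rw [← abs_neg (u - v)]
    congr 1
    ring
  rw [h3] at h2
  have h4 := mul_le_mul_of_nonneg_right h1 (norm_nonneg l)
  have h5 := mul_le_mul_of_nonneg_right h2 (norm_nonneg l)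
  linarith

theorem Phi_eq (n : ℕ) (hn : 2 ≤ n) (l : ℂ) (a u : ℝ) (hu : 0 < u) :
    ((u ^ a : ℝ) : ℂ) * Phi n u - Mt l u = Mt (((u ^ a : ℝ) : ℂ) * L n u - l) u := by
  rw [Pool.Agent.H438R2.BR.phi_laplace n hn u hu]
  unfold Mt
  rw [map_sub, map_mul, Complex.conj_ofReal]
  ring

/-- geometry: the distance of `2πξ` from `η` -/
theorem geo {n : ℕ} (η ξ : E n) (hξ : 0 < ‖ξ‖) (h : 2 * ‖η‖ ≤ 2 * Real.pi * ‖ξ‖) :
    |‖(2 * Real.pi) • ξ - η‖ - (2 * Real.pi * ‖ξ‖ - ⟪η, (‖ξ‖⁻¹) • ξ⟫)| ≤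
      ‖η‖ ^ 2 / (2 * Real.pi * ‖ξ‖) := by
  have hpi := Real.pi_pos
  set r := 2 * Real.pi * ‖ξ‖ with hr
  set s : ℝ := ⟪η, (‖ξ‖⁻¹) • ξ⟫ with hs
  set r' := ‖(2 * Real.pi) • ξ - η‖ with hr'
  have hr0 : 0 < r := by positivity
  have hθ : ‖(‖ξ‖⁻¹) • ξ‖ = 1 := by
    rw [norm_smul, norm_inv, norm_norm, inv_mul_cancel₀ hξ.ne']
  have hs1 : |s| ≤ ‖η‖ := by
    have := abs_real_inner_le_norm η ((‖ξ‖⁻¹) • ξ)
    rwa [hθ, mul_one] at this
  have hs2 := abs_le.1 hs1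
  have hrn : ‖(2 * Real.pi) • ξ‖ = r := by
    rw [norm_smul, Real.norm_of_nonneg (by positivity)]
  have hr'1 : r - ‖η‖ ≤ r' := by
    rw [← hrn]
    exact norm_sub_norm_le _ _
  have hin : ⟪(2 * Real.pi) • ξ, η⟫ = r * s := by
    rw [hs, inner_smul_left, inner_smul_right, real_inner_comm]
    simp only [conj_trivial]
    rw [hr]
    field_simp
  have hsq : r' ^ 2 = r ^ 2 - 2 * (r * s) + ‖η‖ ^ 2 := by
    rw [hr', norm_sub_sq_real, hin, hrn]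
  have h1 : (r' - (r - s)) * (r' + (r - s)) = ‖η‖ ^ 2 - s ^ 2 := by
    have : (r' - (r - s)) * (r' + (r - s)) = r' ^ 2 - (r - s) ^ 2 := by ring
    rw [this, hsq]
    ring
  have h2 : r ≤ r' + (r - s) := by linarith [hs2.2]
  have h3 : 0 ≤ ‖η‖ ^ 2 - s ^ 2 := by
    have := sq_le_sq' (by linarith [hs2.1]) hs2.2
    linarith
  have h4 : 0 ≤ r' - (r - s) := by
    by_contra hneg
    push Not at hneg
    have : (r' - (r - s)) * (r' + (r - s)) < 0 := mul_neg_of_neg_of_pos hneg (by linarith)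
    linarith
  rw [abs_of_nonneg h4, le_div_iff₀ hr0]
  have h5 : (r' - (r - s)) * r ≤ (r' - (r - s)) * (r' + (r - s)) :=
    mul_le_mul_of_nonneg_left h2 h4
  have h6 := sq_nonneg s
  linarith

/-- the filter `‖ξ‖ → ∞` -/
noncomputable def at0 (n : ℕ) : Filter (E n) := comap (fun ξ : E n => ‖ξ‖) atTop

theorem tend_r (n : ℕ) : Tendsto (fun ξ : E n => 2 * Real.pi * ‖ξ‖) (at0 n) atTop := by
  have h : Tendsto (fun ξ : E n => ‖ξ‖) (at0 n) atTop := tendsto_comap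
  exact h.const_mul_atTop (by positivity)

theorem norm_diff {n : ℕ} (η ξ : E n) :
    |2 * Real.pi * ‖ξ‖ - ‖(2 * Real.pi) • ξ - η‖| ≤ ‖η‖ := by
  have hpi := Real.pi_pos
  have hrn : ‖(2 * Real.pi) • ξ‖ = 2 * Real.pi * ‖ξ‖ := by
    rw [norm_smul, Real.norm_of_nonneg (by positivity)]
  rw [← hrn]
  have h := abs_norm_sub_norm_le ((2 * Real.pi) • ξ) ((2 * Real.pi) • ξ - η)
  rwa [sub_sub_cancel] at h

theorem tend_r' (n : ℕ) (η : E n) :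
    Tendsto (fun ξ : E n => ‖(2 * Real.pi) • ξ - η‖) (at0 n) atTop := by
  refine tendsto_atTop_mono (fun ξ => ?_) (tendsto_atTop_add_const_right (at0 n) (-‖η‖) (tend_r n))
  have := abs_le.1 (norm_diff η ξ)
  linarith [this.2]

theorem tend_q (n : ℕ) (η : E n) (a : ℝ) :
    Tendsto (fun ξ : E n => (2 * Real.pi * ‖ξ‖ / ‖(2 * Real.pi) • ξ - η‖) ^ a) (at0 n) (𝓝 1) := by
  have h1 : Tendsto (fun ξ : E n => (2 * Real.pi * ‖ξ‖ - ‖(2 * Real.pi) • ξ - η‖) /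
      ‖(2 * Real.pi) • ξ - η‖) (at0 n) (𝓝 0) := by
    have h2 : Tendsto (fun ξ : E n => ‖η‖ / ‖(2 * Real.pi) • ξ - η‖) (at0 n) (𝓝 0) :=
      (tend_r' n η).const_div_atTop ‖η‖
    refine squeeze_zero_norm (fun ξ => ?_) h2
    rw [norm_div, Real.norm_eq_abs, norm_norm]
    exact div_le_div_of_nonneg_right (norm_diff η ξ) (norm_nonneg _)
  have h3 : Tendsto (fun ξ : E n => 2 * Real.pi * ‖ξ‖ / ‖(2 * Real.pi) • ξ - η‖) (at0 n) (𝓝 1) := by
    have h4 : Tendsto (fun ξ : E n => (2 * Real.pi * ‖ξ‖ - ‖(2 * Real.pi) • ξ - η‖) /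
      ‖(2 * Real.pi) • ξ - η‖ + 1) (at0 n) (𝓝 (0 + 1)) := h1.add_const 1
    rw [zero_add] at h4
    refine h4.congr' ?_
    filter_upwards [(tend_r' n η).eventually_gt_atTop 0] with ξ hξ
    field_simp
    ring
  have h5 := (Real.continuousAt_rpow_const 1 a (Or.inl one_ne_zero)).tendsto.comp h3
  rw [Real.one_rpow] at h5
  exact h5

theorem tend_geo (n : ℕ) (η : E n) :
    Tendsto (fun ξ : E n => |‖(2 * Real.pi) • ξ - η‖ -
      (2 * Real.pi * ‖ξ‖ - ⟪η, (‖ξ‖⁻¹) • ξ⟫)|) (at0 n) (𝓝 0) := by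
  have h2 : Tendsto (fun ξ : E n => ‖η‖ ^ 2 / (2 * Real.pi * ‖ξ‖)) (at0 n) (𝓝 0) :=
    (tend_r n).const_div_atTop _
  refine squeeze_zero' (Eventually.of_forall fun ξ => abs_nonneg _) ?_ h2
  filter_upwards [(tend_r n).eventually_gt_atTop 0, (tend_r n).eventually_ge_atTop (2 * ‖η‖)]
    with ξ h3 h4
  refine geo η ξ ?_ h4
  exact pos_of_mul_pos_right h3 (by positivity)

/-- the error for one frequency -/
theorem one (n : ℕ) (hn : 2 ≤ n) (l : ℂ)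
    (hl : Tendsto (fun u : ℝ => ((u ^ (((n : ℝ) - 1) / 2) : ℝ) : ℂ) * L n u) atTop (𝓝 l))
    (η : E n) :
    Tendsto (fun ξ : E n => ‖(((2 * Real.pi * ‖ξ‖) ^ (((n : ℝ) - 1) / 2) : ℝ) : ℂ) *
      Phi n ‖(2 * Real.pi) • ξ - η‖ - Mt l (2 * Real.pi * ‖ξ‖ - ⟪η, (‖ξ‖⁻¹) • ξ⟫)‖)
      (at0 n) (𝓝 0) := by
  set a : ℝ := ((n : ℝ) - 1) / 2 with ha
  have hV : Tendsto (fun ξ : E n => ‖((‖(2 * Real.pi) • ξ - η‖ ^ a : ℝ) : ℂ) *
      L n ‖(2 * Real.pi) • ξ - η‖ - l‖) (at0 n) (𝓝 0) := by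
    have h1 := hl.comp (tend_r' n η)
    have h2 := (tendsto_iff_norm_sub_tendsto_zero.1 h1)
    exact h2
  have hq : Tendsto (fun ξ : E n =>
      |(2 * Real.pi * ‖ξ‖ / ‖(2 * Real.pi) • ξ - η‖) ^ a - 1|) (at0 n) (𝓝 0) := by
    have h1 := (tend_q n η a).sub_const 1
    rw [sub_self] at h1
    have h2 := h1.abs
    rwa [abs_zero] at h2
  have hg := tend_geo n η
  have htot : Tendsto (fun ξ : E n =>
      |(2 * Real.pi * ‖ξ‖ / ‖(2 * Real.pi) • ξ - η‖) ^ a - 1| *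
        (2 * ‖((‖(2 * Real.pi) • ξ - η‖ ^ a : ℝ) : ℂ) * L n ‖(2 * Real.pi) • ξ - η‖ - l‖ +
          2 * ‖l‖) +
      2 * ‖((‖(2 * Real.pi) • ξ - η‖ ^ a : ℝ) : ℂ) * L n ‖(2 * Real.pi) • ξ - η‖ - l‖ +
      2 * ‖l‖ * |‖(2 * Real.pi) • ξ - η‖ - (2 * Real.pi * ‖ξ‖ - ⟪η, (‖ξ‖⁻¹) • ξ⟫)|)
      (at0 n) (𝓝 0) := by
    have h1 := ((hq.mul ((hV.const_mul 2).add_const (2 * ‖l‖))).add (hV.const_mul 2)).add
      (hg.const_mul (2 * ‖l‖))
    simp only [mul_zero, zero_mul, add_zero] at h1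
    exact h1
  refine squeeze_zero' (Eventually.of_forall fun ξ => norm_nonneg _) ?_ htot
  filter_upwards [(tend_r' n η).eventually_gt_atTop 0] with ξ hξ
  set r' := ‖(2 * Real.pi) • ξ - η‖ with hr'
  set r := 2 * Real.pi * ‖ξ‖ with hr
  set s : ℝ := ⟪η, (‖ξ‖⁻¹) • ξ⟫ with hs
  have hr0 : 0 ≤ r := by positivity
  have hpow : r ^ a = (r / r') ^ a * r' ^ a := by
    rw [← Real.mul_rpow (by positivity) hξ.le, div_mul_cancel₀ _ hξ.ne']
  have hW : ‖((r' ^ a : ℝ) : ℂ) * Phi n r' - Mt l r'‖ ≤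
      2 * ‖((r' ^ a : ℝ) : ℂ) * L n r' - l‖ := by
    rw [Phi_eq n hn l a r' hξ]
    exact Mt_norm _ _
  have hW2 : ‖((r' ^ a : ℝ) : ℂ) * Phi n r'‖ ≤
      2 * ‖((r' ^ a : ℝ) : ℂ) * L n r' - l‖ + 2 * ‖l‖ := by
    calc ‖((r' ^ a : ℝ) : ℂ) * Phi n r'‖
        = ‖(((r' ^ a : ℝ) : ℂ) * Phi n r' - Mt l r') + Mt l r'‖ := by rw [sub_add_cancel]
      _ ≤ ‖((r' ^ a : ℝ) : ℂ) * Phi n r' - Mt l r'‖ + ‖Mt l r'‖ := norm_add_le _ _
      _ ≤ _ := add_le_add hW (Mt_norm _ _)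
  have e : ((r ^ a : ℝ) : ℂ) * Phi n r' - Mt l (r - s) =
      (((r / r') ^ a - 1 : ℝ) : ℂ) * (((r' ^ a : ℝ) : ℂ) * Phi n r') +
      (((r' ^ a : ℝ) : ℂ) * Phi n r' - Mt l r') + (Mt l r' - Mt l (r - s)) := by
    rw [hpow]
    push_cast
    ring
  rw [e]
  refine (norm_add_le _ _).trans (add_le_add ((norm_add_le _ _).trans (add_le_add ?_ hW)) ?_)
  · rw [norm_mul, Complex.norm_real, Real.norm_eq_abs]
    exact mul_le_mul_of_nonneg_left hW2 (abs_nonneg _)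
  · exact Mt_lip l r' (r - s)

/-- the Fourier transform of a trigonometric polynomial -/
theorem ft_eq (n : ℕ) (hn : 2 ≤ n) (K : ℕ) (c : Fin K → ℂ) (η : Fin K → E n) (ξ : E n) :
    ft (fun x : sphere (0 : E n) 1 => ∑ j, c j * Complex.exp ((⟪η j, (x : E n)⟫ : ℝ) * I)) ξ =
      ((Pool.Agent.H789R2.FR.sg (n - 1)).real univ : ℂ) *
        ∑ j, c j * Phi n ‖(2 * Real.pi) • ξ - η j‖ := by
  unfold ft
  have hfin : IsFiniteMeasure (sigma n) := by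
    unfold sigma
    infer_instance
  have e1 : ∀ x : sphere (0 : E n) 1,
      Complex.exp (-(2 * Real.pi * ⟪(x : E n), ξ⟫ : ℝ) * I) *
        ∑ j, c j * Complex.exp ((⟪η j, (x : E n)⟫ : ℝ) * I) =
      ∑ j, c j * Complex.exp (-((⟪(2 * Real.pi) • ξ - η j, (x : E n)⟫ : ℝ) : ℂ) * I) := by
    intro x
    rw [Finset.mul_sum]
    refine Finset.sum_congr rfl fun j _ => ?_
    rw [mul_left_comm, ← Complex.exp_add]
    congr 2
    rw [inner_sub_left, inner_smul_left, real_inner_comm ξ (x : E n)]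
    simp only [conj_trivial]
    push_cast
    ring
  simp only [e1]
  have hint : ∀ j ∈ (Finset.univ : Finset (Fin K)), Integrable (fun x : sphere (0 : E n) 1 =>
      c j * Complex.exp (-((⟪(2 * Real.pi) • ξ - η j, (x : E n)⟫ : ℝ) : ℂ) * I)) (sigma n) := by
    intro j _
    refine Integrable.of_bound (C := ‖c j‖) ?_ (Eventually.of_forall fun x => ?_)
    · exact (by fun_prop : Continuous fun x : sphere (0 : E n) 1 =>
        c j * Complex.exp (-((⟪(2 * Real.pi) • ξ - η j, (x : E n)⟫ : ℝ) : ℂ) * I)).aestronglyMeasurable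
    · rw [norm_mul]
      have h : -((⟪(2 * Real.pi) • ξ - η j, (x : E n)⟫ : ℝ) : ℂ) * I =
          ((-⟪(2 * Real.pi) • ξ - η j, (x : E n)⟫ : ℝ) : ℂ) * I := by push_cast; ring
      rw [h, Complex.norm_exp_ofReal_mul_I, mul_one]
  rw [integral_finsetSum _ hint, Finset.mul_sum]
  refine Finset.sum_congr rfl fun j _ => ?_
  rw [integral_const_mul]
  have h2 := Pool.Agent.H438R2.BR.sphere_ft n hn ((2 * Real.pi) • ξ - η j)
  have h3 : ∫ v, Complex.exp (-((⟪(2 * Real.pi) • ξ - η j, v⟫ : ℝ) : ℂ) * I)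
      ∂(Pool.Agent.H789R2.FR.sg n) =
      ∫ x : sphere (0 : E n) 1,
        Complex.exp (-((⟪(2 * Real.pi) • ξ - η j, (x : E n)⟫ : ℝ) : ℂ) * I) ∂(sigma n) := by
    unfold Pool.Agent.H789R2.FR.sg sigma
    rw [(MeasurableEmbedding.subtype_coe isClosed_sphere.measurableSet).integral_map]
  rw [← h3, h2]
  ring

end TRIG

open TRIG in
theorem t_TRIG (h : S_LASY) : S_TRIG := by
  intro n hn
  obtain ⟨l, hl⟩ := h n hn
  set κ : ℝ := (Pool.Agent.H789R2.FR.sg (n - 1)).real univ with hκ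
  have hκ0 : 0 ≤ κ := measureReal_nonneg
  refine ⟨κ * (2 * ‖l‖ + 1) + 1, by positivity, ?_⟩
  intro K c η B hB hF
  set a : ℝ := ((n : ℝ) - 1) / 2 with ha
  have ha0 : 0 ≤ a := by
    have : (2 : ℝ) ≤ n := by exact_mod_cast hn
    rw [ha]
    linarith
  have hsum : Tendsto (fun ξ : E n => ∑ j, ‖c j‖ *
      ‖(((2 * Real.pi * ‖ξ‖) ^ a : ℝ) : ℂ) * Pool.Agent.H438R2.BR.Phi n ‖(2 * Real.pi) • ξ - η j‖ -
        Mt l (2 * Real.pi * ‖ξ‖ - ⟪η j, (‖ξ‖⁻¹) • ξ⟫)‖) (at0 n) (𝓝 0) := by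
    have h1 := tendsto_finsetSum (Finset.univ : Finset (Fin K))
      (fun j _ => (one n hn l hl (η j)).const_mul ‖c j‖)
    simp only [mul_zero, Finset.sum_const_zero] at h1
    exact h1
  have hev : ∀ᶠ ξ in at0 n, ∑ j, ‖c j‖ *
      ‖(((2 * Real.pi * ‖ξ‖) ^ a : ℝ) : ℂ) * Pool.Agent.H438R2.BR.Phi n ‖(2 * Real.pi) • ξ - η j‖ -
        Mt l (2 * Real.pi * ‖ξ‖ - ⟪η j, (‖ξ‖⁻¹) • ξ⟫)‖ ≤ B := by
    filter_upwards [hsum.eventually_lt_const hB] with ξ hξ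
    exact hξ.le
  unfold at0 at hev
  rw [eventually_comap, eventually_atTop] at hev
  obtain ⟨R, hR⟩ := hev
  refine ⟨max R 1, le_max_right _ _, ?_⟩
  intro ξ hξ
  have hξR := hR ‖ξ‖ ((le_max_left _ _).trans hξ) ξ rfl
  have hξ1 : 1 ≤ ‖ξ‖ := (le_max_right _ _).trans hξ
  have hξ0 : 0 < ‖ξ‖ := by linarith
  have hpi := Real.pi_pos
  rw [ft_eq n hn K c η ξ]
  set r := 2 * Real.pi * ‖ξ‖ with hr
  have hr0 : 0 < r := by positivity
  set θ : E n := (‖ξ‖⁻¹) • ξ with hθ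
  have hθ1 : ‖θ‖ = 1 := by
    rw [hθ, norm_smul, norm_inv, norm_norm, inv_mul_cancel₀ hξ0.ne']
  have hFθ := hF ⟨θ, by simpa using hθ1⟩
  have hFθ' := hF ⟨-θ, by simpa using hθ1⟩
  -- the main term
  have hmain : ∑ j, c j * Mt l (r - ⟪η j, θ⟫) =
      -I * l * Complex.exp ((r : ℂ) * I) * ∑ j, c j * Complex.exp ((⟪η j, -θ⟫ : ℝ) * I) +
      I * (starRingEnd ℂ) l * Complex.exp (-((r : ℂ) * I)) *
        ∑ j, c j * Complex.exp ((⟪η j, θ⟫ : ℝ) * I) := by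
    rw [Finset.mul_sum, Finset.mul_sum, ← Finset.sum_add_distrib]
    refine Finset.sum_congr rfl fun j _ => ?_
    unfold Mt
    have h1 : Complex.exp (((r - ⟪η j, θ⟫ : ℝ) : ℂ) * I) =
        Complex.exp ((r : ℂ) * I) * Complex.exp ((⟪η j, -θ⟫ : ℝ) * I) := by
      rw [← Complex.exp_add, inner_neg_right]
      congr 1
      push_cast
      ring
    have h2 : Complex.exp (-(((r - ⟪η j, θ⟫ : ℝ) : ℂ) * I)) =
        Complex.exp (-((r : ℂ) * I)) * Complex.exp ((⟪η j, θ⟫ : ℝ) * I) := by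
      rw [← Complex.exp_add]
      congr 1
      push_cast
      ring
    rw [h1, h2]
    ring
  have hmain2 : ‖∑ j, c j * Mt l (r - ⟪η j, θ⟫)‖ ≤ 2 * ‖l‖ * B := by
    rw [hmain]
    refine (norm_add_le _ _).trans ?_
    rw [norm_mul, norm_mul, norm_mul, norm_mul, norm_mul, norm_mul, norm_neg, Complex.norm_I,
      norm_expI, norm_expnI, RCLike.norm_conj]
    have h1 := mul_le_mul_of_nonneg_left hFθ (norm_nonneg l)
    have h2 := mul_le_mul_of_nonneg_left hFθ' (norm_nonneg l)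
    simp only at h1 h2
    linarith
  have hall : ‖((r ^ a : ℝ) : ℂ) * ∑ j, c j * Pool.Agent.H438R2.BR.Phi n ‖(2 * Real.pi) • ξ - η j‖‖ ≤
      2 * ‖l‖ * B + B := by
    have e : ((r ^ a : ℝ) : ℂ) * ∑ j, c j * Pool.Agent.H438R2.BR.Phi n ‖(2 * Real.pi) • ξ - η j‖ =
        ∑ j, c j * Mt l (r - ⟪η j, θ⟫) + ∑ j, c j * (((r ^ a : ℝ) : ℂ) *
          Pool.Agent.H438R2.BR.Phi n ‖(2 * Real.pi) • ξ - η j‖ - Mt l (r - ⟪η j, θ⟫)) := by
      rw [Finset.mul_sum, ← Finset.sum_add_distrib]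
      refine Finset.sum_congr rfl fun j _ => ?_
      ring
    rw [e]
    refine (norm_add_le _ _).trans (add_le_add hmain2 ?_)
    refine (norm_sum_le _ _).trans (le_trans (le_of_eq ?_) hξR)
    refine Finset.sum_congr rfl fun j _ => ?_
    rw [norm_mul]
  have hra : 0 < r ^ a := Real.rpow_pos_of_pos hr0 a
  rw [norm_mul, Complex.norm_real, Real.norm_of_nonneg hra.le] at hall
  have h1 : ‖∑ j, c j * Pool.Agent.H438R2.BR.Phi n ‖(2 * Real.pi) • ξ - η j‖‖ ≤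
      (2 * ‖l‖ * B + B) * r ^ (-a) := by
    rw [Real.rpow_neg hr0.le, ← div_eq_mul_inv, le_div_iff₀ hra, mul_comm]
    exact hall
  have h2 : r ^ (-a) ≤ ‖ξ‖ ^ (-a) := by
    apply Real.rpow_le_rpow_of_nonpos hξ0 _ (by linarith)
    have h3 : 1 ≤ 2 * Real.pi := by linarith [Real.pi_gt_three]
    have h4 := mul_le_mul_of_nonneg_right h3 hξ0.le
    linarith
  have hξa : 0 ≤ ‖ξ‖ ^ (-a) := Real.rpow_nonneg hξ0.le _
  rw [norm_mul, Complex.norm_real, Real.norm_of_nonneg hκ0]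
  calc κ * ‖∑ j, c j * Pool.Agent.H438R2.BR.Phi n ‖(2 * Real.pi) • ξ - η j‖‖
      ≤ κ * ((2 * ‖l‖ * B + B) * ‖ξ‖ ^ (-a)) := by
        refine mul_le_mul_of_nonneg_left (h1.trans ?_) hκ0
        exact mul_le_mul_of_nonneg_left h2 (by positivity)
    _ = κ * (2 * ‖l‖ + 1) * B * ‖ξ‖ ^ (-a) := by ring
    _ ≤ (κ * (2 * ‖l‖ + 1) + 1) * B * ‖ξ‖ ^ (-a) := by
        have h5 : 0 ≤ B * ‖ξ‖ ^ (-a) := mul_nonneg hB.le hξa
        have h6 : (κ * (2 * ‖l‖ + 1) + 1) * B * ‖ξ‖ ^ (-a) =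
            κ * (2 * ‖l‖ + 1) * B * ‖ξ‖ ^ (-a) + B * ‖ξ‖ ^ (-a) := by ring
        linarith

end Pool.Agent.H197.PD
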