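import Mathlib
import Pool.Agent.H197.PD.Stm2
set_option autoImplicit false

/-! # PD-FIN: the iteration of the one-step theorem -/

namespace Pool.Agent.H197.PD.FIN

open MeasureTheory Set Metric Complex Filter Topology
open scoped ENNReal NNReal RealInnerProductSpace

instance sig_fin (n : ℕ) : IsFiniteMeasure (sigma n) := by
  unfold sigma; infer_instance

theorem ker_norm {n : ℕ} (x ξ : E n) :
    ‖Complex.exp (-(2 * Real.pi * ⟪x, ξ⟫ : ℝ) * I)‖ = 1 := by
  have h : (-(2 * Real.pi * ⟪x, ξ⟫ : ℝ) * I : ℂ) = ((-(2 * Real.pi * ⟪x, ξ⟫) : ℝ) : ℂ) * I := by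
    push_cast; ring
  rw [h, Complex.norm_exp_ofReal_mul_I]

theorem ker_int {n : ℕ} {g : sphere (0 : E n) 1 → ℂ} (hg : Integrable g (sigma n)) (ξ : E n) :
    Integrable (fun x : sphere (0 : E n) 1 =>
      Complex.exp (-(2 * Real.pi * ⟪(x : E n), ξ⟫ : ℝ) * I) * g x) (sigma n) := by
  refine hg.bdd_mul (c := 1) ?_ ?_
  · have : Continuous fun x : sphere (0 : E n) 1 =>
      Complex.exp (-(2 * Real.pi * ⟪(x : E n), ξ⟫ : ℝ) * I) := by fun_prop
    exact this.aestronglyMeasurable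
  · exact Filter.Eventually.of_forall fun x => (ker_norm _ _).le

theorem int_of_bdd {n : ℕ} {g : sphere (0 : E n) 1 → ℂ} (hg : Measurable g) {M : ℝ}
    (hM : ∀ x, ‖g x‖ ≤ M) : Integrable g (sigma n) :=
  Integrable.of_bound hg.aestronglyMeasurable M (Filter.Eventually.of_forall hM)

theorem int_norm_le {n : ℕ} {g : sphere (0 : E n) 1 → ℂ} (hg : Measurable g) {M : ℝ}
    (hM : ∀ x, ‖g x‖ ≤ M) : ∫ x, ‖g x‖ ∂(sigma n) ≤ M * (sigma n).real univ := by
  calc ∫ x, ‖g x‖ ∂(sigma n) ≤ ∫ _x, M ∂(sigma n) :=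
        integral_mono (int_of_bdd hg hM).norm (integrable_const _) hM
    _ = _ := by rw [integral_const, smul_eq_mul, mul_comm]

/-- the residual -/
noncomputable def resid {n : ℕ} (H : ℕ → (sphere (0 : E n) 1 → ℂ) → (sphere (0 : E n) 1 → ℂ))
    (M : ℝ) (φ : sphere (0 : E n) 1 → ℂ) : ℕ → (sphere (0 : E n) 1 → ℂ)
  | 0 => φ
  | k + 1 => fun x => if ‖resid H M φ k x - H k (resid H M φ k) x‖ ≤ M / 4 ^ (k + 1) then
      resid H M φ k x - H k (resid H M φ k) x else 0

theorem t_FIN : S_FIN := by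
  intro hS n hn
  obtain ⟨C, hC, hstep⟩ := hS n hn
  refine ⟨4 * C, by positivity, ?_⟩
  intro g hg M hM ε hε hε1 η hη
  -- the steps
  have hex : ∀ (k : ℕ) (ψ : sphere (0 : E n) 1 → ℂ), ∃ h : sphere (0 : E n) 1 → ℂ,
      Measurable ψ → (∀ x, ‖ψ x‖ ≤ M / 4 ^ k) →
      Continuous h ∧ (∀ x, ‖h x‖ ≤ C * (M / 4 ^ k) / (ε / 2 ^ (k + 1))) ∧
      sigma n {x | M / 4 ^ (k + 1) < ‖ψ x - h x‖} ≤ ENNReal.ofReal (ε / 2 ^ (k + 1)) ∧
      (∀ ξ, ‖ft h ξ‖ ≤ C * (M / 4 ^ k) / (ε / 2 ^ (k + 1)) * dec n ξ) ∧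
      ∀ ξ, ‖ft h ξ‖ ≤ η / 2 ^ (k + 1) := by
    intro k ψ
    by_cases hψ : Measurable ψ ∧ ∀ x, ‖ψ x‖ ≤ M / 4 ^ k
    · obtain ⟨h, hh⟩ := hstep (M / 4 ^ k)
        (by positivity) ψ hψ.1 hψ.2 (ε / 2 ^ (k + 1)) (by positivity)
        ((div_le_self hε.le (one_le_pow₀ (by norm_num))).trans hε1) (M / 4 ^ (k + 1))
        (by positivity) (η / 2 ^ (k + 1)) (by positivity)
      exact ⟨h, fun _ _ => hh⟩
    · exact ⟨0, fun h1 h2 => absurd ⟨h1, h2⟩ hψ⟩
  choose H hH using hex
  set φ : sphere (0 : E n) 1 → ℂ := fun x => if ‖g x‖ ≤ M then g x else 0 with hφ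
  have hφm : Measurable φ := Measurable.ite (measurableSet_le hg.norm measurable_const) hg
    measurable_const
  have hφb : ∀ x, ‖φ x‖ ≤ M := by
    intro x
    simp only [hφ]
    split_ifs with h
    · exact h
    · rw [norm_zero]; exact hM.le
  set ψ : ℕ → (sphere (0 : E n) 1 → ℂ) := resid H M φ with hψ
  have hinv : ∀ k, Measurable (ψ k) ∧ ∀ x, ‖ψ k x‖ ≤ M / 4 ^ k := by
    intro k
    induction k with
    | zero =>
      refine ⟨hφm, fun x => ?_⟩
      rw [pow_zero, div_one]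
      exact hφb x
    | succ k ih =>
      have h1 := (hH k (ψ k) ih.1 ih.2).1.measurable
      refine ⟨?_, fun x => ?_⟩
      · exact Measurable.ite (measurableSet_le (ih.1.sub h1).norm measurable_const)
          (ih.1.sub h1) measurable_const
      · change ‖if ‖ψ k x - H k (ψ k) x‖ ≤ M / 4 ^ (k + 1) then
          ψ k x - H k (ψ k) x else 0‖ ≤ _
        split_ifs with h
        · exact h
        · rw [norm_zero]; positivity
  set hk : ℕ → (sphere (0 : E n) 1 → ℂ) := fun k => H k (ψ k) with hhk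
  have hkp := fun k => hH k (ψ k) (hinv k).1 (hinv k).2
  have hkc : ∀ k, Continuous (hk k) := fun k => (hkp k).1
  have hkm : ∀ k, Measurable (hk k) := fun k => (hkc k).measurable
  have hcoef : ∀ k : ℕ, C * (M / 4 ^ k) / (ε / 2 ^ (k + 1)) = (4 * C * M / ε) / 2 / 2 ^ k := by
    intro k
    have h4 : (4 : ℝ) ^ k = 2 ^ k * 2 ^ k := by rw [← mul_pow]; norm_num
    rw [h4, pow_succ]
    field_simp
    norm_num
  have hkb : ∀ k x, ‖hk k x‖ ≤ (4 * C * M / ε) / 2 / 2 ^ k := by
    intro k x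
    exact ((hkp k).2.1 x).trans (le_of_eq (hcoef k))
  have hgeo : HasSum (fun k : ℕ => (4 * C * M / ε) / 2 / 2 ^ k) (4 * C * M / ε) :=
    hasSum_geometric_two' _
  have hsum : ∀ x, Summable fun k => hk k x := fun x =>
    Summable.of_norm_bounded hgeo.summable fun k => hkb k x
  set h : sphere (0 : E n) 1 → ℂ := fun x => ∑' k, hk k x with hh
  have hhc : Continuous h := continuous_tsum hkc hgeo.summable hkb
  have hhb : ∀ x, ‖h x‖ ≤ 4 * C * M / ε := by
    intro x
    exact tsum_of_norm_bounded hgeo fun k => hkb k x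
  have hki : ∀ k, Integrable (hk k) (sigma n) := fun k => int_of_bdd (hkm k) (hkb k)
  -- the transform
  have hsumft : ∀ ξ, HasSum (fun k => ft (hk k) ξ) (ft h ξ) := by
    intro ξ
    unfold ft
    have h2 := hasSum_integral_of_summable_integral_norm
      (μ := sigma n) (F := fun k x => Complex.exp (-(2 * Real.pi * ⟪(x : E n), ξ⟫ : ℝ) * I) *
        hk k x) (fun k => ker_int (hki k) ξ) ?_
    · have h3 : (fun x : sphere (0 : E n) 1 =>
          Complex.exp (-(2 * Real.pi * ⟪(x : E n), ξ⟫ : ℝ) * I) * h x) =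
          fun x : sphere (0 : E n) 1 =>
            ∑' k, Complex.exp (-(2 * Real.pi * ⟪(x : E n), ξ⟫ : ℝ) * I) * hk k x := by
        funext x
        simp only [hh]
        rw [tsum_mul_left]
      rw [h3]
      exact h2
    · refine Summable.of_nonneg_of_le (fun k => integral_nonneg fun x => norm_nonneg _)
        (fun k => ?_) (hgeo.summable.mul_right ((sigma n).real univ))
      calc ∫ x, ‖Complex.exp (-(2 * Real.pi * ⟪(x : E n), ξ⟫ : ℝ) * I) * hk k x‖ ∂(sigma n)
          = ∫ x, ‖hk k x‖ ∂(sigma n) := by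
            refine integral_congr_ae (Eventually.of_forall fun x => ?_)
            simp only [norm_mul]
            rw [ker_norm, one_mul]
        _ ≤ _ := int_norm_le (hkm k) (hkb k)
  refine ⟨h, hhc, hhb, ?_, ?_, ?_⟩
  · -- the exceptional set
    have hsub : {x | h x ≠ g x} ⊆ (⋃ k, {x | M / 4 ^ (k + 1) < ‖ψ k x - hk k x‖}) ∪
        {x | M < ‖g x‖} := by
      intro x hx
      by_contra hc
      rw [mem_union, not_or, mem_iUnion, not_exists] at hc
      simp only [mem_ofPred_eq, not_lt] at hc hx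
      obtain ⟨h1, h2⟩ := hc
      apply hx
      have h3 : ∀ k, ψ (k + 1) x = ψ k x - hk k x := by
        intro k
        change (if ‖ψ k x - H k (ψ k) x‖ ≤ M / 4 ^ (k + 1) then
          ψ k x - H k (ψ k) x else 0) = _
        rw [if_pos (h1 k)]
      have h4 : ∀ K, ∑ k ∈ Finset.range K, hk k x = φ x - ψ K x := by
        intro K
        induction K with
        | zero => simp [hψ, resid]
        | succ K ih => rw [Finset.sum_range_succ, ih, h3 K]; ring
      have h5 : Tendsto (fun K => ψ K x) atTop (𝓝 0) := by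
        rw [tendsto_zero_iff_norm_tendsto_zero]
        refine squeeze_zero (fun K => norm_nonneg _) (fun K => (hinv K).2 x) ?_
        have h6 : Tendsto (fun K : ℕ => M * (1 / 4 : ℝ) ^ K) atTop (𝓝 (M * 0)) :=
          (tendsto_pow_atTop_nhds_zero_of_lt_one (by norm_num) (by norm_num)).const_mul M
        rw [mul_zero] at h6
        refine h6.congr fun K => ?_
        rw [one_div, inv_pow]; rfl
      have h7 : Tendsto (fun K => ∑ k ∈ Finset.range K, hk k x) atTop (𝓝 (φ x - 0)) := by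
        simp_rw [h4]
        exact tendsto_const_nhds.sub h5
      have h8 : h x = φ x - 0 := tendsto_nhds_unique (hsum x).hasSum.tendsto_sum_nat h7
      rw [h8, sub_zero, hφ]
      simp only
      rw [if_pos h2]
    refine (measure_mono hsub).trans ((measure_union_le _ _).trans ?_)
    gcongr
    refine (measure_iUnion_le _).trans ?_
    have h1 : ∀ k : ℕ, ε / 2 ^ (k + 1) = ε / 2 / 2 ^ k := by
      intro k; rw [pow_succ]; field_simp
    calc ∑' k, sigma n {x | M / 4 ^ (k + 1) < ‖ψ k x - hk k x‖}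
        ≤ ∑' k : ℕ, ENNReal.ofReal (ε / 2 / 2 ^ k) :=
          ENNReal.tsum_le_tsum fun k => by
            rw [← h1 k]; exact (hkp k).2.2.1
      _ = ENNReal.ofReal ε := by
          rw [← ENNReal.ofReal_tsum_of_nonneg (fun k => by positivity)
            (hasSum_geometric_two' ε).summable, (hasSum_geometric_two' ε).tsum_eq]
  · intro ξ
    rw [← (hsumft ξ).tsum_eq]
    refine tsum_of_norm_bounded (hgeo.mul_right (dec n ξ)) fun k => ?_
    rw [← hcoef k]
    exact (hkp k).2.2.2.1 ξ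
  · intro ξ
    rw [← (hsumft ξ).tsum_eq]
    refine tsum_of_norm_bounded (hasSum_geometric_two' η) fun k => ?_
    have h1 : η / 2 ^ (k + 1) = η / 2 / 2 ^ k := by
      rw [pow_succ]; field_simp
    rw [← h1]
    exact (hkp k).2.2.2.2 ξ

end Pool.Agent.H197.PD.FIN
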